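import Pool.Agent.TH694.CR.Draw

/-!
# Averaging over the selections; the lower bound
-/

set_option autoImplicit false

namespace Pool.Agent.TH694.CR

open Finset Pool.Agent.Helper770.Crossing

section avg

variable {T : Type*} [Fintype T] [DecidableEq T] {W : ℕ}

theorem card_one (t : T) (j : Fin W) :
    (univ.filter fun κ : T → Fin W => κ t = j).card * W = W ^ Fintype.card T := by
  have e1 : (univ.filter fun κ : T → Fin W => κ t = j) =
      Fintype.piFinset (fun i => if i = t then ({j} : Finset (Fin W)) else univ) := by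
    ext κ
    simp only [mem_filter, mem_univ, true_and, Fintype.mem_piFinset]
    constructor
    · intro h i
      split_ifs with hi
      · subst hi; simpa using h
      · exact mem_univ _
    · intro h
      simpa using h t
  rw [e1, Fintype.card_piFinset]
  have e2 : ∏ i : T, (if i = t then W else 1) = W := by
    rw [prod_ite_eq' univ t]; simp
  calc (∏ i, (if i = t then ({j} : Finset (Fin W)) else univ).card) * W
      = (∏ i, (if i = t then ({j} : Finset (Fin W)) else univ).card) *
        ∏ i : T, (if i = t then W else 1) := by rw [e2]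
    _ = ∏ _i : T, W := by
        rw [← prod_mul_distrib]
        refine prod_congr rfl fun i _ => ?_
        split_ifs <;> simp
    _ = W ^ Fintype.card T := by rw [prod_const, card_univ]

theorem card_two (t t' : T) (j j' : Fin W) (h : t ≠ t') :
    (univ.filter fun κ : T → Fin W => κ t = j ∧ κ t' = j').card * W ^ 2 =
      W ^ Fintype.card T := by
  have e1 : (univ.filter fun κ : T → Fin W => κ t = j ∧ κ t' = j') =
      Fintype.piFinset (fun i => if i = t then ({j} : Finset (Fin W)) else
        if i = t' then {j'} else univ) := by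
    ext κ
    simp only [mem_filter, mem_univ, true_and, Fintype.mem_piFinset]
    constructor
    · rintro ⟨h1, h2⟩ i
      split_ifs with hi hi'
      · subst hi; simpa using h1
      · subst hi'; simpa using h2
      · exact mem_univ _
    · intro h'
      have h1 := h' t
      have h2 := h' t'
      rw [if_pos rfl, mem_singleton] at h1
      rw [if_neg h.symm, if_pos rfl, mem_singleton] at h2
      exact ⟨h1, h2⟩
  rw [e1, Fintype.card_piFinset]
  have e2 : ∀ t : T, ∏ i : T, (if i = t then W else 1) = W := by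
    intro t
    rw [prod_ite_eq' univ t]; simp
  calc (∏ i, (if i = t then ({j} : Finset (Fin W)) else if i = t' then {j'} else univ).card) * W ^ 2
      = (∏ i, (if i = t then ({j} : Finset (Fin W)) else if i = t' then {j'} else univ).card) *
        ((∏ i : T, (if i = t then W else 1)) * ∏ i : T, (if i = t' then W else 1)) := by
          rw [e2, e2, sq]
    _ = ∏ _i : T, W := by
        rw [← prod_mul_distrib, ← prod_mul_distrib]
        refine prod_congr rfl fun i _ => ?_
        by_cases h1 : i = t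
        · subst h1; simp [h]
        · by_cases h2 : i = t'
          · subst h2; simp [h1]
          · simp [h1, h2]
    _ = W ^ Fintype.card T := by rw [prod_const, card_univ]

open Classical in
theorem avg_kappa {X : Type*} (C : Finset X) (hX : C.card + 1 ≤ W ^ 2)
    (A B : (T → Fin W) → X → Prop)
    (hA : ∀ x ∈ C, ∀ κ, A κ x → ∃ t t' j j', t ≠ t' ∧ ∀ κ', A κ' x → κ' t = j ∧ κ' t' = j')
    (hB : ∀ x ∈ C, ∀ κ, B κ x → ∃ t j, ∀ κ', B κ' x → κ' t = j)
    (hAB : ∀ x ∈ C, ∀ κ κ', A κ x → ¬ B κ' x) :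
    ∃ κ : T → Fin W, (∀ x ∈ C, ¬ A κ x) ∧ W * (C.filter fun x => B κ x).card ≤ C.card := by
  have hW : 0 < W := by
    rcases Nat.eq_zero_or_pos W with h | h
    · rw [h] at hX; simp at hX
    · exact h
  set P := W ^ Fintype.card T with hP
  have hP0 : 0 < P := by positivity
  -- bound for one crossing
  have key : ∀ x ∈ C, (C.card + 1) * (univ.filter fun κ => A κ x).card +
      W * (univ.filter fun κ => B κ x).card ≤ P := by
    intro x hx
    by_cases h1 : ∃ κ, A κ x
    · obtain ⟨κ, hκ⟩ := h1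
      have hb : (univ.filter fun κ => B κ x) = ∅ := by
        rw [filter_eq_empty_iff]
        intro κ' _
        exact hAB x hx κ κ' hκ
      obtain ⟨t, t', j, j', htt, h2⟩ := hA x hx κ hκ
      have h3 : (univ.filter fun κ => A κ x).card ≤
          (univ.filter fun κ : T → Fin W => κ t = j ∧ κ t' = j').card :=
        card_le_card fun κ' hκ' => by
          rw [mem_filter] at hκ' ⊢
          exact ⟨mem_univ _, h2 κ' hκ'.2⟩
      rw [hb, card_empty, mul_zero, add_zero]
      calc (C.card + 1) * (univ.filter fun κ => A κ x).card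
          ≤ W ^ 2 * (univ.filter fun κ : T → Fin W => κ t = j ∧ κ t' = j').card :=
            Nat.mul_le_mul hX h3
        _ = P := by rw [mul_comm, card_two t t' j j' htt]
    · have ha : (univ.filter fun κ => A κ x) = ∅ := by
        rw [filter_eq_empty_iff]
        intro κ' _ h
        exact h1 ⟨κ', h⟩
      rw [ha, card_empty, mul_zero, zero_add]
      by_cases h2 : ∃ κ, B κ x
      · obtain ⟨κ, hκ⟩ := h2
        obtain ⟨t, j, h3⟩ := hB x hx κ hκ
        have h4 : (univ.filter fun κ => B κ x).card ≤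
            (univ.filter fun κ : T → Fin W => κ t = j).card :=
          card_le_card fun κ' hκ' => by
            rw [mem_filter] at hκ' ⊢
            exact ⟨mem_univ _, h3 κ' hκ'.2⟩
        calc W * (univ.filter fun κ => B κ x).card
            ≤ W * (univ.filter fun κ : T → Fin W => κ t = j).card := Nat.mul_le_mul_left _ h4
          _ = P := by rw [mul_comm, card_one t j]
      · have hb : (univ.filter fun κ => B κ x) = ∅ := by
          rw [filter_eq_empty_iff]
          intro κ' _ h
          exact h2 ⟨κ', h⟩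
        rw [hb, card_empty, mul_zero]
        exact Nat.zero_le _
  -- double counting
  have dc : ∀ Q : (T → Fin W) → X → Prop,
      ∑ κ : T → Fin W, (C.filter fun x => Q κ x).card =
        ∑ x ∈ C, (univ.filter fun κ => Q κ x).card := by
    intro Q
    simp only [card_filter]
    exact sum_comm
  by_contra hcon
  push Not at hcon
  have h1 : ∀ κ : T → Fin W, C.card + 1 ≤ (C.card + 1) * (C.filter fun x => A κ x).card +
      W * (C.filter fun x => B κ x).card := by
    intro κ
    by_cases h : ∀ x ∈ C, ¬ A κ x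
    · have := hcon κ h
      omega
    · push Not at h
      obtain ⟨x, hx, hAx⟩ := h
      have : 1 ≤ (C.filter fun x => A κ x).card := card_pos.2 ⟨x, mem_filter.2 ⟨hx, hAx⟩⟩
      nlinarith [Nat.zero_le (W * (C.filter fun x => B κ x).card)]
  have h2 : P * (C.card + 1) ≤ C.card * P := by
    calc P * (C.card + 1) = ∑ _κ : T → Fin W, (C.card + 1) := by
          rw [sum_const, card_univ, Fintype.card_fun, Fintype.card_fin, smul_eq_mul]
      _ ≤ ∑ κ : T → Fin W, ((C.card + 1) * (C.filter fun x => A κ x).card +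
          W * (C.filter fun x => B κ x).card) := sum_le_sum fun κ _ => h1 κ
      _ = (C.card + 1) * ∑ x ∈ C, (univ.filter fun κ => A κ x).card +
          W * ∑ x ∈ C, (univ.filter fun κ => B κ x).card := by
          rw [sum_add_distrib, ← mul_sum, ← mul_sum, dc A, dc B]
      _ = ∑ x ∈ C, ((C.card + 1) * (univ.filter fun κ => A κ x).card +
          W * (univ.filter fun κ => B κ x).card) := by
          rw [sum_add_distrib, ← mul_sum, ← mul_sum]
      _ ≤ ∑ _x ∈ C, P := sum_le_sum key
      _ = C.card * P := by rw [sum_const, smul_eq_mul]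
  nlinarith

end avg

section lower

variable {N W M : ℕ} {L : Fin M → Hd N × Hd N}

theorem medE_inj {t t' : Fin (N + 1) × Bool × Bool} {j j' : Fin W} {e : Sym2 (NV N W M)}
    (h : e ∈ medE W M t.1 t.2.1 t.2.2 j) (h' : e ∈ medE W M t'.1 t'.2.1 t'.2.2 j') :
    t = t' ∧ j = j' := by
  obtain ⟨p, b, s⟩ := t
  obtain ⟨p', b', s'⟩ := t'
  simp only [medE, Set.mem_insert_iff, Set.mem_singleton_iff] at h h'
  rcases h with h | h <;> rcases h' with h' | h' <;> rw [h] at h' <;>
    simp only [Sym2.eq_iff, NV.md.injEq, reduceCtorEq, and_false, or_false] at h' <;>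
    simp only [Prod.mk.injEq] <;> tauto

theorem med_ne_lt {t : Fin (N + 1) × Bool × Bool} {j : Fin W} {i : Fin M}
    {e : Sym2 (NV N W M)}
    (h : e ∈ medE W M t.1 t.2.1 t.2.2 j) (h' : e ∈ ltE W L i) : False := by
  simp only [medE, ltE, Set.mem_insert_iff, Set.mem_singleton_iff] at h h'
  rcases h with h | h <;> rcases h' with h' | h' <;> rw [h] at h' <;>
    simp only [Sym2.eq_iff, reduceCtorEq, false_and, and_false, or_false] at h'

theorem ltE_inj {i i' : Fin M} {e : Sym2 (NV N W M)}
    (h : e ∈ ltE W L i) (h' : e ∈ ltE W L i') : i = i' := by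
  simp only [ltE, Set.mem_insert_iff, Set.mem_singleton_iff] at h h'
  rcases h with h | h <;> rcases h' with h' | h' <;> rw [h] at h' <;>
    simp only [Sym2.eq_iff, NV.lt.injEq, reduceCtorEq, false_and, or_false] at h' <;>
    exact h'.1

/-- **Lower bound**: a drawing with less than `W ^ 2` crossings gives a good assignment. -/
theorem lower (hN : 2 ≤ N) (hL : ∀ e, (L e).1.1 ≠ (L e).2.1) (D : Drawing (nk N W M L))
    (hfin : D.crossings.Finite) (hX : D.crossings.ncard < W ^ 2) :
    ∃ x : Fin (N + 1) → Bool, W * bad L x ≤ D.crossings.ncard := by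
  classical
  set C := hfin.toFinset with hC
  have hCc : D.crossings.ncard = C.card := Set.ncard_eq_toFinset_card _ hfin
  have hmem : ∀ x, x ∈ C ↔ x ∈ D.crossings := fun x => hfin.mem_toFinset
  let A : (Fin (N + 1) × Bool × Bool → Fin W) → Sym2 (Sym2 (NV N W M)) × ℂ → Prop :=
    fun κ x => ∃ t t' : Fin (N + 1) × Bool × Bool, t ≠ t' ∧
      ∃ e ∈ medE W M t.1 t.2.1 t.2.2 (κ t), ∃ f ∈ medE W M t'.1 t'.2.1 t'.2.2 (κ t'),
        x.1 = s(e, f)
  let B : (Fin (N + 1) × Bool × Bool → Fin W) → Sym2 (Sym2 (NV N W M)) × ℂ → Prop :=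
    fun κ x => ∃ i : Fin M, ∃ f ∈ ltE W L i, ∃ t : Fin (N + 1) × Bool × Bool,
      ∃ g ∈ medE W M t.1 t.2.1 t.2.2 (κ t), x.1 = s(f, g)
  obtain ⟨κ, hκA, hκB⟩ := avg_kappa C (by omega) A B (by
      rintro x - κ ⟨t, t', htt, e, he, f, hf, hx⟩
      refine ⟨t, t', κ t, κ t', htt, ?_⟩
      rintro κ' ⟨u, u', huu, e', he', f', hf', hx'⟩
      rw [hx] at hx'
      rcases Sym2.eq_iff.1 hx' with ⟨h1, h2⟩ | ⟨h1, h2⟩
      · subst h1; subst h2
        obtain ⟨rfl, h3⟩ := medE_inj he he'
        obtain ⟨rfl, h4⟩ := medE_inj hf hf'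
        exact ⟨h3.symm, h4.symm⟩
      · subst h1; subst h2
        obtain ⟨rfl, h3⟩ := medE_inj he hf'
        obtain ⟨rfl, h4⟩ := medE_inj hf he'
        exact ⟨h3.symm, h4.symm⟩) (by
      rintro x - κ ⟨i, f, hf, t, g, hg, hx⟩
      refine ⟨t, κ t, ?_⟩
      rintro κ' ⟨i', f', hf', t', g', hg', hx'⟩
      rw [hx] at hx'
      rcases Sym2.eq_iff.1 hx' with ⟨h1, h2⟩ | ⟨h1, h2⟩
      · subst h1; subst h2
        obtain ⟨rfl, h3⟩ := medE_inj hg hg'
        exact h3.symm
      · subst h1; subst h2
        exact (med_ne_lt hg' hf).elim) (by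
      rintro x - κ κ' ⟨t, t', htt, e, he, f, hf, hx⟩ ⟨i', f', hf', t', g', hg', hx'⟩
      rw [hx] at hx'
      rcases Sym2.eq_iff.1 hx' with ⟨h1, h2⟩ | ⟨h1, h2⟩
      · subst h1; exact med_ne_lt he hf'
      · subst h2; exact med_ne_lt hf hf')
  obtain ⟨x, hx⟩ := assign D hN hL κ (by
    intro t t' htt e he f hf z hz
    exact hκA _ ((hmem _).2 hz) ⟨t, t', htt, e, he, f, hf, rfl⟩)
  refine ⟨x, ?_⟩
  rw [hCc]
  refine le_trans (Nat.mul_le_mul_left _ ?_) hκB
  unfold bad
  have hx' : ∀ e, ∃ c : Sym2 (Sym2 (NV N W M)) × ℂ,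
      xor (x (L e).1.1) (L e).1.2 ≠ xor (x (L e).2.1) (L e).2.2 →
      c ∈ D.crossings ∧ ∃ f ∈ ltE W L e, ∃ t : Fin (N + 1) × Bool × Bool,
      ∃ g ∈ medE W M t.1 t.2.1 t.2.2 (κ t), c.1 = s(f, g) := by
    intro e
    by_cases h : xor (x (L e).1.1) (L e).1.2 ≠ xor (x (L e).2.1) (L e).2.2
    · obtain ⟨f, hf, t, g, hg, z, hz⟩ := hx e h
      exact ⟨_, fun _ => ⟨hz, f, hf, t, g, hg, rfl⟩⟩
    · exact ⟨(s(s(.lt e, .lt e), s(.lt e, .lt e)), 0), fun h' => absurd h' h⟩
  choose c hc using hx'
  refine card_le_card_of_injOn c ?_ ?_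
  · intro e he
    have he' := (mem_filter.1 he).2
    obtain ⟨h1, f, hf, t, g, hg, h2⟩ := hc e he'
    exact mem_coe.2 ((@mem_filter _ (B κ) (fun a => Classical.propDecidable (B κ a)) C (c e)).2
      ⟨(hmem _).2 h1, e, f, hf, t, g, hg, h2⟩)
  · intro e he e' he' hee
    obtain ⟨h1, f, hf, t, g, hg, h2⟩ := hc e (mem_filter.1 he).2
    obtain ⟨h1', f', hf', t', g', hg', h2'⟩ := hc e' (mem_filter.1 he').2
    rw [hee, h2'] at h2
    rcases Sym2.eq_iff.1 h2 with ⟨h3, h4⟩ | ⟨h3, h4⟩
    · subst h3; exact ltE_inj hf hf'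
    · subst h3; exact (med_ne_lt hg hf').elim

end lower

end Pool.Agent.TH694.CR
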