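import Pool.Agent.TH694.CR.Test

/-!
# The test of one constraint of a unique game
-/

set_option autoImplicit false

namespace Pool.Agent.TH694.CR

open Finset Pool.Agent.H562R2

variable {k q : ℕ}

/-- the noisy copy of a point: coordinate `i` is flipped when `z i = 0` -/
def noisy (x : Fin k → Bool) (z : Fin k → Fin q) : Fin k → Bool :=
  fun i => xor (x i) (decide ((z i : ℕ) = 0))

/-- permuted point -/
def pm (π : Equiv.Perm (Fin k)) (y : Fin k → Bool) : Fin k → Bool := fun j => y (π.symm j)

/-- number of the tests which fail -/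
def viol (π : Equiv.Perm (Fin k)) (q : ℕ) (F G : (Fin k → Bool) → Bool) : ℕ :=
  (univ.filter fun p : (Fin k → Bool) × (Fin k → Fin q) => F p.1 ≠ G (pm π (noisy p.1 p.2))).card

theorem sum_prod_q (f : Fin k → Fin q → ℝ) :
    ∑ z : Fin k → Fin q, ∏ i, f i (z i) = ∏ i, ∑ j, f i j := by
  have h := Finset.prod_univ_sum (fun _ : Fin k => (Finset.univ : Finset (Fin q))) f
  rw [Fintype.piFinset_univ] at h
  exact h.symm

theorem sum_sg (hq : 1 ≤ q) : ∑ j : Fin q, sg (decide ((j : ℕ) = 0)) = (q : ℝ) - 2 := by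
  obtain ⟨r, rfl⟩ : ∃ r, q = r + 1 := ⟨q - 1, by omega⟩
  rw [Fin.sum_univ_succ]
  simp only [Fin.val_zero, decide_true, sg_true, Fin.val_succ, Nat.add_eq_zero_iff, one_ne_zero,
    and_false, decide_false, sg_false, sum_const, card_univ, Fintype.card_fin, nsmul_eq_mul]
  push_cast
  ring

theorem sum_walsh (hq : 1 ≤ q) (S : Finset (Fin k)) :
    ∑ z : Fin k → Fin q, walsh S (fun i => decide ((z i : ℕ) = 0)) =
      (q : ℝ) ^ k * (1 - 2 / (q : ℝ)) ^ S.card := by
  have hq0 : (q : ℝ) ≠ 0 := by
    have : (0 : ℝ) < q := by exact_mod_cast hq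
    exact this.ne'
  have h1 : ∀ z : Fin k → Fin q, walsh S (fun i => decide ((z i : ℕ) = 0)) =
      ∏ i, (if i ∈ S then sg (decide ((z i : ℕ) = 0)) else 1) := fun z => walsh_univ S _
  simp only [h1]
  rw [sum_prod_q (fun i j => if i ∈ S then sg (decide ((j : ℕ) = 0)) else 1)]
  have h2 : ∀ i : Fin k, (∑ j : Fin q, (if i ∈ S then sg (decide ((j : ℕ) = 0)) else 1) : ℝ) =
      q * (if i ∈ S then (1 - 2 / (q : ℝ)) else 1) := by
    intro i
    by_cases hi : i ∈ S
    · simp only [hi, if_true]
      rw [sum_sg hq]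
      field_simp
    · simp only [hi, if_false]
      simp
  rw [prod_congr rfl fun i _ => h2 i, prod_mul_distrib, prod_const, card_univ, Fintype.card_fin]
  congr 1
  rw [prod_ite, prod_const, prod_const_one, mul_one]
  congr 2
  ext i; simp

theorem sg_mul_sg (a b : Bool) : sg a * sg b = 1 - 2 * (if a ≠ b then 1 else 0) := by
  cases a <;> cases b <;> simp <;> norm_num

theorem viol_formula (hq : 1 ≤ q) (π : Equiv.Perm (Fin k)) (F G : (Fin k → Bool) → Bool) :
    (viol π q F G : ℝ) = (2 : ℝ) ^ k * (q : ℝ) ^ k *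
      ((1 - ∑ S, (1 - 2 / (q : ℝ)) ^ S.card *
        (fc (fun x => sg (F x)) S * fc (fun y => sg (G (pm π y))) S)) / 2) := by
  have h := conv_formula (R := Fin k → Fin q) (X := Fin k)
    (fun z i => decide ((z i : ℕ) = 0)) (fun x => sg (F x)) (fun y => sg (G (pm π y)))
  simp only [sum_walsh hq] at h
  have e1 : ∑ S, (q : ℝ) ^ k * (1 - 2 / (q : ℝ)) ^ S.card *
      (fc (fun x => sg (F x)) S * fc (fun y => sg (G (pm π y))) S) = (q : ℝ) ^ k *
      ∑ S, (1 - 2 / (q : ℝ)) ^ S.card *
        (fc (fun x => sg (F x)) S * fc (fun y => sg (G (pm π y))) S) := by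
    rw [mul_sum]
    exact sum_congr rfl fun S _ => by ring
  rw [e1, Fintype.card_fin, div_eq_iff (by positivity)] at h
  have e2 : ∑ x : Fin k → Bool, ∑ z : Fin k → Fin q,
      sg (F x) * sg (G (pm π (fun i => xor (x i) (decide ((z i : ℕ) = 0))))) =
      (2 : ℝ) ^ k * (q : ℝ) ^ k - 2 * viol π q F G := by
    have e3 : ∀ (x : Fin k → Bool) (z : Fin k → Fin q),
        sg (F x) * sg (G (pm π (fun i => xor (x i) (decide ((z i : ℕ) = 0))))) =
        1 - 2 * (if F x ≠ G (pm π (noisy x z)) then 1 else 0) := fun x z => sg_mul_sg _ _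
    simp only [e3]
    rw [← sum_product' (univ : Finset (Fin k → Bool)) (univ : Finset (Fin k → Fin q))
      (fun x z => (1 : ℝ) - 2 * (if F x ≠ G (pm π (noisy x z)) then 1 else 0)),
      sum_sub_distrib, ← mul_sum, univ_product_univ]
    congr 1
    · rw [sum_const, card_univ, Fintype.card_prod, Fintype.card_fun, Fintype.card_fun]
      simp
    · unfold viol
      rw [card_filter]
      push_cast
      rfl
  rw [e2] at h
  linarith

theorem walsh_pm (π : Equiv.Perm (Fin k)) (S : Finset (Fin k)) (y : Fin k → Bool) :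
    walsh (S.map π.toEmbedding) (pm π y) = walsh S y := by
  unfold walsh
  rw [prod_map]
  refine prod_congr rfl fun i _ => ?_
  simp [pm]

theorem fc_pm (π : Equiv.Perm (Fin k)) (g : (Fin k → Bool) → ℝ) (S : Finset (Fin k)) :
    fc (fun y => g (pm π y)) S = fc g (S.map π.toEmbedding) := by
  unfold fc
  congr 1
  let e : Equiv.Perm (Fin k → Bool) :=
    { toFun := pm π
      invFun := fun y i => y (π i)
      left_inv := fun y => by funext i; simp [pm]
      right_inv := fun y => by funext i; simp [pm] }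
  rw [← Equiv.sum_comp e (fun y => g y * walsh (S.map π.toEmbedding) y)]
  refine sum_congr rfl fun y _ => ?_
  have : e y = pm π y := rfl
  rw [this, walsh_pm]

theorem inf_pm (π : Equiv.Perm (Fin k)) (D : ℕ) (g : (Fin k → Bool) → ℝ) (i : Fin k) :
    inf i (tr D (fc (fun y => g (pm π y)))) = inf (π i) (tr D (fc g)) := by
  unfold inf
  let e : Finset (Fin k) ≃ Finset (Fin k) := π.finsetCongr
  rw [← Equiv.sum_comp e (fun S => if π i ∈ S then tr D (fc g) S ^ 2 else 0)]
  refine sum_congr rfl fun S _ => ?_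
  have h1 : e S = S.map π.toEmbedding := rfl
  have h2 : π i ∈ e S ↔ i ∈ S := by rw [h1]; simp
  have h3 : tr D (fc (fun y => g (pm π y))) S = tr D (fc g) (e S) := by
    unfold tr
    rw [fc_pm, h1, card_map]
  rw [h3]
  by_cases hi : i ∈ S
  · rw [if_pos hi, if_pos (h2.2 hi)]
  · rw [if_neg hi, if_neg (fun h => hi (h2.1 h))]

/-- the threshold for influences is `1 / thr q K` -/
def thr (q K : ℕ) : ℕ := 4 * q * (2 ^ 20 * K * 9 ^ q)

/-- the influential coordinates of a Boolean function -/
noncomputable def lst (q K : ℕ) (F : (Fin k → Bool) → Bool) : Finset (Fin k) :=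
  by classical exact univ.filter fun i => 1 / (thr q K : ℝ) ≤ inf i (tr (q / 4) (fc fun x => sg (F x)))

theorem sg_sq (b : Bool) : sg b ^ 2 = 1 := by rw [sq, sg_mul_self]

theorem av_odd (F : (Fin k → Bool) → Bool) (hF : ∀ x, F (fun i => !(x i)) = !(F x)) :
    av (fun x => sg (F x)) = 0 := by
  have h1 : av (fun x => sg (F x)) = av (fun x => sg (F (fun i => !(x i)))) := by
    rw [av_def, av_def]
    congr 1
    let e : Equiv.Perm (Fin k → Bool) :=
      { toFun := fun x i => !(x i)
        invFun := fun x i => !(x i)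
        left_inv := fun y => by funext i; simp
        right_inv := fun y => by funext i; simp }
    rw [← Equiv.sum_comp e (fun x => sg (F x))]
    rfl
  have h2 : (fun x : Fin k → Bool => sg (F (fun i => !(x i)))) = fun x => (-1 : ℝ) * sg (F x) := by
    funext x
    rw [hF]
    cases F x <;> simp
  rw [h2, av_mul] at h1
  linarith

/-- **Soundness for one constraint**: few failing tests give a common influential label. -/
theorem exists_label (K : ℕ) (hK : 1 ≤ K) (hq : 10 ^ 7 * K ^ 2 ≤ q) (π : Equiv.Perm (Fin k))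
    (F G : (Fin k → Bool) → Bool) (hF : ∀ x, F (fun i => !(x i)) = !(F x))
    (h : (q : ℝ) * viol π q F G ≤ 2 * K * (2 ^ k * q ^ k)) :
    ∃ i, i ∈ lst q K F ∧ π i ∈ lst q K G := by
  classical
  have hKr : (1 : ℝ) ≤ K := by exact_mod_cast hK
  have hqr : (10 : ℝ) ^ 7 * K ^ 2 ≤ q := by exact_mod_cast hq
  have hq0 : (0 : ℝ) < q := by nlinarith
  have hqn : 10 ^ 7 ≤ q := by
    have : 1 ≤ K ^ 2 := Nat.one_le_pow _ _ (by omega)
    omega
  have hKq : 10 ^ 7 * (K : ℝ) ≤ q := by nlinarith
  set τ : ℝ := 1 / (2 ^ 20 * K * 9 ^ q) with hτ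
  have hτ0 : 0 < τ := by positivity
  set η : ℝ := 4 * K / q with hη
  have hη0 : 0 < η := by positivity
  have hηq : η * q = 4 * K := by rw [hη]; field_simp
  have e9 : (9 : ℝ) ^ (q / 4) ≤ 9 ^ q := pow_le_pow_right₀ (by norm_num) (by omega)
  have H : 1 - η ≤ ∑ S, (1 - 2 / (q : ℝ)) ^ S.card *
      (fc (fun x => sg (F x)) S * fc (fun y => sg (G (pm π y))) S) := by
    rw [viol_formula (by omega) π F G] at h
    have hN : (0 : ℝ) < 2 ^ k * q ^ k := by positivity
    set cor := ∑ S, (1 - 2 / (q : ℝ)) ^ S.card *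
      (fc (fun x => sg (F x)) S * fc (fun y => sg (G (pm π y))) S)
    have h5 : (2 ^ k * q ^ k) * (q * ((1 - cor) / 2)) ≤ (2 ^ k * q ^ k) * (2 * (K : ℝ)) := by
      nlinarith
    have h6 := le_of_mul_le_mul_left h5 hN
    have h7 : q * (1 - cor) ≤ q * η := by rw [mul_comm (q : ℝ) η, hηq]; linarith
    have h8 := le_of_mul_le_mul_left h7 hq0
    linarith
  have c1 : 15 * η ≤ 1 / 32 := by
    rw [hη, mul_div_assoc', div_le_div_iff₀ hq0 (by norm_num)]
    nlinarith
  have c2 : 16 * (15 * η) * (2 * η * q) < 1 / 1024 := by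
    have : 16 * (15 * η) * (2 * η * q) = 7680 * K ^ 2 / q := by rw [hη]; field_simp; ring
    rw [this, div_lt_div_iff₀ hq0 (by norm_num)]
    nlinarith
  have c3 : 64 * 9 ^ (q / 4) * (τ * (2 * η * q)) < 1 / 1024 := by
    have e1 : 64 * 9 ^ (q / 4) * (τ * (2 * η * q)) = 512 * K * τ * 9 ^ (q / 4) := by
      have : 2 * η * q = 8 * K := by linarith
      rw [this]; ring
    rw [e1]
    calc 512 * K * τ * 9 ^ (q / 4) ≤ 512 * K * τ * 9 ^ q :=
          mul_le_mul_of_nonneg_left e9 (by positivity)
      _ = 512 / 2 ^ 20 := by rw [hτ]; field_simp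
      _ < 1 / 1024 := by norm_num
  obtain ⟨i, h1, h2⟩ := common q (by omega) η τ hη0 hτ0 c1 c2 c3 (fun x => sg (F x))
    (fun y => sg (G (pm π y))) (fun x => sg_sq _) (fun x => sg_sq _) (av_odd F hF) H
  have e1 : τ / (4 * q) = 1 / (thr q K : ℝ) := by
    rw [hτ]; unfold thr; push_cast; field_simp; norm_num
  rw [e1] at h1 h2
  rw [inf_pm π (q / 4) (fun y => sg (G y))] at h2
  exact ⟨i, by unfold lst; simpa using h1, by unfold lst; simpa using h2⟩

/-- there are few influential coordinates -/
theorem card_lst (K : ℕ) (hK : 1 ≤ K) (hq : 1 ≤ q) (F : (Fin k → Bool) → Bool) :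
    (lst q K F).card ≤ q * thr q K := by
  classical
  have hthr : (0 : ℝ) < thr q K := by
    have : 0 < thr q K := by unfold thr; positivity
    exact_mod_cast this
  set c := tr (q / 4) (fc fun x => sg (F x)) with hc
  have h1 : (lst q K F).card * (1 / (thr q K : ℝ)) ≤ q := by
    calc ((lst q K F).card : ℝ) * (1 / (thr q K : ℝ)) = ∑ i ∈ lst q K F, 1 / (thr q K : ℝ) := by
          rw [sum_const, nsmul_eq_mul]
      _ ≤ ∑ i ∈ lst q K F, inf i c := sum_le_sum fun i hi => by
          unfold lst at hi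
          exact (mem_filter.1 hi).2
      _ ≤ ∑ i, inf i c := sum_le_sum_of_subset_of_nonneg (subset_univ _)
          fun i _ _ => inf_nonneg _ _
      _ = ∑ S, (S.card : ℝ) * c S ^ 2 := sum_inf c
      _ ≤ ∑ S, (q : ℝ) * (fc (fun x => sg (F x)) S) ^ 2 := by
          refine sum_le_sum fun S _ => ?_
          simp only [hc, tr]
          split_ifs with hS
          · have : (S.card : ℝ) ≤ q := by exact_mod_cast hS.trans (Nat.div_le_self _ _)
            exact mul_le_mul_of_nonneg_right this (sq_nonneg _)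
          · rw [zero_pow two_ne_zero, mul_zero]
            positivity
      _ = q := by rw [← mul_sum, sum_fc_sq _ (fun x => sg_sq _), mul_one]
  have h2 : ((lst q K F).card : ℝ) ≤ q * thr q K := by
    rw [mul_one_div, div_le_iff₀ hthr] at h1
    exact h1
  exact_mod_cast h2

/-- **Completeness for one constraint**: dictators fail few tests. -/
theorem viol_dict (hq : 1 ≤ q) (π : Equiv.Perm (Fin k)) (a : Fin k) :
    q * viol π q (fun x => x a) (fun y => y (π a)) = 2 ^ k * q ^ k := by
  classical
  have h1 : viol π q (fun x : Fin k → Bool => x a) (fun y => y (π a)) =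
      2 ^ k * ((univ : Finset (Fin k → Fin q)).filter fun z => (z a : ℕ) = 0).card := by
    unfold viol
    have : (univ.filter fun p : (Fin k → Bool) × (Fin k → Fin q) =>
        p.1 a ≠ pm π (noisy p.1 p.2) (π a)) =
        (univ : Finset (Fin k → Bool)) ×ˢ (univ.filter fun z : Fin k → Fin q => (z a : ℕ) = 0) := by
      ext ⟨x, z⟩
      simp only [mem_filter, mem_univ, true_and, mem_product, pm, noisy, Equiv.symm_apply_apply]
      by_cases hz : (z a : ℕ) = 0 <;> cases x a <;> simp [hz]
    rw [this, card_product, card_univ, Fintype.card_fun, Fintype.card_bool, Fintype.card_fin]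
  rw [h1]
  have h2 : q * ((univ : Finset (Fin k → Fin q)).filter fun z => (z a : ℕ) = 0).card = q ^ k := by
    obtain ⟨r, rfl⟩ : ∃ r, q = r + 1 := ⟨q - 1, by omega⟩
    have e1 : (univ : Finset (Fin k → Fin (r + 1))).filter (fun z => (z a : ℕ) = 0) =
        Fintype.piFinset (fun i => if i = a then ({0} : Finset (Fin (r + 1))) else univ) := by
      ext z
      simp only [mem_filter, mem_univ, true_and, Fintype.mem_piFinset]
      constructor
      · intro h i
        split_ifs with hi
        · subst hi; simp only [mem_singleton]; exact Fin.ext h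
        · exact mem_univ _
      · intro h
        have := h a
        simp only [if_true, mem_singleton] at this
        rw [this]; rfl
    rw [e1, Fintype.card_piFinset]
    have e2 : ∀ i : Fin k, (if i = a then ({0} : Finset (Fin (r + 1))) else univ).card =
        if i = a then 1 else r + 1 := by
      intro i
      split_ifs <;> simp
    rw [prod_congr rfl fun i _ => e2 i]
    rw [← mul_prod_erase univ _ (mem_univ a), if_pos rfl, one_mul]
    rw [prod_congr rfl (fun i hi => if_neg (ne_of_mem_erase hi)), prod_const,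
      card_erase_of_mem (mem_univ a), card_univ, Fintype.card_fin, ← pow_succ']
    congr 1
    have := a.2
    omega
  calc q * (2 ^ k * ((univ : Finset (Fin k → Fin q)).filter fun z => (z a : ℕ) = 0).card)
      = 2 ^ k * (q * ((univ : Finset (Fin k → Fin q)).filter fun z => (z a : ℕ) = 0).card) := by ring
    _ = _ := by rw [h2]

theorem viol_le (π : Equiv.Perm (Fin k)) (F G : (Fin k → Bool) → Bool) :
    viol π q F G ≤ 2 ^ k * q ^ k := by
  unfold viol
  refine (card_le_univ _).trans (le_of_eq ?_)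
  rw [Fintype.card_prod, Fintype.card_fun, Fintype.card_fun]
  simp

end Pool.Agent.TH694.CR
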