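import Pool.Agent.TH694.CR.Cube

/-!
# Low-degree functions with small influences are far from balanced Boolean functions
-/

set_option autoImplicit false

namespace Pool.Agent.TH694.CR

open Finset Pool.Agent.H562R2

variable {X : Type} [Fintype X] [DecidableEq X]

/-- the function with Walsh coefficients `c` -/
noncomputable def wf (c : Finset X → ℝ) (x : X → Bool) : ℝ := ∑ S, c S * walsh S x

theorem av_walsh (S T : Finset X) : av (fun x => walsh S x * walsh T x) = if S = T then 1 else 0 := by
  rw [av_def, walsh_orth]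
  have : (2 : ℝ) ^ Fintype.card X ≠ 0 := by positivity
  split_ifs <;> simp [this]

theorem av_wf_mul (c d : Finset X → ℝ) : av (fun x => wf c x * wf d x) = ∑ S, c S * d S := by
  have h : ∀ x, wf c x * wf d x = ∑ S, ∑ T, (c S * d T) * (walsh S x * walsh T x) := by
    intro x
    unfold wf
    rw [sum_mul_sum]
    exact sum_congr rfl fun S _ => sum_congr rfl fun T _ => by ring
  simp only [h]
  rw [av_sum]
  refine sum_congr rfl fun S _ => ?_
  rw [av_sum]
  have : ∀ T, av (fun x => (c S * d T) * (walsh S x * walsh T x)) =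
      (c S * d T) * (if S = T then 1 else 0) := by
    intro T
    rw [av_mul, av_walsh]
  simp only [this]
  simp

theorem av_wf_sq (c : Finset X → ℝ) : av (fun x => wf c x ^ 2) = ∑ S, c S ^ 2 := by
  simp only [sq]
  exact av_wf_mul c c

/-- fourth moments of low-degree functions -/
theorem av_wf_four (c : Finset X → ℝ) (D : ℕ) (hc : ∀ S, D < S.card → c S = 0) :
    av (fun x => wf c x ^ 4) ≤ 9 ^ D * (∑ S, c S ^ 2) ^ 2 := by
  obtain ⟨r, hr0, hr⟩ : ∃ r : ℝ, 0 < r ∧ r ^ 2 = 1 / 3 :=
    ⟨√(1 / 3), Real.sqrt_pos.2 (by norm_num), Real.sq_sqrt (by norm_num)⟩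
  have h := bonami r hr (univ : Finset X) (fun S => c S / r ^ S.card)
  have e1 : ∀ x : X → Bool, wpoly r (fun S => c S / r ^ S.card) univ x = wf c x := by
    intro x
    unfold wpoly wf
    rw [powerset_univ]
    refine sum_congr rfl fun S _ => ?_
    have : r ^ S.card ≠ 0 := by positivity
    field_simp
  simp only [e1] at h
  rw [← av_def] at h
  refine h.trans ?_
  have h3 : ∑ S ∈ (univ : Finset X).powerset, (c S / r ^ S.card) ^ 2 ≤ 3 ^ D * ∑ S, c S ^ 2 := by
    rw [powerset_univ, mul_sum]
    refine sum_le_sum fun S _ => ?_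
    by_cases hS : D < S.card
    · rw [hc S hS]; simp
    · have h4 : (r ^ S.card) ^ 2 = (1 / 3 : ℝ) ^ S.card := by rw [← pow_mul, mul_comm, pow_mul, hr]
      rw [div_pow, h4, one_div, inv_pow, div_inv_eq_mul, mul_comm]
      have : (3 : ℝ) ^ S.card ≤ 3 ^ D := pow_le_pow_right₀ (by norm_num) (not_lt.1 hS)
      exact mul_le_mul_of_nonneg_right this (sq_nonneg _)
  have h0 : 0 ≤ ∑ S ∈ (univ : Finset X).powerset, (c S / r ^ S.card) ^ 2 :=
    sum_nonneg fun _ _ => sq_nonneg _
  calc (∑ S ∈ (univ : Finset X).powerset, (c S / r ^ S.card) ^ 2) ^ 2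
      ≤ (3 ^ D * ∑ S, c S ^ 2) ^ 2 := pow_le_pow_left₀ h0 h3 2
    _ = 9 ^ D * (∑ S, c S ^ 2) ^ 2 := by
        rw [mul_pow, ← pow_mul, mul_comm D 2, pow_mul]; norm_num

/-- influence of coordinate `i` -/
noncomputable def inf (i : X) (c : Finset X → ℝ) : ℝ := ∑ S, if i ∈ S then c S ^ 2 else 0

theorem inf_nonneg (i : X) (c : Finset X → ℝ) : 0 ≤ inf i c :=
  sum_nonneg fun S _ => by split_ifs <;> positivity

theorem sum_inf (c : Finset X → ℝ) : ∑ i, inf i c = ∑ S, (S.card : ℝ) * c S ^ 2 := by
  unfold inf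
  rw [sum_comm]
  refine sum_congr rfl fun S _ => ?_
  rw [← sum_filter]
  simp

theorem walsh_update (S : Finset X) (i : X) (x : X → Bool) :
    walsh S (Function.update x i (!(x i))) = if i ∈ S then - walsh S x else walsh S x := by
  unfold walsh
  by_cases hi : i ∈ S
  · rw [if_pos hi, ← mul_prod_erase S _ hi, ← mul_prod_erase S _ hi]
    have h1 : ∀ j ∈ S.erase i, sg (Function.update x i (!(x i)) j) = sg (x j) := by
      intro j hj
      rw [Function.update_of_ne (ne_of_mem_erase hj)]
    rw [prod_congr rfl h1, Function.update_self]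
    cases x i <;> simp
  · rw [if_neg hi]
    refine prod_congr rfl fun j hj => ?_
    rw [Function.update_of_ne (ne_of_mem_of_not_mem hj hi)]

theorem dd_wf (i : X) (c : Finset X → ℝ) (x : X → Bool) :
    dd i (wf c) x = wf (fun S => if i ∈ S then c S else 0) x := by
  unfold dd wf
  rw [← sum_sub_distrib, sum_div]
  refine sum_congr rfl fun S _ => ?_
  rw [walsh_update]
  by_cases hi : i ∈ S
  · simp only [hi, if_true]; ring
  · simp only [hi, if_false]; ring

theorem av_dd_sq (i : X) (c : Finset X → ℝ) : av (fun x => dd i (wf c) x ^ 2) = inf i c := by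
  simp only [dd_wf]
  rw [av_wf_sq]
  unfold inf
  exact sum_congr rfl fun S _ => by split_ifs <;> ring

theorem av_dd_four (i : X) (c : Finset X → ℝ) (D : ℕ) (hc : ∀ S, D < S.card → c S = 0) :
    av (fun x => dd i (wf c) x ^ 4) ≤ 9 ^ D * inf i c ^ 2 := by
  simp only [dd_wf]
  refine (av_wf_four _ D fun S hS => ?_).trans (le_of_eq ?_)
  · split_ifs
    · exact hc S hS
    · rfl
  · congr 2
    unfold inf
    exact sum_congr rfl fun S _ => by split_ifs <;> ring

/-- truncation to `[-1/2, 1/2]` -/
noncomputable def cl (t : ℝ) : ℝ := max (-(1 / 2)) (min t (1 / 2))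

theorem cl_mem (t : ℝ) : -(1 / 2) ≤ cl t ∧ cl t ≤ 1 / 2 :=
  ⟨le_max_left _ _, max_le (by norm_num) (min_le_right _ _)⟩

theorem cl_lip (s t : ℝ) : |cl s - cl t| ≤ |s - t| := by
  unfold cl
  refine (abs_max_sub_max_le_max _ _ _ _).trans ?_
  rw [sub_self, abs_zero]
  refine max_le (abs_nonneg _) ?_
  refine (abs_min_sub_min_le_max _ _ _ _).trans ?_
  rw [sub_self, abs_zero]
  exact max_le le_rfl (abs_nonneg _)

theorem cl_far {s t : ℝ} (hs : 3 / 4 ≤ |s|) (h : |s - t| ≤ 1 / 4) : cl s = cl t := by
  unfold cl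
  rw [abs_le] at h
  rcases le_abs.1 hs with h1 | h1
  · rw [min_eq_right (by linarith), min_eq_right (by linarith)]
  · rw [min_eq_left (by linarith), min_eq_left (by linarith), max_eq_left (by linarith),
      max_eq_left (by linarith)]

/-- **Core inequality.** A function of degree at most `D` whose influences are at most `τ` and sum
up to at most `I` cannot be close to a balanced function with values `±1`. -/
theorem core {n : ℕ} (c : Finset (Fin n) → ℝ) (f : (Fin n → Bool) → ℝ) (D : ℕ) (τ I δ : ℝ)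
    (hD : ∀ S, D < S.card → c S = 0) (hτ : ∀ i, inf i c ≤ τ) (hI : ∑ i, inf i c ≤ I)
    (hf : ∀ x, f x ^ 2 = 1) (hf0 : av f = 0) (hδ : av (fun x => (wf c x - f x) ^ 2) ≤ δ)
    (h1 : δ ≤ 1 / 32) (h2 : 16 * δ * I < 1 / 1024) (h3 : 64 * 9 ^ D * (τ * I) < 1 / 1024) :
    False := by
  have hI0 : 0 ≤ I := (sum_nonneg fun i _ => inf_nonneg i c).trans hI
  have hδ0 : 0 ≤ δ := (av_nonneg fun x => sq_nonneg _).trans hδ
  set h : (Fin n → Bool) → ℝ := wf c with hh
  set v : (Fin n → Bool) → ℝ := fun x => cl (h x) with hv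
  set u : (Fin n → Bool) → ℝ := fun x => v x + 1 / 2 with hu
  have hu01 : ∀ x, 0 ≤ u x ∧ u x ≤ 1 := fun x => by
    have := cl_mem (h x)
    simp only [hu, hv]
    constructor <;> linarith
  have hddu : ∀ i x, dd i u x = dd i v x := fun i x => by simp only [dd, hu]; ring
  have hfv : ∀ x, f x = 1 ∨ f x = -1 := fun x => by
    have h0 : (f x - 1) * (f x + 1) = 0 := by linear_combination hf x
    rcases mul_eq_zero.1 h0 with h | h
    · left; linarith
    · right; linarith
  -- lower bound of the variance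
  have hclf : ∀ x, cl (f x) = f x / 2 := by
    intro x
    rcases hfv x with h | h <;> rw [h] <;> unfold cl <;> norm_num
  have hdist : av (fun x => (v x - f x / 2) ^ 2) ≤ δ := by
    refine le_trans (av_mono fun x => ?_) hδ
    rw [← hclf x]
    have := cl_lip (h x) (f x)
    rw [← sq_abs, ← sq_abs (h x - f x)]
    exact pow_le_pow_left₀ (abs_nonneg _) this 2
  have hvar : 1 / 16 ≤ av (fun x => u x ^ 2) - av u ^ 2 := by
    have a1 : av u = av v + 1 / 2 := by
      simp only [hu]
      rw [av_add, av_const]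
    have a2 : av (fun x => u x ^ 2) = av (fun x => v x ^ 2) + av v + 1 / 4 := by
      have : (fun x => u x ^ 2) = fun x => (v x ^ 2 + v x) + 1 / 4 := by
        funext x; simp only [hu]; ring
      rw [this, av_add, av_add, av_const]
    have a3 : av (fun x => (f x / 2) ^ 2) = 1 / 4 := by
      have : (fun x => (f x / 2) ^ 2) = fun _ => (1 / 4 : ℝ) := by
        funext x; rw [div_pow, hf]; norm_num
      rw [this, av_const]
    have a4 : av (fun x => f x / 2) = 0 := by
      have : (fun x => f x / 2) = fun x => (1 / 2 : ℝ) * f x := by funext x; ring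
      rw [this, av_mul, hf0, mul_zero]
    have a5 : av v ^ 2 ≤ δ := by
      have : av v = av (fun x => v x - f x / 2) := by rw [av_sub, a4, sub_zero]
      rw [this]
      exact (av_sq_le _).trans hdist
    have a6 : (1 / 4 : ℝ) ≤ 2 * av (fun x => v x ^ 2) + 2 * δ := by
      rw [← a3]
      refine le_trans (av_mono (g := fun x => 2 * v x ^ 2 + 2 * (v x - f x / 2) ^ 2) fun x => ?_) ?_
      · nlinarith [sq_nonneg (v x + (v x - f x / 2))]
      · rw [av_add, av_mul, av_mul]
        linarith
    rw [a1, a2]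
    nlinarith
  -- upper bound
  have hup := var_le u hu01
  have hΓ : ∀ x, 0 ≤ ∑ i, dd i h x ^ 2 := fun x => sum_nonneg fun _ _ => sq_nonneg _
  have hΓ4 : ∀ x, 0 ≤ ∑ i, dd i h x ^ 4 := fun x => sum_nonneg fun _ _ => by positivity
  let b : (Fin n → Bool) → ℝ := fun x => if |h x| < 3 / 4 then 1 else 0
  have hpt : ∀ x, √(∑ i, dd i u x ^ 2) ≤ b x * √(∑ i, dd i h x ^ 2) + √(64 * ∑ i, dd i h x ^ 4) := by
    intro x
    have e1 : ∑ i, dd i u x ^ 2 ≤ b x ^ 2 * ∑ i, dd i h x ^ 2 + 64 * ∑ i, dd i h x ^ 4 := by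
      rw [mul_sum, mul_sum, ← sum_add_distrib]
      refine sum_le_sum fun i _ => ?_
      rw [hddu]
      have hle : dd i v x ^ 2 ≤ dd i h x ^ 2 := by
        rw [← sq_abs, ← sq_abs (dd i h x)]
        refine pow_le_pow_left₀ (abs_nonneg _) ?_ 2
        unfold dd
        rw [abs_div, abs_div]
        exact div_le_div_of_nonneg_right (cl_lip _ _) (abs_nonneg _)
      by_cases hb : |h x| < 3 / 4
      · have : b x = 1 := if_pos hb
        rw [this, one_pow, one_mul]
        have : 0 ≤ 64 * dd i h x ^ 4 := by positivity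
        linarith
      · have hb0 : b x = 0 := if_neg hb
        rw [hb0]
        by_cases hd : |dd i h x| ≤ 1 / 8
        · have hz : dd i v x = 0 := by
            have : v x = v (Function.update x i (!(x i))) := by
              apply cl_far (not_lt.1 hb)
              have h5 : h x - h (Function.update x i (!(x i))) = 2 * dd i h x := by
                unfold dd; ring
              rw [h5, abs_mul, abs_two]
              linarith
            unfold dd
            rw [← this]; simp
          rw [hz]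
          have : 0 ≤ 64 * dd i h x ^ 4 := by positivity
          nlinarith
        · have h6 : 1 / 64 ≤ dd i h x ^ 2 := by
            rw [← sq_abs]
            nlinarith [not_le.1 hd]
          have : dd i h x ^ 4 = dd i h x ^ 2 * dd i h x ^ 2 := by ring
          nlinarith [sq_nonneg (dd i h x)]
    have hb0 : 0 ≤ b x := by simp only [b]; split_ifs <;> norm_num
    calc √(∑ i, dd i u x ^ 2) ≤ √(b x ^ 2 * ∑ i, dd i h x ^ 2 + 64 * ∑ i, dd i h x ^ 4) :=
          Real.sqrt_le_sqrt e1
      _ ≤ √(b x ^ 2 * ∑ i, dd i h x ^ 2) + √(64 * ∑ i, dd i h x ^ 4) :=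
          sqrt_add_le (mul_nonneg (sq_nonneg _) (hΓ x)) (mul_nonneg (by norm_num) (hΓ4 x))
      _ = _ := by rw [Real.sqrt_mul (sq_nonneg _), Real.sqrt_sq hb0]
  have hT1 : av (fun x => b x * √(∑ i, dd i h x ^ 2)) ≤ √(16 * δ * I) := by
    apply Real.le_sqrt_of_sq_le
    refine (av_cs _ _).trans ?_
    have e1 : av (fun x => b x ^ 2) ≤ 16 * δ := by
      calc av (fun x => b x ^ 2) ≤ av (fun x => 16 * (h x - f x) ^ 2) := by
            apply av_mono
            intro x
            by_cases hb : |h x| < 3 / 4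
            · have : b x = 1 := if_pos hb
              rw [this]
              rw [abs_lt] at hb
              rcases hfv x with h | h <;> rw [h] <;> nlinarith
            · have : b x = 0 := if_neg hb
              rw [this]
              have : 0 ≤ 16 * (h x - f x) ^ 2 := by positivity
              simpa using this
        _ ≤ 16 * δ := by
            rw [av_mul]
            exact mul_le_mul_of_nonneg_left hδ (by norm_num)
    have e2 : av (fun x => √(∑ i, dd i h x ^ 2) ^ 2) ≤ I := by
      have : (fun x => √(∑ i, dd i h x ^ 2) ^ 2) = fun x => ∑ i, dd i h x ^ 2 := by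
        funext x; exact Real.sq_sqrt (hΓ x)
      rw [this, av_sum]
      simp only [hh, av_dd_sq]
      exact hI
    exact mul_le_mul e1 e2 (av_nonneg fun x => sq_nonneg _) (by positivity)
  have hT2 : av (fun x => √(64 * ∑ i, dd i h x ^ 4)) ≤ √(64 * 9 ^ D * (τ * I)) := by
    refine (av_sqrt_le fun x => mul_nonneg (by norm_num) (hΓ4 x)).trans (Real.sqrt_le_sqrt ?_)
    rw [av_mul, av_sum]
    have e1 : ∑ i, av (fun x => dd i h x ^ 4) ≤ ∑ i, 9 ^ D * (τ * inf i c) := by
      refine sum_le_sum fun i _ => ?_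
      refine (av_dd_four i c D hD).trans ?_
      have := mul_le_mul_of_nonneg_right (hτ i) (inf_nonneg i c)
      rw [sq]
      exact mul_le_mul_of_nonneg_left this (by positivity)
    have e2 : ∑ i, 9 ^ D * (τ * inf i c) = 9 ^ D * (τ * ∑ i, inf i c) := by
      rw [mul_sum, mul_sum]
    by_cases hn : n = 0
    · subst hn
      exfalso
      have : av f = f default := by
        rw [av_def, Fintype.sum_unique]
        simp only [Fintype.card_fin, pow_zero, div_one]
        exact congrArg f (Subsingleton.elim _ _)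
      rw [this] at hf0
      have := hf default
      rw [hf0] at this
      norm_num at this
    · have hτ0 : 0 ≤ τ := (inf_nonneg ⟨0, Nat.pos_of_ne_zero hn⟩ c).trans (hτ _)
      rw [e2] at e1
      have e3 : 9 ^ D * (τ * ∑ i, inf i c) ≤ 9 ^ D * (τ * I) := by gcongr
      calc 64 * ∑ i, av (fun x => dd i h x ^ 4) ≤ 64 * (9 ^ D * (τ * I)) := by linarith
        _ = 64 * 9 ^ D * (τ * I) := by ring
  have hup2 : av (fun x => √(∑ i, dd i u x ^ 2)) ≤ √(16 * δ * I) + √(64 * 9 ^ D * (τ * I)) := by
    refine (av_mono hpt).trans ?_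
    rw [av_add]
    exact add_le_add hT1 hT2
  have s1 : √(16 * δ * I) < 1 / 32 := by
    rw [Real.sqrt_lt' (by norm_num)]
    linarith
  have s2 : √(64 * 9 ^ D * (τ * I)) < 1 / 32 := by
    rw [Real.sqrt_lt' (by norm_num)]
    linarith
  linarith

end Pool.Agent.TH694.CR
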