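import Pool.Agent.Helper770.CrossingDefs

/-!
# The crossing number
-/

set_option autoImplicit false

namespace Pool.Agent.TH694.CR

open Pool.Agent.Helper770.Crossing

/-- No three arcs of the drawing pass through a common interior point. -/
def NoTriple {V : Type*} {G : SimpleGraph V} (D : Drawing G) : Prop :=
  ∀ e ∈ G.edgeSet, ∀ f ∈ G.edgeSet, ∀ g ∈ G.edgeSet, e ≠ f → e ≠ g → f ≠ g → ∀ z,
    ¬ (z ∈ D.arc e '' Set.Ioo (0 : ℝ) 1 ∧ z ∈ D.arc f '' Set.Ioo (0 : ℝ) 1 ∧
      z ∈ D.arc g '' Set.Ioo (0 : ℝ) 1)

/-- The crossing number of a (finite) graph: the least number of crossings over all drawings in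
which any two arcs meet in finitely many points and no three arcs pass through a common interior
point. -/
noncomputable def cr {V : Type*} (G : SimpleGraph V) : ℕ :=
  sInf {n | ∃ D : Drawing G, NoTriple D ∧ D.crossings.Finite ∧ D.crossings.ncard = n}

end Pool.Agent.TH694.CR
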