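import Pool.Agent.H562R2.Walsh

/-!
# An isoperimetric inequality on the discrete cube

For `u : {0,1}^n → [0,1]` the variance of `u` is at most the mean of the length of its discrete
gradient.
-/

set_option autoImplicit false

namespace Pool.Agent.TH694.CR

open Finset Pool.Agent.H562R2

/-- average over the cube -/
noncomputable def av {X : Type} [Fintype X] (f : (X → Bool) → ℝ) : ℝ :=
  by classical exact (∑ x, f x) / 2 ^ Fintype.card X

section av

variable {X : Type} [Fintype X] [DecidableEq X]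

theorem av_def (f : (X → Bool) → ℝ) : av f = (∑ x, f x) / 2 ^ Fintype.card X := by
  unfold av
  congr 1
  refine Finset.sum_congr ?_ (fun _ _ => rfl)
  ext; simp

theorem av_add (f g : (X → Bool) → ℝ) : av (fun x => f x + g x) = av f + av g := by
  rw [av_def, av_def, av_def, sum_add_distrib, add_div]

theorem av_sub (f g : (X → Bool) → ℝ) : av (fun x => f x - g x) = av f - av g := by
  rw [av_def, av_def, av_def, sum_sub_distrib, sub_div]

theorem av_mul (c : ℝ) (f : (X → Bool) → ℝ) : av (fun x => c * f x) = c * av f := by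
  rw [av_def, av_def, ← mul_sum, mul_div_assoc]

theorem av_sum {ι : Type} (s : Finset ι) (f : ι → (X → Bool) → ℝ) :
    av (fun x => ∑ i ∈ s, f i x) = ∑ i ∈ s, av (f i) := by
  simp only [av_def]
  rw [sum_comm, sum_div]

theorem av_mono {f g : (X → Bool) → ℝ} (h : ∀ x, f x ≤ g x) : av f ≤ av g := by
  rw [av_def, av_def]
  exact div_le_div_of_nonneg_right (sum_le_sum fun x _ => h x) (by positivity)

theorem av_nonneg {f : (X → Bool) → ℝ} (h : ∀ x, 0 ≤ f x) : 0 ≤ av f := by
  rw [av_def]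
  exact div_nonneg (sum_nonneg fun x _ => h x) (by positivity)

theorem card_cube : (Fintype.card (X → Bool) : ℝ) = 2 ^ Fintype.card X := by
  rw [Fintype.card_fun, Fintype.card_bool]; push_cast; rfl

theorem av_const (c : ℝ) : av (fun _ : X → Bool => c) = c := by
  rw [av_def, sum_const, card_univ, nsmul_eq_mul, card_cube]
  have : (2 : ℝ) ^ Fintype.card X ≠ 0 := by positivity
  field_simp

theorem av_abs_le (f : (X → Bool) → ℝ) : |av f| ≤ av (fun x => |f x|) := by
  rw [av_def, av_def, abs_div, abs_of_pos (show (0 : ℝ) < 2 ^ Fintype.card X by positivity)]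
  exact div_le_div_of_nonneg_right (abs_sum_le_sum_abs _ _) (by positivity)

/-- Cauchy-Schwarz -/
theorem av_cs (f g : (X → Bool) → ℝ) :
    av (fun x => f x * g x) ^ 2 ≤ av (fun x => f x ^ 2) * av (fun x => g x ^ 2) := by
  rw [av_def, av_def, av_def, div_pow, div_mul_div_comm, ← sq]
  exact div_le_div_of_nonneg_right (sum_mul_sq_le_sq_mul_sq _ _ _) (by positivity)

theorem av_sq_le (f : (X → Bool) → ℝ) : av f ^ 2 ≤ av (fun x => f x ^ 2) := by
  have h := av_cs f (fun _ => 1)
  simp only [mul_one, one_pow, av_const] at h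
  exact h

theorem av_sqrt_le {f : (X → Bool) → ℝ} (h : ∀ x, 0 ≤ f x) :
    av (fun x => √(f x)) ≤ √(av f) := by
  apply Real.le_sqrt_of_sq_le
  refine (av_sq_le _).trans (le_of_eq ?_)
  congr 1
  funext x
  exact Real.sq_sqrt (h x)

end av

/-- the discrete derivative -/
noncomputable def dd {X : Type} [DecidableEq X] (i : X) (u : (X → Bool) → ℝ) (x : X → Bool) : ℝ :=
  (u x - u (Function.update x i (!(x i)))) / 2

theorem sum_cons {n : ℕ} (F : (Fin (n + 1) → Bool) → ℝ) :
    ∑ x, F x = ∑ x : Fin n → Bool, (F (Fin.cons true x) + F (Fin.cons false x)) := by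
  rw [← (Fin.consEquiv (fun _ : Fin (n + 1) => Bool)).sum_comp, Fintype.sum_prod_type]
  simp only [Fintype.sum_bool]
  rw [← sum_add_distrib]
  rfl

theorem av_cons {n : ℕ} (F : (Fin (n + 1) → Bool) → ℝ) :
    av F = (av (fun x : Fin n → Bool => F (Fin.cons true x)) +
      av (fun x : Fin n → Bool => F (Fin.cons false x))) / 2 := by
  rw [av_def, av_def, av_def, sum_cons, sum_add_distrib, ← add_div, Fintype.card_fin,
    Fintype.card_fin, pow_succ, div_div]

theorem sqrt_add_le_sum {ι : Type} (s : Finset ι) (a b : ι → ℝ) :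
    √((∑ i ∈ s, a i) ^ 2 + (∑ i ∈ s, b i) ^ 2) ≤ ∑ i ∈ s, √(a i ^ 2 + b i ^ 2) := by
  have h := norm_sum_le s (fun i => (a i : ℂ) + (b i : ℂ) * Complex.I)
  simp only [Complex.norm_add_mul_I] at h
  refine le_trans (le_of_eq ?_) h
  rw [sum_add_distrib, ← sum_mul, ← Complex.ofReal_sum, ← Complex.ofReal_sum,
    Complex.norm_add_mul_I]

theorem sqrt_av_le {X : Type} [Fintype X] [DecidableEq X] (a b : (X → Bool) → ℝ) :
    √(av a ^ 2 + av b ^ 2) ≤ av (fun x => √(a x ^ 2 + b x ^ 2)) := by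
  have hN : (0 : ℝ) < 2 ^ Fintype.card X := by positivity
  rw [av_def, av_def, av_def, le_div_iff₀ hN]
  refine le_trans (le_of_eq ?_) (sqrt_add_le_sum univ a b)
  rw [div_pow, div_pow, ← add_div, Real.sqrt_div (by positivity), Real.sqrt_sq hN.le]
  field_simp

/-- the profile -/
noncomputable def JJ (t : ℝ) : ℝ := t * (1 - t)

theorem JJ_nonneg {t : ℝ} (h0 : 0 ≤ t) (h1 : t ≤ 1) : 0 ≤ JJ t := mul_nonneg h0 (by linarith)

theorem JJ_le (t : ℝ) : JJ t ≤ 1 / 4 := by unfold JJ; nlinarith [sq_nonneg (t - 1 / 2)]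

theorem two_point {a b : ℝ} (ha0 : 0 ≤ a) (ha1 : a ≤ 1) (hb0 : 0 ≤ b) (hb1 : b ≤ 1) :
    JJ ((a + b) / 2) ≤ (√(JJ a ^ 2 + ((a - b) / 2) ^ 2) + √(JJ b ^ 2 + ((a - b) / 2) ^ 2)) / 2 := by
  have key : ∀ c, 0 ≤ JJ c → JJ c + ((a - b) / 2) ^ 2 ≤ √(JJ c ^ 2 + ((a - b) / 2) ^ 2) := by
    intro c hc
    apply Real.le_sqrt_of_sq_le
    have h1 := JJ_le c
    have h2 : ((a - b) / 2) ^ 2 ≤ 1 / 4 := by
      have : |a - b| ≤ 1 := abs_le.2 ⟨by linarith, by linarith⟩
      have := sq_le_one_iff_abs_le_one (a - b) |>.2 this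
      nlinarith
    have h3 : 0 ≤ ((a - b) / 2) ^ 2 := sq_nonneg _
    nlinarith
  have h1 := key a (JJ_nonneg ha0 ha1)
  have h2 := key b (JJ_nonneg hb0 hb1)
  have h3 : JJ ((a + b) / 2) = (JJ a + JJ b) / 2 + ((a - b) / 2) ^ 2 := by unfold JJ; ring
  rw [h3]
  linarith

theorem av_mem {X : Type} [Fintype X] [DecidableEq X] {u : (X → Bool) → ℝ}
    (h : ∀ x, 0 ≤ u x ∧ u x ≤ 1) : 0 ≤ av u ∧ av u ≤ 1 :=
  ⟨av_nonneg fun x => (h x).1, (av_mono (g := fun _ => 1) fun x => (h x).2).trans
    (le_of_eq (av_const 1))⟩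

theorem sqrt_add_le {a b : ℝ} (ha : 0 ≤ a) (hb : 0 ≤ b) : √(a + b) ≤ √a + √b := by
  have h1 := Real.sqrt_nonneg a
  have h2 := Real.sqrt_nonneg b
  refine Real.sqrt_le_iff.2 ⟨by positivity, ?_⟩
  have h3 := Real.sq_sqrt ha
  have h4 := Real.sq_sqrt hb
  nlinarith [mul_nonneg h1 h2]

theorem update_cons_zero {n : ℕ} (b c : Bool) (x : Fin n → Bool) :
    Function.update (Fin.cons b x : Fin (n + 1) → Bool) 0 c = Fin.cons c x := by
  funext i
  refine Fin.cases ?_ (fun j => ?_) i
  · simp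
  · simp

theorem update_cons_succ {n : ℕ} (b c : Bool) (x : Fin n → Bool) (i : Fin n) :
    Function.update (Fin.cons b x : Fin (n + 1) → Bool) i.succ c =
      Fin.cons b (Function.update x i c) := (Fin.cons_update (α := fun _ => Bool) b x i c).symm

/-- a functional inequality of Bobkov's type -/
theorem bobkov : ∀ (n : ℕ) (u : (Fin n → Bool) → ℝ), (∀ x, 0 ≤ u x ∧ u x ≤ 1) →
    JJ (av u) ≤ av (fun x => √(JJ (u x) ^ 2 + ∑ i, dd i u x ^ 2)) := by
  intro n
  induction n with
  | zero =>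
    intro u hu
    have h1 : ∀ f : (Fin 0 → Bool) → ℝ, av f = f default := by
      intro f
      rw [av_def, Fintype.sum_unique]
      simp only [Fintype.card_fin, pow_zero, div_one]
      exact congrArg f (Subsingleton.elim _ _)
    rw [h1, h1]
    simp only [univ_eq_empty, sum_empty, add_zero]
    rw [Real.sqrt_sq_eq_abs]
    exact le_abs_self _
  | succ n ih =>
    intro u hu
    rw [av_cons u, av_cons]
    set ut : (Fin n → Bool) → ℝ := fun x => u (Fin.cons true x) with hut
    set uf : (Fin n → Bool) → ℝ := fun x => u (Fin.cons false x) with huf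
    have ht : ∀ x, 0 ≤ ut x ∧ ut x ≤ 1 := fun x => hu _
    have hf : ∀ x, 0 ≤ uf x ∧ uf x ≤ 1 := fun x => hu _
    refine (two_point (av_mem ht).1 (av_mem ht).2 (av_mem hf).1 (av_mem hf).2).trans ?_
    have hd : (av ut - av uf) / 2 = av (fun x => (ut x - uf x) / 2) := by
      have : (fun x => (ut x - uf x) / 2) = fun x => (1 / 2 : ℝ) * (ut x - uf x) := by
        funext x; ring
      rw [this, av_mul, av_sub]; ring
    have step : ∀ (v : (Fin n → Bool) → ℝ), (∀ x, 0 ≤ v x ∧ v x ≤ 1) →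
        √(JJ (av v) ^ 2 + ((av ut - av uf) / 2) ^ 2) ≤
          av (fun x => √(JJ (v x) ^ 2 + ∑ i, dd i v x ^ 2 + ((ut x - uf x) / 2) ^ 2)) := by
      intro v hv
      have h1 := ih v hv
      have h2 : √(JJ (av v) ^ 2 + ((av ut - av uf) / 2) ^ 2) ≤
          √(av (fun x => √(JJ (v x) ^ 2 + ∑ i, dd i v x ^ 2)) ^ 2 +
            av (fun x => (ut x - uf x) / 2) ^ 2) := by
        apply Real.sqrt_le_sqrt
        rw [hd]
        have := JJ_nonneg (av_mem hv).1 (av_mem hv).2
        gcongr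
      refine h2.trans ((sqrt_av_le _ _).trans (le_of_eq ?_))
      congr 1
      funext x
      rw [Real.sq_sqrt]
      exact add_nonneg (sq_nonneg _) (sum_nonneg fun _ _ => sq_nonneg _)
    have e1 : ∀ x : Fin n → Bool, JJ (u (Fin.cons true x)) ^ 2 + ∑ i, dd i u (Fin.cons true x) ^ 2 =
        JJ (ut x) ^ 2 + ∑ i, dd i ut x ^ 2 + ((ut x - uf x) / 2) ^ 2 := by
      intro x
      rw [Fin.sum_univ_succ]
      have a1 : dd 0 u (Fin.cons true x) = (ut x - uf x) / 2 := by
        unfold dd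
        rw [update_cons_zero]; rfl
      have a2 : ∀ i : Fin n, dd i.succ u (Fin.cons true x) = dd i ut x := by
        intro i
        unfold dd
        rw [update_cons_succ]; rfl
      rw [a1]
      simp only [a2]
      ring
    have e2 : ∀ x : Fin n → Bool, JJ (u (Fin.cons false x)) ^ 2 + ∑ i, dd i u (Fin.cons false x) ^ 2 =
        JJ (uf x) ^ 2 + ∑ i, dd i uf x ^ 2 + ((ut x - uf x) / 2) ^ 2 := by
      intro x
      rw [Fin.sum_univ_succ]
      have a1 : dd 0 u (Fin.cons false x) = (uf x - ut x) / 2 := by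
        unfold dd
        rw [update_cons_zero]; rfl
      have a2 : ∀ i : Fin n, dd i.succ u (Fin.cons false x) = dd i uf x := by
        intro i
        unfold dd
        rw [update_cons_succ]; rfl
      rw [a1]
      simp only [a2]
      ring
    simp only [e1, e2]
    have s1 := step ut ht
    have s2 := step uf hf
    linarith

/-- The variance of a function with values in `[0,1]` is at most the mean length of its discrete
gradient. -/
theorem var_le {n : ℕ} (u : (Fin n → Bool) → ℝ) (hu : ∀ x, 0 ≤ u x ∧ u x ≤ 1) :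
    av (fun x => u x ^ 2) - av u ^ 2 ≤ av (fun x => √(∑ i, dd i u x ^ 2)) := by
  have h1 := bobkov n u hu
  have h2 : av (fun x => √(JJ (u x) ^ 2 + ∑ i, dd i u x ^ 2)) ≤
      av (fun x => JJ (u x) + √(∑ i, dd i u x ^ 2)) := by
    apply av_mono
    intro x
    have hJ := JJ_nonneg (hu x).1 (hu x).2
    have hs : 0 ≤ ∑ i, dd i u x ^ 2 := sum_nonneg fun _ _ => sq_nonneg _
    refine (sqrt_add_le (sq_nonneg _) hs).trans ?_
    rw [Real.sqrt_sq hJ]
  rw [av_add] at h2
  have h3 : av (fun x => JJ (u x)) = av u - av (fun x => u x ^ 2) := by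
    rw [← av_sub]
    congr 1
    funext x
    unfold JJ; ring
  have h4 : JJ (av u) = av u - av u ^ 2 := by unfold JJ; ring
  linarith

end Pool.Agent.TH694.CR
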