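import Pool.Agent.Helper770.Straight
import Pool.Agent.TH694.CR.CrDefs

/-!
# The necklace graph
-/

set_option autoImplicit false

namespace Pool.Agent.TH694.CR

open Pool.Agent.Helper770.Crossing Pool.Agent.Helper770.Straight

/-- The points `a, b` are strictly separated from the points `c, d` by a line. -/
def Sepr (a b c d : ℂ) : Prop :=
  ∃ α β γ : ℝ, α * a.re + β * a.im < γ ∧ α * b.re + β * b.im < γ ∧
    γ < α * c.re + β * c.im ∧ γ < α * d.re + β * d.im

/-- Vertices of the necklace graph with `N + 1` pieces, width `W` and `M` light edges: junctions,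
two handles of every piece, the middle vertices of the medium paths (piece, handle, side, number)
and the middle vertices of the light edges. -/
inductive NV (N W M : ℕ) : Type
  | jn (p : Fin (N + 1))
  | hd (p : Fin (N + 1)) (b : Bool)
  | md (p : Fin (N + 1)) (b s : Bool) (j : Fin W)
  | lt (e : Fin M)
  deriving DecidableEq, Fintype

/-- A handle: a piece and a bit. -/
abbrev Hd (N : ℕ) : Type := Fin (N + 1) × Bool

/-- The oriented adjacency of the necklace graph: every middle vertex of a medium path is joined to
its handle and to the junction on its side; the middle vertex of a light edge is joined to the two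
handles of the edge. -/
def rel {N W M : ℕ} (L : Fin M → Hd N × Hd N) : NV N W M → NV N W M → Prop
  | .md p b _ _, .hd p' b' => p = p' ∧ b = b'
  | .md p _ s _, .jn p' => p' = if s then p + 1 else p
  | .lt e, .hd p b => (L e).1 = (p, b) ∨ (L e).2 = (p, b)
  | _, _ => False

/-- The necklace graph. -/
def nk (N W M : ℕ) (L : Fin M → Hd N × Hd N) : SimpleGraph (NV N W M) :=
  SimpleGraph.fromRel (rel L)

/-- The number of the light edges which are violated by the assignment `x`. -/
def bad {N M : ℕ} (L : Fin M → Hd N × Hd N) (x : Fin (N + 1) → Bool) : ℕ :=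
  (Finset.univ.filter fun e : Fin M =>
    xor (x (L e).1.1) (L e).1.2 ≠ xor (x (L e).2.1) (L e).2.2).card

end Pool.Agent.TH694.CR
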