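import Pool.Agent.Helper770.VanKampen

/-!
# Labels mod 2 of the curves of a drawing
-/

set_option autoImplicit false

namespace Pool.Agent.TH694.CR

open Complex Pool.Agent.Helper770.VanKampen

/-- Winding labels mod 2: a family of curves between the points `p v` gives labels `m i c` of a
curve and a vertex and an antisymmetric `o x y`, such that for two curves with disjoint images the
labels satisfy a linear relation. -/
theorem labels {V ι : Type*} (p : V → ℂ) (hp : Function.Injective p) (a b : ι → V)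
    (γ : ι → ℝ → ℂ) (hc : ∀ i, Continuous (γ i)) (h0 : ∀ i, γ i 0 = p (a i))
    (h1 : ∀ i, γ i 1 = p (b i)) (hv : ∀ i c, c ≠ a i → c ≠ b i → ∀ t, γ i t ≠ p c) :
    ∃ (o : V → V → ZMod 2) (m : ι → V → ZMod 2), (∀ x y, x ≠ y → o x y + o y x = 1) ∧
      ∀ i j, a i ≠ a j → a i ≠ b j → b i ≠ a j → b i ≠ b j → (∀ s t, γ i s ≠ γ j t) →
        m i (a j) + m i (b j) + m j (a i) + m j (b i) =
          o (a i) (a j) + o (a i) (b j) + o (b i) (a j) + o (b i) (b j) := by
  classical
  -- integers attached to pairs curve, vertex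
  have hn : ∀ i c, ∃ n : ℤ, c ≠ a i → c ≠ b i →
      inc (fun t => γ i t - p c) =
        log (p (b i) - p c) - log (p (a i) - p c) + n * (2 * Real.pi * I) := by
    intro i c
    by_cases h : c ≠ a i ∧ c ≠ b i
    · obtain ⟨hca, hcb⟩ := h
      obtain ⟨n, hn⟩ := inc_mod (fun t => γ i t - p c) ((hc i).sub continuous_const)
        (fun t => sub_ne_zero.mpr (hv i c hca hcb t))
      refine ⟨n, fun _ _ => ?_⟩
      rw [hn]; simp only [h0 i, h1 i]
    · exact ⟨0, fun h1 h2 => absurd ⟨h1, h2⟩ h⟩
  choose n hn using hn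
  have hB : ∀ x y, ∃ k : ℤ, x ≠ y →
      log (p x - p y) - log (p y - p x) = (2 * k + 1) * (Real.pi * I) := by
    intro x y
    by_cases h : x = y
    · exact ⟨0, fun h' => absurd h h'⟩
    · obtain ⟨k, hk⟩ := log_sub_log_neg (p x - p y) (sub_ne_zero.mpr (fun h' => h (hp h')))
      refine ⟨k, fun _ => ?_⟩
      rw [← hk]; congr 2; ring
  choose B hB using hB
  have hpiI : (Real.pi * I : ℂ) ≠ 0 := by simp [Real.pi_ne_zero]
  have two : (2 : ZMod 2) = 0 := rfl
  refine ⟨fun x y => (B x y : ZMod 2), fun i c => (n i c : ZMod 2), ?_, ?_⟩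
  · intro x y hxy
    have e1 := hB x y hxy
    have e2 := hB y x hxy.symm
    have e3 : ((2 * (B x y : ℂ) + 1) + (2 * (B y x : ℂ) + 1)) * (Real.pi * I) = 0 := by
      rw [add_mul, ← e1, ← e2]; ring
    have e4 : (2 * (B x y : ℂ) + 1) + (2 * (B y x : ℂ) + 1) = 0 := by
      rcases mul_eq_zero.mp e3 with h | h
      · exact h
      · exact absurd h hpiI
    have e5 : (2 * (B x y) + 1) + (2 * (B y x) + 1) = 0 := by exact_mod_cast e4
    have e6 : B x y + B y x = 1 - 2 := by omega
    have e7 := congrArg (Int.cast : ℤ → ZMod 2) e6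
    push_cast at e7
    rw [e7]; rfl
  · intro i j hac had hbc hbd hdis
    have sq := inc_square (γ i) (γ j) (hc i) (hc j) hdis
    rw [h0 i, h1 i, h0 j, h1 j, hn i (a j) hac.symm hbc.symm, hn i (b j) had.symm hbd.symm,
      hn j (b i) hbc hbd, hn j (a i) hac had] at sq
    have b1 := hB (b i) (a j) hbc
    have b2 := hB (a i) (a j) hac
    have b3 := hB (b i) (b j) hbd
    have b4 := hB (a i) (b j) had
    have e1 : ((B (b i) (a j) : ℂ) - B (a i) (a j) - B (b i) (b j) + B (a i) (b j)
        + n i (a j) - n i (b j) + n j (b i) - n j (a i)) * (Real.pi * I) = 0 := by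
      linear_combination (1/2) * sq - (1/2) * b1 + (1/2) * b2 + (1/2) * b3 - (1/2) * b4
    have e2 : (B (b i) (a j) : ℂ) - B (a i) (a j) - B (b i) (b j) + B (a i) (b j)
        + n i (a j) - n i (b j) + n j (b i) - n j (a i) = 0 := by
      rcases mul_eq_zero.mp e1 with h | h
      · exact h
      · exact absurd h hpiI
    have e3 : B (b i) (a j) - B (a i) (a j) - B (b i) (b j) + B (a i) (b j)
        + n i (a j) - n i (b j) + n j (b i) - n j (a i) = 0 := by
      exact_mod_cast e2
    have e4 := congrArg (Int.cast : ℤ → ZMod 2) e3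
    push_cast at e4
    linear_combination e4 + ((n i (b j) : ZMod 2) + n j (a i) - B (b i) (a j)
      - B (a i) (b j)) * two

end Pool.Agent.TH694.CR
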