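import Pool.Agent.TH694.CR.Thin
import Pool.Agent.TH694.CR.Labels

/-!
# From drawings to assignments
-/

set_option autoImplicit false

namespace Pool.Agent.TH694.CR

open Finset Pool.Agent.Helper770.Crossing

section general

variable {V : Type*} {G : SimpleGraph V} (D : Drawing G)

/-- the closed arc of an edge -/
def Drc (e : Sym2 V) : Set ℂ := D.arc e '' Set.Icc 0 1

theorem edge_curve {u v : V} (h : G.Adj u v) : ∃ c : ℝ → ℂ, Continuous c ∧ c 0 = D.pos u ∧
    c 1 = D.pos v ∧ ∀ t, c t ∈ Drc D s(u, v) := by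
  have hc : Continuous (Set.IccExtend (zero_le_one (α := ℝ))
      (Set.domRestrict (Set.Icc (0 : ℝ) 1) (D.arc s(u, v)))) :=
    (continuousOn_iff_continuous_domRestrict.1 (D.arc_continuousOn s(u, v) h)).Icc_extend'
  have hm : ∀ t, Set.IccExtend (zero_le_one (α := ℝ))
      (Set.domRestrict (Set.Icc (0 : ℝ) 1) (D.arc s(u, v))) t ∈ Drc D s(u, v) := by
    intro t
    exact ⟨_, (Set.projIcc 0 1 zero_le_one t).2, rfl⟩
  have h0 : Set.IccExtend (zero_le_one (α := ℝ))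
      (Set.domRestrict (Set.Icc (0 : ℝ) 1) (D.arc s(u, v))) 0 = D.arc s(u, v) 0 := by
    rw [Set.IccExtend_left]; rfl
  have h1 : Set.IccExtend (zero_le_one (α := ℝ))
      (Set.domRestrict (Set.Icc (0 : ℝ) 1) (D.arc s(u, v))) 1 = D.arc s(u, v) 1 := by
    rw [Set.IccExtend_right]; rfl
  rcases D.arc_ends u v h with ⟨h2, h3⟩ | ⟨h2, h3⟩
  · exact ⟨_, hc, h0.trans h2, h1.trans h3, hm⟩
  · refine ⟨fun t => Set.IccExtend (zero_le_one (α := ℝ))
      (Set.domRestrict (Set.Icc (0 : ℝ) 1) (D.arc s(u, v))) (1 - t),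
      hc.comp (continuous_const.sub continuous_id), ?_, ?_, fun t => hm _⟩
    · simp only [sub_zero]; exact h1.trans h3
    · simp only [sub_self]; exact h0.trans h2

theorem path_curve {u w v : V} (h : G.Adj w u) (h' : G.Adj w v) : ∃ c : ℝ → ℂ, Continuous c ∧
    c 0 = D.pos u ∧ c 1 = D.pos v ∧ ∀ t, c t ∈ Drc D s(w, u) ∨ c t ∈ Drc D s(w, v) := by
  obtain ⟨c, hc, c0, c1, hcm⟩ := edge_curve D h.symm
  obtain ⟨d, hd, d0, d1, hdm⟩ := edge_curve D h'
  refine ⟨fun t => if t ≤ 1 / 2 then c (2 * t) else d (2 * t - 1), ?_, ?_, ?_, fun t => ?_⟩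
  · refine Continuous.if_le (hc.comp (by fun_prop)) (hd.comp (by fun_prop)) continuous_id
      continuous_const ?_
    rintro x rfl
    norm_num [c1, d0]
  · norm_num [c0]
  · norm_num [d1]
  · simp only
    split_ifs
    · left; rw [Sym2.eq_swap]; exact hcm _
    · right; exact hdm _

theorem mem_Drc {u v : V} (h : G.Adj u v) {z : ℂ} (hz : z ∈ Drc D s(u, v)) :
    z ∈ D.arc s(u, v) '' Set.Ioo 0 1 ∨ z = D.pos u ∨ z = D.pos v := by
  obtain ⟨t, ht, rfl⟩ := hz
  rcases eq_or_lt_of_le ht.1 with h0 | h0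
  · rcases D.arc_ends u v h with ⟨h2, h3⟩ | ⟨h2, h3⟩
    · right; left; rw [← h0, h2]
    · right; right; rw [← h0, h2]
  · rcases eq_or_lt_of_le ht.2 with h1 | h1
    · rcases D.arc_ends u v h with ⟨h2, h3⟩ | ⟨h2, h3⟩
      · right; right; rw [h1, h3]
      · right; left; rw [h1, h3]
    · left; exact ⟨t, ⟨h0, h1⟩, rfl⟩

theorem not_mem_Drc {u v w : V} (h : G.Adj u v) (h1 : w ≠ u) (h2 : w ≠ v) :
    D.pos w ∉ Drc D s(u, v) := by
  intro hz
  rcases mem_Drc D h hz with ⟨t, ht, h3⟩ | h3 | h3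
  · exact D.arc_avoids _ h t ht w h3
  · exact h1 (D.pos_injective h3)
  · exact h2 (D.pos_injective h3)

theorem disj_Drc {a b c d : V} (h : G.Adj a b) (h' : G.Adj c d) (hac : a ≠ c) (had : a ≠ d)
    (hbc : b ≠ c) (hbd : b ≠ d) (hx : ∀ z, (s(s(a, b), s(c, d)), z) ∉ D.crossings) (z : ℂ)
    (hz : z ∈ Drc D s(a, b)) (hz' : z ∈ Drc D s(c, d)) : False := by
  rcases mem_Drc D h hz with h1 | h1 | h1
  · rcases mem_Drc D h' hz' with h2 | h2 | h2
    · refine hx z ⟨s(a, b), h, s(c, d), h', ?_, rfl, h1, h2⟩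
      intro h3
      rcases Sym2.eq_iff.1 h3 with ⟨h4, -⟩ | ⟨h4, -⟩
      · exact hac h4
      · exact had h4
    · rw [h2] at hz
      exact not_mem_Drc D h hac.symm hbc.symm hz
    · rw [h2] at hz
      exact not_mem_Drc D h had.symm hbd.symm hz
  · rw [h1] at hz'
    exact not_mem_Drc D h' hac had hz'
  · rw [h1] at hz'
    exact not_mem_Drc D h' hbc hbd hz'

end general

section necklace

variable {N W M : ℕ} {L : Fin M → Hd N × Hd N}

theorem adj_hd (p : Fin (N + 1)) (b s : Bool) (j : Fin W) :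
    (nk N W M L).Adj (.md p b s j) (.hd p b) := by
  unfold nk
  rw [SimpleGraph.fromRel_adj]
  exact ⟨by simp, Or.inl ⟨rfl, rfl⟩⟩

theorem adj_jn (p : Fin (N + 1)) (b s : Bool) (j : Fin W) :
    (nk N W M L).Adj (.md p b s j) (.jn (J p s)) := by
  unfold nk
  rw [SimpleGraph.fromRel_adj]
  exact ⟨by simp, Or.inl rfl⟩

theorem adj_lt1 (e : Fin M) : (nk N W M L).Adj (.lt e) (.hd (L e).1.1 (L e).1.2) := by
  unfold nk
  rw [SimpleGraph.fromRel_adj]
  exact ⟨by simp, Or.inl (Or.inl rfl)⟩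

theorem adj_lt2 (e : Fin M) : (nk N W M L).Adj (.lt e) (.hd (L e).2.1 (L e).2.2) := by
  unfold nk
  rw [SimpleGraph.fromRel_adj]
  exact ⟨by simp, Or.inl (Or.inr rfl)⟩

/-- the vertices of the thin necklace in the necklace graph -/
def tau : TV N → NV N W M
  | .jn p => .jn p
  | .hd u => .hd u.1 u.2

theorem tau_injective : Function.Injective (tau : TV N → NV N W M) := by
  rintro (p | ⟨p, b⟩) (q | ⟨q, c⟩) h <;> simp_all [tau]

/-- the two edges of a medium path -/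
def medE (W M : ℕ) (p : Fin (N + 1)) (b s : Bool) (j : Fin W) : Set (Sym2 (NV N W M)) :=
  {s(.md p b s j, .hd p b), s(.md p b s j, .jn (J p s))}

/-- the two halves of a light edge -/
def ltE (W : ℕ) (L : Fin M → Hd N × Hd N) (e : Fin M) : Set (Sym2 (NV N W M)) :=
  {s(.lt e, .hd (L e).1.1 (L e).1.2), s(.lt e, .hd (L e).2.1 (L e).2.2)}

variable (D : Drawing (nk N W M L))

theorem assign (hN : 2 ≤ N) (hL : ∀ e, (L e).1.1 ≠ (L e).2.1)
    (κ : Fin (N + 1) × Bool × Bool → Fin W)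
    (hA : ∀ t t' : Fin (N + 1) × Bool × Bool, t ≠ t' →
      ∀ e ∈ medE W M t.1 t.2.1 t.2.2 (κ t), ∀ f ∈ medE W M t'.1 t'.2.1 t'.2.2 (κ t'),
        ∀ z, (s(e, f), z) ∉ D.crossings) :
    ∃ x : Fin (N + 1) → Bool, ∀ e, xor (x (L e).1.1) (L e).1.2 ≠ xor (x (L e).2.1) (L e).2.2 →
      ∃ f ∈ ltE W L e, ∃ t : Fin (N + 1) × Bool × Bool, ∃ g ∈ medE W M t.1 t.2.1 t.2.2 (κ t),
        ∃ z, (s(f, g), z) ∈ D.crossings := by
  classical
  -- the curves
  have hc1 : ∀ t : Fin (N + 1) × Bool × Bool, ∃ c : ℝ → ℂ, Continuous c ∧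
      c 0 = D.pos (.hd t.1 t.2.1) ∧ c 1 = D.pos (.jn (J t.1 t.2.2)) ∧
      ∀ r, ∃ e ∈ medE W M t.1 t.2.1 t.2.2 (κ t), c r ∈ Drc D e := by
    intro t
    obtain ⟨c, h1, h2, h3, h4⟩ := path_curve D (adj_hd (L := L) t.1 t.2.1 t.2.2 (κ t))
      (adj_jn (L := L) t.1 t.2.1 t.2.2 (κ t))
    refine ⟨c, h1, h2, h3, fun r => ?_⟩
    rcases h4 r with h | h
    · exact ⟨_, Or.inl rfl, h⟩
    · exact ⟨_, Or.inr rfl, h⟩
  have hc2 : ∀ e : Fin M, ∃ c : ℝ → ℂ, Continuous c ∧
      c 0 = D.pos (.hd (L e).1.1 (L e).1.2) ∧ c 1 = D.pos (.hd (L e).2.1 (L e).2.2) ∧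
      ∀ r, ∃ f ∈ ltE W L e, c r ∈ Drc D f := by
    intro e
    obtain ⟨c, h1, h2, h3, h4⟩ := path_curve D (adj_lt1 (W := W) (L := L) e)
      (adj_lt2 (W := W) (L := L) e)
    refine ⟨c, h1, h2, h3, fun r => ?_⟩
    rcases h4 r with h | h
    · exact ⟨_, Or.inl rfl, h⟩
    · exact ⟨_, Or.inr rfl, h⟩
  choose γ1 g1c g10 g11 g1m using hc1
  choose γ2 g2c g20 g21 g2m using hc2
  obtain ⟨o, m, ho, hm⟩ := labels (V := TV N) (ι := (Fin (N + 1) × Bool × Bool) ⊕ Fin M)
    (fun v => D.pos (tau v)) (D.pos_injective.comp tau_injective)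
    (fun i => Sum.elim (fun t => .hd (t.1, t.2.1)) (fun e => .hd (L e).1) i)
    (fun i => Sum.elim (fun t => .jn (J t.1 t.2.2)) (fun e => .hd (L e).2) i)
    (fun i => Sum.elim γ1 γ2 i)
    (by rintro (t | e); exacts [g1c t, g2c e])
    (by rintro (t | e); exacts [g10 t, g20 e])
    (by rintro (t | e); exacts [g11 t, g21 e])
    (by
      rintro (t | e) v hv1 hv2 r h
      · simp only [Sum.elim_inl] at hv1 hv2 h
        obtain ⟨f, hf, hz⟩ := g1m t r
        rw [h] at hz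
        have n1 : (tau v : NV N W M) ≠ .hd t.1 t.2.1 := fun h => hv1 (tau_injective (W := W) (M := M) h)
        have n2 : (tau v : NV N W M) ≠ .jn (J t.1 t.2.2) :=
          fun h => hv2 (tau_injective (W := W) (M := M) h)
        have n3 : (tau v : NV N W M) ≠ .md t.1 t.2.1 t.2.2 (κ t) := by
          rcases v with v | v <;> simp [tau]
        rcases hf with rfl | rfl
        · exact not_mem_Drc D (adj_hd _ _ _ _) n3 n1 hz
        · exact not_mem_Drc D (adj_jn _ _ _ _) n3 n2 hz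
      · simp only [Sum.elim_inr] at hv1 hv2 h
        obtain ⟨f, hf, hz⟩ := g2m e r
        rw [h] at hz
        have n1 : (tau v : NV N W M) ≠ .hd (L e).1.1 (L e).1.2 :=
          fun h => hv1 (tau_injective (W := W) (M := M) h)
        have n2 : (tau v : NV N W M) ≠ .hd (L e).2.1 (L e).2.2 :=
          fun h => hv2 (tau_injective (W := W) (M := M) h)
        have n3 : (tau v : NV N W M) ≠ .lt e := by
          rcases v with v | v <;> simp [tau]
        rcases hf with rfl | rfl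
        · exact not_mem_Drc D (adj_lt1 _) n3 n1 hz
        · exact not_mem_Drc D (adj_lt2 _) n3 n2 hz)
  have H : Thin o (fun p b s => m (.inl (p, b, s))) := by
    intro p b s p' b' s' h1 h2
    have h1' : ¬ (p = p' ∧ b = b') := fun h => h1 (Prod.ext h.1 h.2)
    refine hm (.inl (p, b, s)) (.inl (p', b', s')) (by simpa using h1') (by simp) (by simp)
      (by simpa using h2) ?_
    intro r r' hr
    simp only [Sum.elim_inl] at hr
    obtain ⟨e, he, hz⟩ := g1m (p, b, s) r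
    obtain ⟨f, hf, hz'⟩ := g1m (p', b', s') r'
    rw [← hr] at hz'
    have hx := hA (p, b, s) (p', b', s') (fun h => h1' ⟨congrArg Prod.fst h,
      congrArg (fun t => t.2.1) h⟩) e he f hf
    have n1 : (NV.md p b s (κ (p, b, s)) : NV N W M) ≠ .md p' b' s' (κ (p', b', s')) := by
      intro h
      simp only [NV.md.injEq] at h
      exact h1' ⟨h.1, h.2.1⟩
    have n2 : (NV.hd p b : NV N W M) ≠ .hd p' b' := by simpa using h1'
    have n3 : (NV.jn (J p s) : NV N W M) ≠ .jn (J p' s') := by simpa using h2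
    rcases he with rfl | rfl <;> rcases hf with rfl | rfl
    · exact disj_Drc D (adj_hd _ _ _ _) (adj_hd _ _ _ _) n1 (by simp) (by simp) n2 hx _ hz hz'
    · exact disj_Drc D (adj_hd _ _ _ _) (adj_jn _ _ _ _) n1 (by simp) (by simp) (by simp) hx _ hz hz'
    · exact disj_Drc D (adj_jn _ _ _ _) (adj_hd _ _ _ _) n1 (by simp) (by simp) (by simp) hx _ hz hz'
    · exact disj_Drc D (adj_jn _ _ _ _) (adj_jn _ _ _ _) n1 (by simp) (by simp) n3 hx _ hz hz'
  obtain ⟨x, hx⟩ := thin hN L hL ho H (fun e => m (.inr e))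
    (fun e => ¬ ∃ f ∈ ltE W L e, ∃ t : Fin (N + 1) × Bool × Bool,
      ∃ g ∈ medE W M t.1 t.2.1 t.2.2 (κ t), ∃ z, (s(f, g), z) ∈ D.crossings) (by
    intro e he p b s h1 h2
    refine hm (.inl (p, b, s)) (.inr e) (by simpa using h1) (by simpa using h2) (by simp)
      (by simp) ?_
    intro r r' hr
    simp only [Sum.elim_inl, Sum.elim_inr] at hr
    obtain ⟨g, hg, hz⟩ := g1m (p, b, s) r
    obtain ⟨f, hf, hz'⟩ := g2m e r'
    rw [← hr] at hz'
    have hcr : ∀ z, (s(g, f), z) ∉ D.crossings := by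
      intro z hz
      rw [Sym2.eq_swap] at hz
      exact he ⟨f, hf, (p, b, s), g, hg, z, hz⟩
    have n1 : (NV.hd p b : NV N W M) ≠ .hd (L e).1.1 (L e).1.2 := by
      intro h
      simp only [NV.hd.injEq] at h
      exact h1 (Prod.ext h.1 h.2)
    have n2 : (NV.hd p b : NV N W M) ≠ .hd (L e).2.1 (L e).2.2 := by
      intro h
      simp only [NV.hd.injEq] at h
      exact h2 (Prod.ext h.1 h.2)
    rcases hg with rfl | rfl <;> rcases hf with rfl | rfl
    · exact disj_Drc D (adj_hd _ _ _ _) (adj_lt1 _) (by simp) (by simp) (by simp) n1 hcr _ hz hz'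
    · exact disj_Drc D (adj_hd _ _ _ _) (adj_lt2 _) (by simp) (by simp) (by simp) n2 hcr _ hz hz'
    · exact disj_Drc D (adj_jn _ _ _ _) (adj_lt1 _) (by simp) (by simp) (by simp) (by simp) hcr _ hz hz'
    · exact disj_Drc D (adj_jn _ _ _ _) (adj_lt2 _) (by simp) (by simp) (by simp) (by simp) hcr _ hz hz')
  refine ⟨x, fun e he => ?_⟩
  by_contra hcon
  exact he (hx e hcon)

end necklace

end Pool.Agent.TH694.CR
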