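import Pool.Agent.TH694.CR.Red

/-!
# The matrix of the reduction is the adjacency matrix of a necklace graph
-/

set_option autoImplicit false

namespace Pool.Agent.NPC.CR694

open Pool.Agent.NPC Pool.Agent.NPC.H604 Pool.Agent.TH694.CR

/-- the light edges of a list -/
def Lf (N : ℕ) (l : List (HD × HD)) (e : Fin l.length) : Hd N × Hd N :=
  ((Fin.ofNat (N + 1) l[e].1.1, l[e].1.2), (Fin.ofNat (N + 1) l[e].2.1, l[e].2.2))

/-- the descriptor of a vertex -/
def code {N W M : ℕ} : NV N W M → Dsc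
  | .jn p => (0, p, false, false, 0)
  | .hd p b => (1, p, b, false, 0)
  | .md p b s j => (2, p, b, s, j)
  | .lt e => (3, e, false, false, 0)

theorem code_injective {N W M : ℕ} : Function.Injective (code : NV N W M → Dsc) := by
  rintro (p | ⟨p, b⟩ | ⟨p, b, s, j⟩ | e) (p' | ⟨p', b'⟩ | ⟨p', b', s', j'⟩ | e') h <;>
    simp only [code, Prod.mk.injEq, OfNat.ofNat_ne_zero, OfNat.zero_ne_ofNat, zero_ne_one,
      one_ne_zero, OfNat.ofNat_ne_one, OfNat.one_ne_ofNat, Nat.reduceEqDiff, false_and,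
      true_and, and_true, Fin.val_inj] at h
  · rw [h]
  · rw [h.1, h.2]
  · rw [h.1, h.2.1, h.2.2.1, h.2.2.2]
  · rw [h]

theorem mem_bb (b : Bool) : b ∈ bb := by cases b <;> simp [bb]

theorem mem_dscs {N W M : ℕ} (z : Dsc) : z ∈ dscs N W M ↔ ∃ x : NV N W M, code x = z := by
  obtain ⟨z1, z2, z3, z4, z5⟩ := z
  simp only [dscs, List.mem_append, List.mem_map, List.mem_product, List.mem_range, Prod.exists,
    Prod.mk.injEq]
  constructor
  · rintro (⟨p, hp, rfl, rfl, rfl, rfl, rfl⟩ | ⟨p, b, ⟨hp, -⟩, rfl, rfl, rfl, rfl, rfl⟩ |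
      ⟨p, b, s, j, ⟨hp, -, -, hj⟩, rfl, rfl, rfl, rfl, rfl⟩ | ⟨e, he, rfl, rfl, rfl, rfl, rfl⟩)
    · exact ⟨.jn ⟨p, hp⟩, rfl⟩
    · exact ⟨.hd ⟨p, hp⟩ b, rfl⟩
    · exact ⟨.md ⟨p, hp⟩ b s ⟨j, hj⟩, rfl⟩
    · exact ⟨.lt ⟨e, he⟩, rfl⟩
  · rintro ⟨p | ⟨p, b⟩ | ⟨p, b, s, j⟩ | e, h⟩ <;> simp only [code, Prod.mk.injEq] at h
    · exact Or.inl ⟨p, p.2, h⟩
    · exact Or.inr (Or.inl ⟨p, b, ⟨p.2, mem_bb b⟩, h⟩)
    · exact Or.inr (Or.inr (Or.inl ⟨p, b, s, j, ⟨p.2, mem_bb b, mem_bb s, j.2⟩, h⟩))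
    · exact Or.inr (Or.inr (Or.inr ⟨e, e.2, h⟩))

theorem nodup_bb : bb.Nodup := by decide

theorem nodup_dscs (N W M : ℕ) : (dscs N W M).Nodup := by
  have hr : ∀ n, (List.range n).Nodup := fun n => List.nodup_range
  unfold dscs
  rw [List.nodup_append, List.nodup_append, List.nodup_append]
  refine ⟨?_, ⟨?_, ⟨?_, ?_, ?_⟩, ?_⟩, ?_⟩
  · refine List.Nodup.map (fun p q h => ?_) (hr _)
    simpa using h
  · refine List.Nodup.map (fun p q h => ?_) ((hr _).product nodup_bb)
    simp only [Prod.mk.injEq, true_and, and_true] at h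
    exact Prod.ext h.1 h.2
  · refine List.Nodup.map (fun p q h => ?_)
      ((hr _).product (nodup_bb.product (nodup_bb.product (hr _))))
    simp only [Prod.mk.injEq, true_and] at h
    exact Prod.ext h.1 (Prod.ext h.2.1 (Prod.ext h.2.2.1 h.2.2.2))
  · refine List.Nodup.map (fun p q h => ?_) (hr _)
    simpa using h
  · intro a ha b hb hab
    subst hab
    simp only [List.mem_map] at ha hb
    obtain ⟨p, -, hp⟩ := ha
    obtain ⟨q, -, hq⟩ := hb
    rw [← hp] at hq
    simp at hq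
  · intro a ha b hb hab
    subst hab
    simp only [List.mem_map, List.mem_append] at ha hb
    obtain ⟨p, -, hp⟩ := ha
    rcases hb with ⟨q, -, hq⟩ | ⟨q, -, hq⟩ <;>
    · rw [← hp] at hq
      simp at hq
  · intro a ha b hb hab
    subst hab
    simp only [List.mem_map, List.mem_append] at ha hb
    obtain ⟨p, -, hp⟩ := ha
    rcases hb with ⟨q, -, hq⟩ | ⟨q, -, hq⟩ | ⟨q, -, hq⟩ <;>
    · rw [← hp] at hq
      simp at hq

theorem J_eq {N : ℕ} (p p' : Fin (N + 1)) (s : Bool) :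
    (p' : ℕ) = (if s = true then (if (p : ℕ) = N then 0 else (p : ℕ) + 1) else (p : ℕ)) ↔
      p' = if s then p + 1 else p := by
  cases s
  · simp [Fin.val_inj]
  · simp only [if_true]
    split_ifs with h
    · have h0 : p = Fin.last N := Fin.ext h
      subst h0
      rw [Fin.last_add_one, Fin.ext_iff]
      rfl
    · have h1 : ((p + 1 : Fin (N + 1)) : ℕ) = p + 1 := by
        have := p.2
        rcases Nat.eq_zero_or_pos N with h0 | h0
        · omega
        · rw [Fin.val_add, Fin.val_one', Nat.mod_eq_of_lt (show 1 < N + 1 by omega),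
            Nat.mod_eq_of_lt (by omega)]
      rw [← h1, Fin.val_inj]

theorem relD_code {N W : ℕ} (l : List (HD × HD)) (hl : ∀ h ∈ l, h.1.1 < N ∧ h.2.1 < N)
    (x y : NV N W l.length) : relD N l (code x) (code y) = true ↔ rel (Lf N l) x y := by
  rcases x with p | ⟨p, b⟩ | ⟨p, b, s, j⟩ | e <;>
    rcases y with p' | ⟨p', b'⟩ | ⟨p', b', s', j'⟩ | e' <;>
    simp only [relD, code, rel, OfNat.ofNat_ne_zero, OfNat.zero_ne_ofNat, zero_ne_one,
      one_ne_zero, OfNat.ofNat_ne_one, OfNat.one_ne_ofNat, Nat.reduceEqDiff, false_and,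
      and_false, true_and, and_true, decide_false, Bool.or_false, Bool.false_or,
      Bool.false_eq_true, decide_eq_true_eq, Fin.val_inj]
  · exact J_eq p p' s
  · have h1 := hl l[e] (List.getElem_mem e.2)
    rw [List.getD_eq_getElem _ _ e.2]
    unfold Lf
    simp only [Fin.ext_iff, Fin.val_ofNat, Prod.ext_iff,
      Nat.mod_eq_of_lt (show l[e].1.1 < N + 1 by omega),
      Nat.mod_eq_of_lt (show l[e].2.1 < N + 1 by omega)]
    rfl

open Classical in
/-- the reduced instance comes from the necklace graph -/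
theorem exists_gadget (k' q : ℕ) (cs : List Con)
    (hl : ∀ h ∈ eds k' q cs, h.1.1 < nN k' cs ∧ h.2.1 < nN k' cs) :
    ∃ (n : ℕ) (e : Fin n ≃ NV (nN k' cs) (q * (eds k' q cs).length) (eds k' q cs).length),
      matC k' q cs = adjMat ((nk (nN k' cs) (q * (eds k' q cs).length) (eds k' q cs).length
        (Lf (nN k' cs) (eds k' q cs))).comap e) := by
  obtain ⟨e, he⟩ := R671.exists_equiv (dl' k' q cs) (nodup_dscs _ _ _)
    (code : NV (nN k' cs) (q * (eds k' q cs).length) (eds k' q cs).length → Dsc)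
    code_injective (fun z => mem_dscs z)
  refine ⟨(dl' k' q cs).length, e, ?_⟩
  simp only [matC, adjMat]
  apply List.ext_getElem
  · simp
  · intro i h1 h2
    simp only [List.getElem_map, List.getElem_ofFn]
    apply List.ext_getElem
    · simp
    · intro j h3 h4
      simp only [List.getElem_map, List.getElem_ofFn]
      have hi : i < (dl' k' q cs).length := by simpa using h1
      have hj : j < (dl' k' q cs).length := by simpa using h3
      have e1 : (dl' k' q cs)[i] = code (e ⟨i, hi⟩) := (he ⟨i, hi⟩).symm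
      have e2 : (dl' k' q cs)[j] = code (e ⟨j, hj⟩) := (he ⟨j, hj⟩).symm
      have e3 : (relD (nN k' cs) (eds k' q cs) (dl' k' q cs)[i] (dl' k' q cs)[j] ||
          relD (nN k' cs) (eds k' q cs) (dl' k' q cs)[j] (dl' k' q cs)[i]) =
          (relD (nN k' cs) (eds k' q cs) (code (e ⟨i, hi⟩)) (code (e ⟨j, hj⟩)) ||
          relD (nN k' cs) (eds k' q cs) (code (e ⟨j, hj⟩)) (code (e ⟨i, hi⟩))) := by rw [e1, e2]
      rw [e3, Bool.eq_iff_iff, Bool.or_eq_true, relD_code _ hl, relD_code _ hl,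
        decide_eq_true_iff, SimpleGraph.comap_adj]
      unfold nk
      rw [SimpleGraph.fromRel_adj]
      constructor
      · intro h
        refine ⟨?_, h⟩
        intro heq
        rw [heq, or_self] at h
        revert h
        rcases e ⟨j, hj⟩ with p | ⟨p, b⟩ | ⟨p, b, s, j⟩ | e <;> simp [rel]
      · intro h
        exact h.2

end Pool.Agent.NPC.CR694
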