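import Pool.Agent.TH694.CR.Defs
import Pool.Agent.TH639.J31

/-!
# The crossing number is attained and invariant
-/

set_option autoImplicit false

namespace Pool.Agent.TH694.CR

open Pool.Agent.Helper770.Crossing Pool.Agent.Helper770.Straight

/-- every finite graph has a drawing as in the definition of the crossing number -/
theorem exists_noTriple {V : Type*} [Finite V] (G : SimpleGraph V) :
    ∃ D : Drawing G, NoTriple D ∧ D.crossings.Finite := by
  classical
  have := Fintype.ofFinite V
  obtain ⟨D, h1, h2, -⟩ := Pool.Agent.TH639.J31.perturb G (fun _ => 0) Finset.univ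
    (fun a b c d _ _ _ _ _ _ h => absurd (Finset.mem_univ _) h)
  exact ⟨D, h1, h2⟩

/-- the crossing number is attained -/
theorem cr_attained {V : Type*} [Finite V] (G : SimpleGraph V) :
    ∃ D : Drawing G, NoTriple D ∧ D.crossings.Finite ∧ D.crossings.ncard = cr G := by
  obtain ⟨D, h1, h2⟩ := exists_noTriple G
  exact Nat.sInf_mem
    (s := {n | ∃ D : Drawing G, NoTriple D ∧ D.crossings.Finite ∧ D.crossings.ncard = n})
    ⟨_, D, h1, h2, rfl⟩

theorem cr_comap_le {V W : Type*} [Finite V] (G : SimpleGraph V) (f : W ↪ V) :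
    cr (G.comap f) ≤ cr G := by
  obtain ⟨D, hT, hD, hc⟩ := cr_attained G
  have hinj : Function.Injective (fun x : Sym2 (Sym2 W) × ℂ =>
      ((x.1.map (fun e : Sym2 W => e.map f), x.2) : Sym2 (Sym2 V) × ℂ)) := by
    rintro ⟨x, z⟩ ⟨y, z'⟩ hxy
    simp only [Prod.mk.injEq] at hxy
    have := Sym2.map.injective (Sym2.map.injective f.injective) hxy.1
    rw [this, hxy.2]
  have hsub : (fun x : Sym2 (Sym2 W) × ℂ =>
      ((x.1.map (fun e : Sym2 W => e.map f), x.2) : Sym2 (Sym2 V) × ℂ)) '' (pull D f).crossings ⊆
      D.crossings := by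
    rintro _ ⟨x, ⟨e, he, f', hf', hef, hx, h1, h2⟩, rfl⟩
    refine ⟨e.map f, comap_mem f he, f'.map f, comap_mem f hf', fun hh =>
      hef (Sym2.map.injective f.injective hh), ?_, h1, h2⟩
    simp only
    rw [hx, Sym2.map_mk]
  have hfin : (pull D f).crossings.Finite :=
    Set.Finite.of_finite_image (hD.subset hsub) hinj.injOn
  have hNT : NoTriple (pull D f) := by
    intro e he g hg h hh heg heh hgh z hz
    exact hT (e.map f) (comap_mem f he) (g.map f) (comap_mem f hg) (h.map f) (comap_mem f hh)
      (fun h' => heg (Sym2.map.injective f.injective h'))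
      (fun h' => heh (Sym2.map.injective f.injective h'))
      (fun h' => hgh (Sym2.map.injective f.injective h')) z hz
  have h1 : cr (G.comap f) ≤ (pull D f).crossings.ncard := Nat.sInf_le ⟨_, hNT, hfin, rfl⟩
  refine h1.trans ?_
  rw [← hc, ← Set.ncard_image_of_injective _ hinj]
  exact Set.ncard_le_ncard hsub hD

theorem cr_comap_equiv {V W : Type*} [Finite V] [Finite W] (G : SimpleGraph V) (e : W ≃ V) :
    cr (G.comap e) = cr G := by
  apply le_antisymm
  · exact cr_comap_le G e.toEmbedding
  · have h : G = (G.comap e).comap e.symm := by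
      ext x y
      simp
    calc cr G = cr ((G.comap e).comap e.symm) := by rw [← h]
      _ ≤ cr (G.comap e) := cr_comap_le (G.comap e) e.symm.toEmbedding

end Pool.Agent.TH694.CR
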