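import Pool.Agent.TH694.CR.UG

/-!
# Completeness and soundness of the reduction from unique games
-/

set_option autoImplicit false

namespace Pool.Agent.TH694.CR

open Finset Pool.Agent.NPC Pool.Agent.NPC.H604 Pool.Agent.H562R2

/-- the representative of a class -/
noncomputable def rep (k' ξ : ℕ) : Fin (k' + 1) → Bool :=
  Fin.cons false (if h : ξ < 2 ^ k' then (en k').symm ⟨ξ, h⟩ else fun _ => false)

theorem rep_hcode {k' : ℕ} (x : Fin (k' + 1) → Bool) (l : Fin (k' + 1)) :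
    xor (rep k' (hcode x).1 l) (hcode x).2 = x l := by
  have h1 : rep k' (hcode x).1 = Fin.cons false (fun i => xor (x i.succ) (x 0)) := by
    unfold rep
    rw [dif_pos (hcode_lt x)]
    congr 1
    exact (en k').symm_apply_apply _
  rw [h1]
  have h2 : (hcode x).2 = x 0 := rfl
  rw [h2]
  refine Fin.cases ?_ (fun i => ?_) l
  · rw [Fin.cons_zero]; cases x 0 <;> rfl
  · rw [Fin.cons_succ]
    cases x i.succ <;> cases x 0 <;> rfl

/-- the assignment of the pieces given by labels -/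
noncomputable def sol (k' : ℕ) (cs : List Con) (a b : ℕ → Fin (k' + 1)) (p : ℕ) : Bool :=
  rep k' (p % 2 ^ k') (if p / 2 ^ k' < cs.length then a (gL (cc cs (p / 2 ^ k')))
    else b (gR (cc cs (p / 2 ^ k' - cs.length))))

theorem Fl_sol {k' : ℕ} {cs : List Con} (a b : ℕ → Fin (k' + 1)) (i : Fin cs.length) :
    Fl k' cs (sol k' cs a b) cs[i].1.1 = fun x => x (a cs[i].1.1) := by
  funext x
  have hne : cs ≠ [] := by
    rintro rfl; exact i.elim0
  have h1 : (pcL k' cs cs[i].1.1 (hcode x).1) % 2 ^ k' = (hcode x).1 := by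
    unfold pcL
    rw [Nat.add_comm, Nat.add_mul_mod_self_right, Nat.mod_eq_of_lt (hcode_lt x)]
  have h2 : (pcL k' cs cs[i].1.1 (hcode x).1) / 2 ^ k' = fstI gL cs cs[i].1.1 := by
    unfold pcL
    rw [Nat.add_comm, Nat.add_mul_div_right _ _ (by positivity),
      Nat.div_eq_of_lt (hcode_lt x), Nat.zero_add]
  have h3 := g_fstI gL (cs := cs) (u := cs[i].1.1) (i := i) i.2 (by simp [gL, cc_fin])
  unfold Fl sol
  rw [h1, h2, if_pos (fstI_lt gL hne _), h3]
  exact rep_hcode x _

theorem Fr_sol {k' : ℕ} {cs : List Con} (a b : ℕ → Fin (k' + 1)) (i : Fin cs.length) :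
    Fr k' cs (sol k' cs a b) cs[i].1.2 = fun x => x (b cs[i].1.2) := by
  funext x
  have h1 : (pcR k' cs cs[i].1.2 (hcode x).1) % 2 ^ k' = (hcode x).1 := by
    unfold pcR
    rw [Nat.add_comm, Nat.add_mul_mod_self_right, Nat.mod_eq_of_lt (hcode_lt x)]
  have h2 : (pcR k' cs cs[i].1.2 (hcode x).1) / 2 ^ k' = cs.length + fstI gR cs cs[i].1.2 := by
    unfold pcR
    rw [Nat.add_comm, Nat.add_mul_div_right _ _ (by positivity),
      Nat.div_eq_of_lt (hcode_lt x), Nat.zero_add]
  have h3 := g_fstI gR (cs := cs) (u := cs[i].1.2) (i := i) i.2 (by simp [gR, cc_fin])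
  unfold Fr sol
  rw [h1, h2, if_neg (by omega), Nat.add_sub_cancel_left, h3]
  exact rep_hcode x _

section

variable {k' q : ℕ} {cs : List Con}

/-- **Completeness.** -/
theorem complete (hU : ∀ c ∈ cs, IsUnique (k' + 1) c) (hq : 1 ≤ q) (a b : ℕ → Fin (k' + 1))
    (hab : q * cs.length ≤ q * numSat a b cs + cs.length) :
    ∃ σ : ℕ → Bool, q * (eds k' q cs).countP (vl σ) ≤ 2 * (eds k' q cs).length := by
  classical
  refine ⟨sol k' cs a b, ?_⟩
  rw [count_eds hU, length_eds hU, mul_sum]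
  set Nt := 2 ^ (k' + 1) * q ^ (k' + 1) with hNt
  have h1 : ∀ i : Fin cs.length, q * viol (prm hU i) q (Fl k' cs (sol k' cs a b) cs[i].1.1)
      (Fr k' cs (sol k' cs a b) cs[i].1.2) ≤ Nt +
      (if ((a cs[i].1.1 : ℕ), (b cs[i].1.2 : ℕ)) ∈ cs[i].2 then 0 else q * Nt) := by
    intro i
    rw [Fl_sol, Fr_sol]
    split_ifs with h
    · rw [prm_spec hU] at h
      rw [← h, viol_dict hq, add_zero]
    · exact (Nat.mul_le_mul_left q (viol_le _ _ _)).trans (Nat.le_add_left _ _)
  refine (sum_le_sum fun i _ => h1 i).trans ?_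
  rw [sum_add_distrib, sum_const, card_univ, Fintype.card_fin, smul_eq_mul]
  have h2 : ∑ i : Fin cs.length,
      (if ((a cs[i].1.1 : ℕ), (b cs[i].1.2 : ℕ)) ∈ cs[i].2 then 0 else q * Nt) =
      (univ.filter fun i : Fin cs.length =>
        ¬ ((a cs[i].1.1 : ℕ), (b cs[i].1.2 : ℕ)) ∈ cs[i].2).card * (q * Nt) := by
    rw [sum_ite, sum_const_zero, zero_add, sum_const, smul_eq_mul]
  have h3 : numSat a b cs + (univ.filter fun i : Fin cs.length =>
        ¬ ((a cs[i].1.1 : ℕ), (b cs[i].1.2 : ℕ)) ∈ cs[i].2).card = cs.length := by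
    unfold numSat
    rw [card_filter_add_card_filter_not, card_univ, Fintype.card_fin]
  rw [h2]
  set u := (univ.filter fun i : Fin cs.length =>
        ¬ ((a cs[i].1.1 : ℕ), (b cs[i].1.2 : ℕ)) ∈ cs[i].2).card
  have h4 : q * u ≤ cs.length := by
    have : q * numSat a b cs + q * u = q * cs.length := by rw [← mul_add, h3]
    omega
  calc cs.length * Nt + u * (q * Nt) = cs.length * Nt + (q * u) * Nt := by ring
    _ ≤ cs.length * Nt + cs.length * Nt := Nat.add_le_add_left (Nat.mul_le_mul_right _ h4) _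
    _ = 2 * (cs.length * Nt) := by ring

/-- enumeration of a small set of labels -/
theorem exists_enum (R0 : ℕ) (s : Finset (Fin (k' + 1))) (hs : s.card ≤ R0) :
    ∃ f : Fin R0 → Fin (k' + 1), ∀ l ∈ s, ∃ r, f r = l := by
  refine ⟨fun r => s.toList.getD r 0, fun l hl => ?_⟩
  rw [← mem_toList] at hl
  obtain ⟨i, hi, h⟩ := List.getElem_of_mem hl
  have hi' : i < R0 := by
    rw [length_toList] at hi
    omega
  refine ⟨⟨i, hi'⟩, ?_⟩
  simp only
  rw [List.getD_eq_getElem _ _ hi, h]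

theorem Fl_odd (σ : ℕ → Bool) (u : ℕ) (x : Fin (k' + 1) → Bool) :
    Fl k' cs σ u (fun i => !(x i)) = !(Fl k' cs σ u x) := by
  unfold Fl
  rw [hcode_not]
  have h2 : (hcode x).2 = x 0 := rfl
  rw [h2]
  simp only
  generalize σ (pcL k' cs u (hcode x).1) = c
  cases c <;> cases x 0 <;> rfl

/-- **Soundness.** -/
theorem sound (hU : ∀ c ∈ cs, IsUnique (k' + 1) c) (K : ℕ) (hK : 1 ≤ K) (hq : 10 ^ 7 * K ^ 2 ≤ q)
    (hne : cs ≠ []) (σ : ℕ → Bool)
    (h : q * (eds k' q cs).countP (vl σ) < K * (eds k' q cs).length) :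
    ∃ a b : ℕ → Fin (k' + 1), cs.length ≤ 2 * (q * thr q K) ^ 2 * numSat a b cs := by
  classical
  have hq0 : 1 ≤ q := by
    have : 1 ≤ K ^ 2 := Nat.one_le_pow _ _ (by omega)
    omega
  rw [count_eds hU, length_eds hU, mul_sum] at h
  set Nt := 2 ^ (k' + 1) * q ^ (k' + 1) with hNt
  have hNt0 : 0 < Nt := by positivity
  set R0 := q * thr q K with hR0
  have hm : 0 < cs.length := List.length_pos_iff.2 hne
  set vv : Fin cs.length → ℕ := fun i =>
    viol (prm hU i) q (Fl k' cs σ cs[i].1.1) (Fr k' cs σ cs[i].1.2) with hvv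
  -- good constraints
  set G := univ.filter fun i : Fin cs.length => q * vv i ≤ 2 * K * Nt with hG
  have hG2 : cs.length ≤ 2 * G.card := by
    have h1 : G.card + (univ.filter fun i : Fin cs.length => ¬ q * vv i ≤ 2 * K * Nt).card =
        cs.length := by
      rw [hG, card_filter_add_card_filter_not, card_univ, Fintype.card_fin]
    have h2 : (univ.filter fun i : Fin cs.length => ¬ q * vv i ≤ 2 * K * Nt).card *
        (2 * K * Nt) ≤ ∑ i : Fin cs.length, q * vv i := by
      rw [← smul_eq_mul, ← sum_const]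
      refine (sum_le_sum fun i hi => ?_).trans (sum_le_sum_of_subset (filter_subset _ _))
      have := (mem_filter.1 hi).2
      omega
    have h3 : (univ.filter fun i : Fin cs.length => ¬ q * vv i ≤ 2 * K * Nt).card *
        2 * (K * Nt) < cs.length * (K * Nt) := by
      calc (univ.filter fun i : Fin cs.length => ¬ q * vv i ≤ 2 * K * Nt).card * 2 * (K * Nt)
          = (univ.filter fun i : Fin cs.length => ¬ q * vv i ≤ 2 * K * Nt).card *
            (2 * K * Nt) := by ring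
        _ ≤ ∑ i : Fin cs.length, q * vv i := h2
        _ < K * (cs.length * Nt) := h
        _ = cs.length * (K * Nt) := by ring
    have h4 := lt_of_mul_lt_mul_right h3 (Nat.zero_le _)
    omega
  -- labels
  have hl : ∀ i ∈ G, ∃ l, l ∈ lst q K (Fl k' cs σ cs[i].1.1) ∧
      prm hU i l ∈ lst q K (Fr k' cs σ cs[i].1.2) := by
    intro i hi
    refine exists_label K hK hq (prm hU i) _ _ (fun x => Fl_odd σ _ x) ?_
    have h1 := (mem_filter.1 hi).2
    have h2 : ((q * vv i : ℕ) : ℝ) ≤ ((2 * K * Nt : ℕ) : ℝ) := by exact_mod_cast h1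
    rw [hNt] at h2
    push_cast at h2
    exact h2
  have he1 : ∀ u : ℕ, ∃ f : Fin R0 → Fin (k' + 1), ∀ l ∈ lst q K (Fl k' cs σ u), ∃ r, f r = l :=
    fun u => exists_enum R0 _ (card_lst K hK hq0 _)
  have he2 : ∀ u : ℕ, ∃ f : Fin R0 → Fin (k' + 1), ∀ l ∈ lst q K (Fr k' cs σ u), ∃ r, f r = l :=
    fun u => exists_enum R0 _ (card_lst K hK hq0 _)
  choose f1 hf1 using he1
  choose f2 hf2 using he2
  by_contra hcon
  push Not at hcon
  -- double counting
  have h5 : G.card ≤ ∑ r : Fin R0 × Fin R0, numSat (fun u => f1 u r.1) (fun u => f2 u r.2) cs := by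
    have h6 : ∑ r : Fin R0 × Fin R0, numSat (fun u => f1 u r.1) (fun u => f2 u r.2) cs =
        ∑ i : Fin cs.length, (univ.filter fun r : Fin R0 × Fin R0 =>
          ((f1 cs[i].1.1 r.1 : ℕ), (f2 cs[i].1.2 r.2 : ℕ)) ∈ cs[i].2).card := by
      unfold numSat
      simp only [card_filter]
      exact sum_comm
    rw [h6, card_eq_sum_ones]
    refine (sum_le_sum fun i hi => ?_).trans (sum_le_sum_of_subset (subset_univ G))
    obtain ⟨l, h7, h8⟩ := hl i hi
    obtain ⟨r1, hr1⟩ := hf1 _ l h7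
    obtain ⟨r2, hr2⟩ := hf2 _ _ h8
    refine card_pos.2 ⟨(r1, r2), ?_⟩
    rw [mem_filter]
    refine ⟨mem_univ _, ?_⟩
    rw [prm_spec hU, hr1, hr2]
  rcases Nat.eq_zero_or_pos R0 with h0 | h0
  · have : IsEmpty (Fin R0 × Fin R0) := by rw [h0]; infer_instance
    rw [univ_eq_empty, sum_empty] at h5
    omega
  · have h9 : ∑ r : Fin R0 × Fin R0,
        2 * R0 ^ 2 * numSat (fun u => f1 u r.1) (fun u => f2 u r.2) cs <
        ∑ r : Fin R0 × Fin R0, cs.length := by
      refine sum_lt_sum_of_nonempty ⟨(⟨0, h0⟩, ⟨0, h0⟩), mem_univ _⟩ fun r _ => ?_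
      exact hcon _ _
    rw [← mul_sum, sum_const, card_univ, Fintype.card_prod, Fintype.card_fin, smul_eq_mul] at h9
    have h10 : 2 * R0 ^ 2 * G.card < R0 * R0 * cs.length :=
      lt_of_le_of_lt (Nat.mul_le_mul_left _ h5) h9
    have h11 : R0 * R0 * cs.length ≤ R0 * R0 * (2 * G.card) := Nat.mul_le_mul_left _ hG2
    nlinarith

end

end Pool.Agent.TH694.CR
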