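import Pool.Agent.TH694.CR.Geo
import Pool.Agent.TH639.J31

/-!
# The upper bound
-/

set_option autoImplicit false

namespace Pool.Agent.TH694.CR

open Finset Pool.Agent.Helper770.Crossing

variable {N W M : ℕ} (L : Fin M → Hd N × Hd N) (x : Fin (N + 1) → Bool)

/-- the handle of a half of a light edge -/
def hdl (e : Fin M) (i : Bool) : Hd N := if i then (L e).2 else (L e).1

/-- an edge is a medium edge or a half of a light edge -/
theorem adj_cases {u v : NV N W M} (h : (nk N W M L).Adj u v) :
    ∃ o e : NV N W M, ((u = o ∧ v = e) ∨ (u = e ∧ v = o)) ∧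
      ((∃ p b s k j, o = .md p b s j ∧ e = oth W M p b s k) ∨
        ∃ t i, o = .lt t ∧ e = .hd (hdl L t i).1 (hdl L t i).2) := by
  have key : ∀ o e : NV N W M, rel L o e →
      ((∃ p b s k j, o = .md p b s j ∧ e = oth W M p b s k) ∨
        ∃ t i, o = .lt t ∧ e = .hd (hdl L t i).1 (hdl L t i).2) := by
    intro o e h
    rcases o with p | ⟨p, b⟩ | ⟨p, b, s, j⟩ | t
    · exact h.elim
    · exact h.elim
    · rcases e with p' | ⟨p', b'⟩ | ⟨p', b', s', j'⟩ | t'
      · left
        refine ⟨p, b, s, false, j, rfl, ?_⟩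
        have h' : p' = J p s := h
        simp [oth, h']
      · left
        obtain ⟨rfl, rfl⟩ := h
        exact ⟨p, b, s, true, j, rfl, by simp [oth]⟩
      · exact h.elim
      · exact h.elim
    · rcases e with p' | ⟨p', b'⟩ | ⟨p', b', s', j'⟩ | t'
      · exact h.elim
      · right
        rcases h with h | h
        · exact ⟨t, false, rfl, by simp [hdl, h]⟩
        · exact ⟨t, true, rfl, by simp [hdl, h]⟩
      · exact h.elim
      · exact h.elim
  unfold nk at h
  rw [SimpleGraph.fromRel_adj] at h
  rcases h.2 with h | h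
  · exact ⟨u, v, Or.inl ⟨rfl, rfl⟩, key u v h⟩
  · exact ⟨v, u, Or.inr ⟨rfl, rfl⟩, key v u h⟩

/-- a half of a light edge -/
def lh (W : ℕ) (t : Fin M × Bool) : Sym2 (NV N W M) :=
  s(.lt t.1, .hd (hdl L t.1 t.2).1 (hdl L t.1 t.2).2)

/-- the lower handle of a violated light edge -/
def low (e : Fin M) : Hd N := if xor (x (L e).1.1) (L e).1.2 then (L e).2 else (L e).1

/-- the violated light edges -/
def vio : Finset (Fin M) :=
  univ.filter fun e => xor (x (L e).1.1) (L e).1.2 ≠ xor (x (L e).2.1) (L e).2.2

/-- the pairs of light edges -/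
def S1 (W : ℕ) : Finset (Sym2 (Sym2 (NV N W M))) :=
  (univ : Finset ((Fin M × Bool) × (Fin M × Bool))).image fun y => s(lh L W y.1, lh L W y.2)

/-- the pairs of a violated edge and the upper side of its lower piece -/
def S2 (W : ℕ) : Finset (Sym2 (Sym2 (NV N W M))) :=
  (vio L x ×ˢ (univ : Finset (Bool × Bool × Fin W))).image fun y =>
    s(s(.lt y.1, .hd (low L x y.1).1 (low L x y.1).2),
      s(.md (low L x y.1).1 (!(low L x y.1).2) y.2.1 y.2.2.2,
        oth W M (low L x y.1).1 (!(low L x y.1).2) y.2.1 y.2.2.1))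

theorem card_S : (S1 L W ∪ S2 L x W).card ≤ 4 * M ^ 2 + 4 * W * bad L x := by
  refine (card_union_le _ _).trans (Nat.add_le_add ?_ ?_)
  · refine card_image_le.trans (le_of_eq ?_)
    rw [card_univ, Fintype.card_prod, Fintype.card_prod, Fintype.card_fin, Fintype.card_bool]
    ring
  · refine card_image_le.trans (le_of_eq ?_)
    rw [card_product, card_univ, Fintype.card_prod, Fintype.card_prod, Fintype.card_fin,
      Fintype.card_bool]
    have : (vio L x).card = bad L x := rfl
    rw [this]
    ring

/-- the separation of all pairs of edges outside `S1`, `S2` -/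
theorem sep_all (hN1 : 1 ≤ N) (hlast : ∀ e i, ((hdl L e i).1 : ℕ) < N) (a b c d : NV N W M)
    (hab : (nk N W M L).Adj a b) (hcd : (nk N W M L).Adj c d) (hac : a ≠ c) (had : a ≠ d)
    (hbc : b ≠ c) (hbd : b ≠ d) (hS : s(s(a, b), s(c, d)) ∉ S1 L W ∪ S2 L x W) :
    Sepr (Q L x a) (Q L x b) (Q L x c) (Q L x d) := by
  classical
  -- a light edge against a medium edge
  have key : ∀ (t : Fin M) (i : Bool) (p : Fin (N + 1)) (b s k : Bool) (j : Fin W),
      oth W M p b s k ≠ .hd (hdl L t i).1 (hdl L t i).2 →
      s(lh L W (t, i), s(.md p b s j, oth W M p b s k)) ∉ S1 L W ∪ S2 L x W →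
      Sepr (Q L x (.lt t : NV N W M)) (Q L x (.hd (hdl L t i).1 (hdl L t i).2 : NV N W M))
        (Q L x (.md p b s j : NV N W M)) (Q L x (oth W M p b s k)) := by
    intro t i p b s k j ho hS
    have hq := hlast t i
    have hp : (p : ℕ) < N ∨ (p : ℕ) = N := by have := p.2; omega
    rcases hp with hp | hp
    · by_cases hpq : p = (hdl L t i).1
      · subst hpq
        refine (sep_lt_same L x hq b s k j _ t ho fun hb => ?_).symm
        by_contra hcon
        apply hS
        refine mem_union_right _ (mem_image.2 ⟨(t, (s, k, j)), ?_, ?_⟩)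
        · refine mem_product.2 ⟨?_, mem_univ _⟩
          unfold vio
          rw [mem_filter]
          refine ⟨mem_univ _, ?_⟩
          cases i
          · simp only [hdl, Bool.false_eq_true, if_false] at hcon
            intro h
            apply hcon
            rw [← h, Bool.or_self]
          · simp only [hdl, if_true] at hcon
            intro h
            apply hcon
            rw [h, Bool.or_self]
        · have hlow : low L x t = hdl L t i := by
            unfold low
            cases i
            · simp only [hdl, Bool.false_eq_true, if_false] at hcon ⊢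
              rw [if_neg]
              intro h
              apply hcon
              rw [h, Bool.true_or]
            · simp only [hdl, if_true] at hcon ⊢
              rw [if_pos]
              by_contra h
              apply hcon
              rw [Bool.not_eq_true] at h
              rw [h, Bool.false_or]
          have hb' : b = !(hdl L t i).2 := by
            revert hb
            cases b <;> cases (hdl L t i).2 <;> simp
          simp only [hlow, lh]
          rw [hb']
      · exact (sep_lt_other L x hp hq hpq b s k j _ t).symm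
    · exact sep_lt_close L x hp hq b s k j _ t
  obtain ⟨o1, e1, h1, k1⟩ := adj_cases L hab
  obtain ⟨o2, e2, h2, k2⟩ := adj_cases L hcd
  have main : o1 ≠ o2 → e1 ≠ e2 → s(s(o1, e1), s(o2, e2)) ∉ S1 L W ∪ S2 L x W →
      Sepr (Q L x o1) (Q L x e1) (Q L x o2) (Q L x e2) := by
    intro ho he hS
    rcases k1 with ⟨p, b, s, k, j, rfl, rfl⟩ | ⟨t, i, rfl, rfl⟩
    · rcases k2 with ⟨p', b', s', k', j', rfl, rfl⟩ | ⟨t', i', rfl, rfl⟩
      · exact sep_med L x hN1 b s k b' s' k' j j' ho he
      · refine (key t' i' p b s k j he ?_).symm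
        rw [Sym2.eq_swap]
        exact hS
    · rcases k2 with ⟨p', b', s', k', j', rfl, rfl⟩ | ⟨t', i', rfl, rfl⟩
      · exact key t i p' b' s' k' j' he.symm hS
      · exfalso
        apply hS
        exact mem_union_left _ (mem_image.2 ⟨((t, i), (t', i')), mem_univ _, rfl⟩)
  rcases h1 with ⟨rfl, rfl⟩ | ⟨rfl, rfl⟩ <;> rcases h2 with ⟨rfl, rfl⟩ | ⟨rfl, rfl⟩
  · exact main hac hbd hS
  · refine (main had hbc ?_).swapr
    rw [Sym2.eq_swap (a := d) (b := c)]
    exact hS
  · refine (main hbc had ?_).swapl
    rw [Sym2.eq_swap (a := b) (b := a)]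
    exact hS
  · refine (main hbd hac ?_).swapl.swapr
    rw [Sym2.eq_swap (a := b) (b := a), Sym2.eq_swap (a := d) (b := c)]
    exact hS

/-- **Upper bound**: an assignment gives a drawing. -/
theorem upper (hN1 : 1 ≤ N) (hlast : ∀ e, ((L e).1.1 : ℕ) < N ∧ ((L e).2.1 : ℕ) < N) :
    cr (nk N W M L) ≤ 4 * M ^ 2 + 4 * W * bad L x := by
  have hl : ∀ e i, ((hdl L e i).1 : ℕ) < N := by
    intro e i
    cases i
    · exact (hlast e).1
    · exact (hlast e).2
  obtain ⟨D, h1, h2, h3⟩ := Pool.Agent.TH639.J31.perturb (nk N W M L) (Q L x)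
    (S1 L W ∪ S2 L x W) (fun a b c d h1 h2 h3 h4 h5 h6 h7 =>
      sep_all L x hN1 hl a b c d h1 h2 h3 h4 h5 h6 h7)
  have h4 : cr (nk N W M L) ≤ D.crossings.ncard := Nat.sInf_le ⟨D, h1, h2, rfl⟩
  exact h4.trans (h3.trans (card_S L x))

end Pool.Agent.TH694.CR
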