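import Pool.Agent.TH694.CR.Gad
import Pool.Agent.TH694.CR.Iso
import Pool.Agent.TH694.CR.UG2
import Pool.Agent.TH694.CR.Avg
import Pool.Agent.TH694.CR.Upper

/-!
# The gap of the crossing numbers
-/

set_option autoImplicit false

namespace Pool.Agent.NPC.CR694

open Finset Pool.Agent.NPC Pool.Agent.NPC.H604 Pool.Agent.TH694.CR
open Pool.Agent.Helper770.Crossing

/-- where the light edges are -/
theorem eds_bound {k' q : ℕ} {cs : List Con} {h : HD × HD} (hh : h ∈ eds k' q cs) :
    h.1.1 < cs.length * 2 ^ k' ∧ cs.length * 2 ^ k' ≤ h.2.1 ∧ h.2.1 < nN k' cs := by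
  unfold eds at hh
  rw [List.mem_flatMap] at hh
  obtain ⟨c, hc, hh⟩ := hh
  rw [List.mem_flatMap] at hh
  obtain ⟨t, ht, hh⟩ := hh
  split_ifs at hh with hall
  · rw [List.mem_map] at hh
    obtain ⟨h0, hh0, rfl⟩ := hh
    unfold tab at ht
    rw [List.mem_map] at ht
    obtain ⟨π, -, rfl⟩ := ht
    simp only [ts, List.mem_map] at hh0
    obtain ⟨p, -, rfl⟩ := hh0
    have hne : cs ≠ [] := List.ne_nil_of_mem hc
    have h1 := hcode_lt p.1
    have h2 := hcode_lt (pm π (noisy p.1 p.2))
    have h3 := fstI_lt gL hne c.1.1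
    have h4 := fstI_lt gR hne c.1.2
    unfold nN
    refine ⟨?_, ?_, ?_⟩
    · change fstI gL cs c.1.1 * 2 ^ k' + (hcode p.1).1 < cs.length * 2 ^ k'
      calc fstI gL cs c.1.1 * 2 ^ k' + (hcode p.1).1
          < fstI gL cs c.1.1 * 2 ^ k' + 2 ^ k' := Nat.add_lt_add_left h1 _
        _ = (fstI gL cs c.1.1 + 1) * 2 ^ k' := by ring
        _ ≤ cs.length * 2 ^ k' := Nat.mul_le_mul_right _ h3
    · change cs.length * 2 ^ k' ≤
        (cs.length + fstI gR cs c.1.2) * 2 ^ k' + (hcode (pm π (noisy p.1 p.2))).1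
      exact (Nat.mul_le_mul_right _ (Nat.le_add_right _ _)).trans (Nat.le_add_right _ _)
    · change (cs.length + fstI gR cs c.1.2) * 2 ^ k' + (hcode (pm π (noisy p.1 p.2))).1 <
        cs.length * 2 ^ (k' + 1)
      calc (cs.length + fstI gR cs c.1.2) * 2 ^ k' + (hcode (pm π (noisy p.1 p.2))).1
          < (cs.length + fstI gR cs c.1.2) * 2 ^ k' + 2 ^ k' := Nat.add_lt_add_left h2 _
        _ = (cs.length + (fstI gR cs c.1.2 + 1)) * 2 ^ k' := by ring
        _ ≤ (cs.length + cs.length) * 2 ^ k' :=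
            Nat.mul_le_mul_right _ (Nat.add_le_add_left h4 _)
        _ = cs.length * 2 ^ (k' + 1) := by ring
  · simp at hh

theorem eds_lt {k' q : ℕ} {cs : List Con} {h : HD × HD} (hh : h ∈ eds k' q cs) :
    h.1.1 < nN k' cs ∧ h.2.1 < nN k' cs := by
  obtain ⟨h1, h2, h3⟩ := eds_bound hh
  exact ⟨by omega, h3⟩

theorem card_filter_fin {α : Type*} (l : List α) (P : α → Bool) :
    (univ.filter fun i : Fin l.length => P l[i] = true).card = l.countP P := by
  conv_rhs => rw [← List.map_getElem_finRange l]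
  rw [List.countP_map]
  have : (univ.filter fun i : Fin l.length => P l[i] = true).card =
      Multiset.countP (fun i : Fin l.length => P l[i] = true) (univ : Finset (Fin l.length)).val := by
    rw [Multiset.countP_eq_card_filter]; rfl
  rw [this]
  have h2 : (univ : Finset (Fin l.length)).val = (List.finRange l.length : Multiset _) := rfl
  rw [h2, Multiset.coe_countP]
  congr 1
  funext i
  simp

theorem bad_eq (N : ℕ) (l : List (HD × HD)) (x : Fin (N + 1) → Bool) :
    bad (Lf N l) x = l.countP (vl fun p => x (Fin.ofNat (N + 1) p)) := by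
  have key : ∀ e : Fin l.length, (xor (x (Lf N l e).1.1) (Lf N l e).1.2 ≠
      xor (x (Lf N l e).2.1) (Lf N l e).2.2) ↔
      vl (fun p => x (Fin.ofNat (N + 1) p)) l[e] = true := by
    intro e
    change (xor (x (Fin.ofNat (N + 1) l[e].1.1)) l[e].1.2 ≠
      xor (x (Fin.ofNat (N + 1) l[e].2.1)) l[e].2.2) ↔
      xor (xor (x (Fin.ofNat (N + 1) l[e].1.1)) l[e].1.2)
        (xor (x (Fin.ofNat (N + 1) l[e].2.1)) l[e].2.2) = true
    generalize xor (x (Fin.ofNat (N + 1) l[e].1.1)) l[e].1.2 = a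
    generalize xor (x (Fin.ofNat (N + 1) l[e].2.1)) l[e].2.2 = b
    cases a <;> cases b <;> simp
  rw [← card_filter_fin]
  unfold bad
  congr 1
  ext e
  rw [Finset.mem_filter, Finset.mem_filter, key e]

theorem bad_eq' (N : ℕ) (l : List (HD × HD)) (hl : ∀ h ∈ l, h.1.1 < N ∧ h.2.1 < N)
    (σ : ℕ → Bool) :
    bad (Lf N l) (fun p => σ p) = l.countP (vl σ) := by
  rw [bad_eq]
  refine List.countP_congr fun h hh => ?_
  obtain ⟨h1, h2⟩ := hl h hh
  simp only [vl, Fin.val_ofNat, Nat.mod_eq_of_lt (show h.1.1 < N + 1 by omega),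
    Nat.mod_eq_of_lt (show h.2.1 < N + 1 by omega)]

/-- **The gap.** -/
theorem gap (k' q K : ℕ) (hK : 1 ≤ K) (hq : 10 ^ 7 * K ^ 2 ≤ q) (cs : List Con) (hne : cs ≠ [])
    (hU : ∀ c ∈ cs, IsUnique (k' + 1) c) :
    ∃ (n : ℕ) (G : SimpleGraph (Fin n)), redC k' q cs =
        (adjMat G, 12 * ((eds k' q cs).length * (eds k' q cs).length)) ∧
      0 < (eds k' q cs).length ∧
      (∀ a b : ℕ → Fin (k' + 1), q * cs.length ≤ q * numSat a b cs + cs.length →
        cr G ≤ 12 * ((eds k' q cs).length * (eds k' q cs).length)) ∧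
      ((∀ a b : ℕ → Fin (k' + 1), 2 * (q * thr q K) ^ 2 * numSat a b cs < cs.length) →
        K * ((eds k' q cs).length * (eds k' q cs).length) ≤ cr G) := by
  have hK2 : K ≤ K ^ 2 := by nlinarith
  have hq0 : 1 ≤ q := by omega
  have hlen := length_eds (q := q) hU
  have hm : 0 < cs.length := List.length_pos_iff.2 hne
  have hMpos : 0 < (eds k' q cs).length := by
    rw [hlen]; positivity
  set l := eds k' q cs with hl
  set N := nN k' cs with hN
  obtain ⟨n, e, he⟩ : ∃ (n : ℕ) (e : Fin n ≃ NV N (q * l.length) l.length),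
      matC k' q cs = adjMat ((nk N (q * l.length) l.length (Lf N l)).comap e) :=
    exists_gadget k' q cs (fun h hh => eds_lt hh)
  have hN2 : 2 ≤ N := by
    rw [hN]; unfold nN
    have : 2 ≤ 2 ^ (k' + 1) := by
      rw [pow_succ]
      have : 1 ≤ 2 ^ k' := Nat.one_le_two_pow
      omega
    nlinarith
  have hval : ∀ i : Fin l.length, ((Lf N l i).1.1 : ℕ) = l[i].1.1 ∧
      ((Lf N l i).2.1 : ℕ) = l[i].2.1 := by
    intro i
    obtain ⟨h1, h2⟩ : l[i].1.1 < N ∧ l[i].2.1 < N :=
      eds_lt (k' := k') (q := q) (cs := cs) (List.getElem_mem i.2)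
    simp only [Lf, Fin.val_ofNat]
    exact ⟨Nat.mod_eq_of_lt (by omega), Nat.mod_eq_of_lt (by omega)⟩
  refine ⟨n, (nk N (q * l.length) l.length (Lf N l)).comap e, ?_, hMpos, ?_, ?_⟩
  · unfold redC
    rw [he]
  · intro a b hab
    rw [cr_comap_equiv]
    obtain ⟨σ, hσ⟩ := complete hU hq0 a b hab
    rw [← hl] at hσ
    refine (upper (Lf N l) (fun p => σ p) (by omega) ?_).trans ?_
    · intro i
      obtain ⟨h1, h2⟩ : l[i].1.1 < N ∧ l[i].2.1 < N :=
        eds_lt (k' := k') (q := q) (cs := cs) (List.getElem_mem i.2)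
      obtain ⟨h3, h4⟩ := hval i
      rw [h3, h4]
      exact ⟨h1, h2⟩
    · rw [bad_eq' N l (fun h hh => eds_lt hh)]
      calc 4 * l.length ^ 2 + 4 * (q * l.length) * l.countP (vl σ)
          = 4 * l.length ^ 2 + 4 * l.length * (q * l.countP (vl σ)) := by ring
        _ ≤ 4 * l.length ^ 2 + 4 * l.length * (2 * l.length) :=
            Nat.add_le_add_left (Nat.mul_le_mul_left _ hσ) _
        _ = 12 * (l.length * l.length) := by ring
  · intro hno
    rw [cr_comap_equiv]
    obtain ⟨D, -, hD, hc⟩ := cr_attained (nk N (q * l.length) l.length (Lf N l))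
    rw [← hc]
    by_cases hX : D.crossings.ncard < (q * l.length) ^ 2
    · obtain ⟨x, hx⟩ := lower hN2 (fun i h => by
        obtain ⟨h1, h2, -⟩ : l[i].1.1 < cs.length * 2 ^ k' ∧ cs.length * 2 ^ k' ≤ l[i].2.1 ∧
            l[i].2.1 < nN k' cs := eds_bound (k' := k') (q := q) (cs := cs)
          (List.getElem_mem i.2)
        obtain ⟨h3, h4⟩ := hval i
        have h5 := congrArg Fin.val h
        rw [h3, h4] at h5
        omega) D hD hX
      refine le_trans ?_ hx
      rw [bad_eq]
      have hs : K * l.length ≤ q * l.countP (vl fun p => x (Fin.ofNat (N + 1) p)) := by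
        by_contra hcon
        push Not at hcon
        obtain ⟨a, b, hab⟩ := sound hU K hK hq hne _ hcon
        have := hno a b
        omega
      calc K * (l.length * l.length) = (K * l.length) * l.length := by ring
        _ ≤ (q * l.countP (vl fun p => x (Fin.ofNat (N + 1) p))) * l.length :=
            Nat.mul_le_mul_right _ hs
        _ = q * l.length * l.countP (vl fun p => x (Fin.ofNat (N + 1) p)) := by ring
    · push Not at hX
      refine le_trans ?_ hX
      calc K * (l.length * l.length) ≤ (q * q) * (l.length * l.length) :=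
            Nat.mul_le_mul_right _ (by nlinarith)
        _ = (q * l.length) ^ 2 := by ring

end Pool.Agent.NPC.CR694
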