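import Pool.Agent.TH694.CR.Draw

/-!
# Positions of the vertices of the necklace graph
-/

set_option autoImplicit false

namespace Pool.Agent.TH694.CR

open Finset Pool.Agent.Helper770.Crossing

theorem Sepr.symm {a b c d : ℂ} (h : Sepr a b c d) : Sepr c d a b := by
  obtain ⟨α, β, γ, h1, h2, h3, h4⟩ := h
  exact ⟨-α, -β, -γ, by linarith, by linarith, by linarith, by linarith⟩

theorem Sepr.swapl {a b c d : ℂ} (h : Sepr a b c d) : Sepr b a c d := by
  obtain ⟨α, β, γ, h1, h2, h3, h4⟩ := h
  exact ⟨α, β, γ, h2, h1, h3, h4⟩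

theorem Sepr.swapr {a b c d : ℂ} (h : Sepr a b c d) : Sepr a b d c := by
  obtain ⟨α, β, γ, h1, h2, h3, h4⟩ := h
  exact ⟨α, β, γ, h1, h2, h4, h3⟩

/-- `0` or `1` -/
def bR (s : Bool) : ℝ := if s then 1 else 0

/-- `-1` or `1` -/
def sR (s : Bool) : ℝ := if s then 1 else -1

theorem bR_true : bR true = 1 := rfl
theorem bR_false : bR false = 0 := rfl
theorem sR_true : sR true = 1 := rfl
theorem sR_false : sR false = -1 := rfl

/-- the heights of the middle vertices -/
noncomputable def ht (W : ℕ) (j : Fin W) : ℝ := ((j : ℝ) + 1) / ((W : ℝ) + 1)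

theorem ht_pos {W : ℕ} (j : Fin W) : 0 < ht W j := by unfold ht; positivity

theorem ht_lt {W : ℕ} (j : Fin W) : ht W j < 1 := by
  unfold ht
  rw [div_lt_one (by positivity)]
  have : (j : ℝ) < W := by exact_mod_cast j.2
  linarith

theorem ht_ne {W : ℕ} {j j' : Fin W} (h : j ≠ j') : ht W j < ht W j' ∨ ht W j' < ht W j := by
  have h1 : (j : ℝ) < j' ∨ (j' : ℝ) < j := by
    rcases lt_or_gt_of_ne (fun h' => h (Fin.ext h') : (j : ℕ) ≠ j') with h2 | h2
    · left; exact_mod_cast h2
    · right; exact_mod_cast h2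
  unfold ht
  rcases h1 with h1 | h1
  · left; exact div_lt_div_of_pos_right (by linarith) (by positivity)
  · right; exact div_lt_div_of_pos_right (by linarith) (by positivity)

section pos

variable {N W M : ℕ} (L : Fin M → Hd N × Hd N) (x : Fin (N + 1) → Bool)

/-- the positions of the vertices -/
noncomputable def Q : NV N W M → ℂ
  | .jn p => ⟨2 * (p : ℝ) - N, 0⟩
  | .hd p b => if (p : ℕ) = N then ⟨0, 4 * N + 2 + 2 * bR b⟩ else
      ⟨2 * (p : ℝ) + 1 - N, sR (xor (x p) b)⟩
  | .md p b s j => if (p : ℕ) = N then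
      ⟨-sR s * (N + 2 * bR b + ht W j), 4 * N + 1 + 2 * bR b⟩ else
      ⟨2 * (p : ℝ) + 1 / 2 + bR s - N, sR (xor (x p) b) * ht W j⟩
  | .lt e => ⟨0, sR (xor (x (L e).1.1) (L e).1.2 || xor (x (L e).2.1) (L e).2.2) * (4 * N)⟩

/-- the other end of a medium edge: the handle if `k` and the junction otherwise -/
def oth (W M : ℕ) (p : Fin (N + 1)) (b s k : Bool) : NV N W M := if k then .hd p b else .jn (J p s)

theorem J_val {p : Fin (N + 1)} (hp : (p : ℕ) < N) (s : Bool) :
    ((J p s : Fin (N + 1)) : ℝ) = p + bR s := by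
  unfold J
  cases s
  · simp [bR]
  · simp only [if_true, bR_true]
    have : ((p + 1 : Fin (N + 1)) : ℕ) = p + 1 := by
      rw [Fin.val_add, Fin.val_one', Nat.mod_eq_of_lt (show 1 < N + 1 by omega),
        Nat.mod_eq_of_lt (by omega)]
    rw [this]; push_cast; ring

theorem J_last {p : Fin (N + 1)} (hp : (p : ℕ) = N) (s : Bool) :
    2 * ((J p s : Fin (N + 1)) : ℝ) - N = -sR s * N := by
  unfold J
  have h0 : p = Fin.last N := Fin.ext hp
  subst h0
  cases s
  · simp [sR]; ring
  · simp [sR]

theorem Q_jn {p : Fin (N + 1)} (hp : (p : ℕ) < N) (s : Bool) :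
    Q L x (.jn (J p s) : NV N W M) = ⟨2 * (p : ℝ) + 2 * bR s - N, 0⟩ := by
  simp only [Q]
  rw [J_val hp]
  congr 1; ring

theorem Q_hd {p : Fin (N + 1)} (hp : (p : ℕ) < N) (b : Bool) :
    Q L x (.hd p b : NV N W M) = ⟨2 * (p : ℝ) + 1 - N, sR (xor (x p) b)⟩ := by
  simp only [Q]
  rw [if_neg hp.ne]

theorem Q_md {p : Fin (N + 1)} (hp : (p : ℕ) < N) (b s : Bool) (j : Fin W) :
    Q L x (.md p b s j : NV N W M) =
      ⟨2 * (p : ℝ) + 1 / 2 + bR s - N, sR (xor (x p) b) * ht W j⟩ := by
  simp only [Q]
  rw [if_neg hp.ne]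

theorem Q_jn' {p : Fin (N + 1)} (hp : (p : ℕ) = N) (s : Bool) :
    Q L x (.jn (J p s) : NV N W M) = ⟨-sR s * N, 0⟩ := by
  simp only [Q]
  rw [J_last hp]

theorem Q_hd' {p : Fin (N + 1)} (hp : (p : ℕ) = N) (b : Bool) :
    Q L x (.hd p b : NV N W M) = ⟨0, 4 * N + 2 + 2 * bR b⟩ := by
  simp only [Q]
  rw [if_pos hp]

theorem Q_md' {p : Fin (N + 1)} (hp : (p : ℕ) = N) (b s : Bool) (j : Fin W) :
    Q L x (.md p b s j : NV N W M) =
      ⟨-sR s * (N + 2 * bR b + ht W j), 4 * N + 1 + 2 * bR b⟩ := by
  simp only [Q]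
  rw [if_pos hp]

/-- medium edges of different real pieces -/
theorem sep_dif {p p' : Fin (N + 1)} (hp' : (p' : ℕ) < N) (hpp : p < p')
    (b s k b' s' k' : Bool) (j j' : Fin W) (ho : oth W M p b s k ≠ oth W M p' b' s' k') :
    Sepr (Q L x (.md p b s j : NV N W M)) (Q L x (oth W M p b s k))
      (Q L x (.md p' b' s' j' : NV N W M)) (Q L x (oth W M p' b' s' k')) := by
  have hp : (p : ℕ) < N := lt_trans hpp hp'
  have h1 : (p : ℝ) + 1 ≤ p' := by exact_mod_cast hpp
  rw [Q_md L x hp, Q_md L x hp']
  by_cases h : s = true ∧ k = false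
  · obtain ⟨rfl, rfl⟩ := h
    refine ⟨1, 0, 2 * p + 9 / 4 - N, ?_⟩
    cases k'
    · simp only [oth, Bool.false_eq_true, if_false] at ho ⊢
      rw [Q_jn L x hp, Q_jn L x hp']
      simp only [bR_true]
      cases s'
      · have h2 : (p : ℝ) + 2 ≤ p' := by
          have h3 : (p : ℕ) + 1 ≠ p' := by
            intro h3
            apply ho
            have h4 : J p true = J p' false := by
              unfold J
              simp only [if_true, Bool.false_eq_true, if_false]
              apply Fin.ext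
              rw [Fin.val_add, Fin.val_one', Nat.mod_eq_of_lt (show 1 < N + 1 by omega),
                Nat.mod_eq_of_lt (by omega), h3]
            rw [h4]
          have h4 : (p : ℕ) + 2 ≤ p' := by
            have : (p : ℕ) + 1 ≤ p' := hpp
            omega
          exact_mod_cast h4
        simp only [bR_false]
        refine ⟨?_, ?_, ?_, ?_⟩ <;> linarith
      · simp only [bR_true]
        refine ⟨?_, ?_, ?_, ?_⟩ <;> linarith
    · simp only [oth, Bool.false_eq_true, if_false, if_true]
      rw [Q_jn L x hp, Q_hd L x hp']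
      simp only [bR_true]
      cases s' <;> simp only [bR_true, bR_false] <;> refine ⟨?_, ?_, ?_, ?_⟩ <;> linarith
  · refine ⟨1, 0, 2 * p + 7 / 4 - N, ?_⟩
    have hs : ¬ (s = true ∧ k = false) := h
    cases k <;> cases k' <;> cases s <;> cases s' <;>
      simp only [oth, Bool.false_eq_true, if_false, if_true, Q_jn L x hp, Q_hd L x hp,
        Q_jn L x hp', Q_hd L x hp', bR_true, bR_false, and_self, and_true, not_true_eq_false,
        not_false_eq_true] at hs ⊢ <;>
      first
        | exact absurd rfl hs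
        | (refine ⟨?_, ?_, ?_, ?_⟩ <;> linarith)

/-- two paths of the same bundle of a real piece -/
theorem sep_bun {p : Fin (N + 1)} (hp : (p : ℕ) < N) (b s : Bool) {j j' : Fin W} (hj : j ≠ j') :
    Sepr (Q L x (.md p b s j : NV N W M)) (Q L x (.hd p b : NV N W M))
      (Q L x (.md p b s j' : NV N W M)) (Q L x (.jn (J p s) : NV N W M)) := by
  have t0 := ht_pos j
  have t1 := ht_lt j
  have t0' := ht_pos j'
  have t1' := ht_lt j'
  rw [Q_md L x hp, Q_md L x hp, Q_hd L x hp, Q_jn L x hp]
  generalize xor (x p) b = σ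
  rcases ht_ne hj with h | h
  · refine ⟨-(1 - 2 * bR s), sR σ / 2,
      -(1 - 2 * bR s) * (2 * p + 1 - N) + 1 / 2 + (ht W j + ht W j') / 4, ?_, ?_, ?_, ?_⟩ <;>
    cases σ <;> cases s <;> simp only [bR_true, bR_false, sR_true, sR_false] <;> linarith
  · refine ⟨-(1 - 2 * bR s), -sR σ / 2,
      -(1 - 2 * bR s) * (2 * p + 1 - N) + 1 / 2 - (ht W j + ht W j') / 4, ?_, ?_, ?_, ?_⟩ <;>
    cases σ <;> cases s <;> simp only [bR_true, bR_false, sR_true, sR_false] <;> linarith

/-- the same handle, different sides -/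
theorem sep_side {p : Fin (N + 1)} (hp : (p : ℕ) < N) (b k k' : Bool) (hk : ¬ (k = true ∧ k' = true))
    (j j' : Fin W) :
    Sepr (Q L x (.md p b false j : NV N W M)) (Q L x (oth W M p b false k))
      (Q L x (.md p b true j' : NV N W M)) (Q L x (oth W M p b true k')) := by
  rw [Q_md L x hp, Q_md L x hp]
  cases k <;> cases k' <;> simp only [oth, Bool.false_eq_true, if_false, if_true, Q_jn L x hp,
    Q_hd L x hp, bR_true, bR_false]
  · refine ⟨1, 0, 2 * p + 1 - N, ?_, ?_, ?_, ?_⟩ <;> linarith
  · refine ⟨1, 0, 2 * p + 3 / 4 - N, ?_, ?_, ?_, ?_⟩ <;> linarith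
  · refine ⟨1, 0, 2 * p + 5 / 4 - N, ?_, ?_, ?_, ?_⟩ <;> linarith
  · exact absurd ⟨rfl, rfl⟩ hk

theorem sR_not (b : Bool) : sR (!b) = -sR b := by cases b <;> simp [sR]

/-- different handles, junctions of different sides -/
theorem sep_side' {p : Fin (N + 1)} (hp : (p : ℕ) < N) (b b' : Bool)
    (j j' : Fin W) :
    Sepr (Q L x (.md p b false j : NV N W M)) (Q L x (.jn (J p false) : NV N W M))
      (Q L x (.md p b' true j' : NV N W M)) (Q L x (.jn (J p true) : NV N W M)) := by
  rw [Q_md L x hp, Q_md L x hp, Q_jn L x hp, Q_jn L x hp]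
  simp only [bR_true, bR_false]
  refine ⟨1, 0, 2 * p + 1 - N, ?_, ?_, ?_, ?_⟩ <;> linarith

/-- different handles: an edge at the handle against anything on the other side -/
theorem sep_op {p : Fin (N + 1)} (hp : (p : ℕ) < N) (b s s' k' : Bool) (j j' : Fin W) :
    Sepr (Q L x (.md p (!b) s' j' : NV N W M)) (Q L x (oth W M p (!b) s' k'))
      (Q L x (.md p b s j : NV N W M)) (Q L x (.hd p b : NV N W M)) := by
  have t0 := ht_pos j
  have t1 := ht_lt j
  have t0' := ht_pos j'
  have t1' := ht_lt j'
  rw [Q_md L x hp, Q_md L x hp, Q_hd L x hp]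
  have e : xor (x p) (!b) = !(xor (x p) b) := by cases (x p) <;> cases b <;> rfl
  rw [e]
  refine ⟨0, sR (xor (x p) b), ht W j / 2, ?_, ?_, ?_, ?_⟩
  · generalize xor (x p) b = σ
    cases σ <;> simp only [Bool.not_true, Bool.not_false, sR_true, sR_false] <;> linarith
  · cases k'
    · simp only [oth, Bool.false_eq_true, if_false, Q_jn L x hp]
      linarith
    · simp only [oth, if_true, Q_hd L x hp, e]
      generalize xor (x p) b = σ
      cases σ <;> simp only [Bool.not_true, Bool.not_false, sR_true, sR_false] <;> linarith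
  · generalize xor (x p) b = σ
    cases σ <;> simp only [sR_true, sR_false] <;> linarith
  · generalize xor (x p) b = σ
    cases σ <;> simp only [sR_true, sR_false] <;> linarith

/-- medium edges of the same real piece -/
theorem sep_same {p : Fin (N + 1)} (hp : (p : ℕ) < N)
    (b s k b' s' k' : Bool) (j j' : Fin W)
    (hm : (NV.md p b s j : NV N W M) ≠ .md p b' s' j')
    (ho : oth W M p b s k ≠ oth W M p b' s' k') :
    Sepr (Q L x (.md p b s j : NV N W M)) (Q L x (oth W M p b s k))
      (Q L x (.md p b' s' j' : NV N W M)) (Q L x (oth W M p b' s' k')) := by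
  by_cases hb : b = b'
  · subst hb
    by_cases hs : s = s'
    · subst hs
      have hj : j ≠ j' := by
        rintro rfl; exact hm rfl
      cases k <;> cases k'
      · exact absurd rfl ho
      · exact (sep_bun L x hp b s hj.symm).symm
      · exact sep_bun L x hp b s hj
      · exact absurd rfl ho
    · have hk : ¬ (k = true ∧ k' = true) := by
        rintro ⟨rfl, rfl⟩; exact ho rfl
      cases s <;> cases s'
      · exact absurd rfl hs
      · exact sep_side L x hp b k k' hk j j'
      · exact (sep_side L x hp b k' k (fun h => hk h.symm) j' j).symm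
      · exact absurd rfl hs
  · have hb' : b' = !b := by cases b <;> cases b' <;> simp_all
    subst hb'
    cases k
    · cases k'
      · cases s <;> cases s'
        · exact absurd rfl ho
        · exact sep_side' L x hp b (!b) j j'
        · exact (sep_side' L x hp (!b) b j' j).symm
        · exact absurd rfl ho
      · have := sep_op L x hp (!b) s' s false j' j
        rw [Bool.not_not] at this
        exact this
    · exact (sep_op L x hp b s s' k' j j').symm

/-- medium edges of a real piece and of the closing piece -/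
theorem sep_close {p p' : Fin (N + 1)} (hp : (p : ℕ) < N) (hp' : (p' : ℕ) = N)
    (b s k b' s' k' : Bool) (j j' : Fin W)
    (ho : oth W M p b s k ≠ oth W M p' b' s' k') :
    Sepr (Q L x (.md p b s j : NV N W M)) (Q L x (oth W M p b s k))
      (Q L x (.md p' b' s' j' : NV N W M)) (Q L x (oth W M p' b' s' k')) := by
  have t0 := ht_pos j
  have t1 := ht_lt j
  have t0' := ht_pos j'
  have t1' := ht_lt j'
  have hN : (1 : ℝ) ≤ N := by
    have : 1 ≤ N := by omega
    exact_mod_cast this
  have hpR : (p : ℝ) + 1 ≤ N := by exact_mod_cast hp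
  have hp0 : (0 : ℝ) ≤ p := Nat.cast_nonneg _
  rw [Q_md L x hp, Q_md' L x hp']
  cases k'
  · -- junction of the closing piece
    simp only [oth, Bool.false_eq_true, if_false, Q_jn' L x hp']
    refine ⟨-sR s', 0, N - 1 / 4, ?_, ?_, ?_, ?_⟩
    · cases s' <;> cases s <;> simp only [bR_true, bR_false, sR_true, sR_false] <;> linarith
    · cases k
      · simp only [Bool.false_eq_true, if_false, Q_jn L x hp]
        simp only [oth, Bool.false_eq_true, if_false] at ho
        have h1 : J p s ≠ J p' s' := fun h => ho (by rw [h])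
        have h2 : ((J p s : Fin (N + 1)) : ℕ) ≠ ((J p' s' : Fin (N + 1)) : ℕ) :=
          fun h => h1 (Fin.ext h)
        have h3 := J_val hp s
        have h4 := J_last hp' s'
        cases s'
        · have h5 : ((J p' false : Fin (N + 1)) : ℕ) = N := by simp [J, hp']
          have h6 : ((J p s : Fin (N + 1)) : ℕ) + 1 ≤ N := by
            have := (J p s).2
            omega
          have h7 : ((J p s : Fin (N + 1)) : ℝ) + 1 ≤ N := by exact_mod_cast h6
          simp only [sR_false]
          linarith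
        · have h5 : ((J p' true : Fin (N + 1)) : ℕ) = 0 := by
            have : p' = Fin.last N := Fin.ext hp'
            simp [J, this]
          have h6 : 1 ≤ ((J p s : Fin (N + 1)) : ℕ) := by omega
          have h7 : (1 : ℝ) ≤ ((J p s : Fin (N + 1)) : ℝ) := by exact_mod_cast h6
          simp only [sR_true]
          linarith
      · simp only [if_true, Q_hd L x hp]
        cases s' <;> simp only [sR_true, sR_false] <;> linarith
    · cases s' <;> cases b' <;> simp only [bR_true, bR_false, sR_true, sR_false] <;> linarith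
    · cases s' <;> simp only [sR_true, sR_false] <;> linarith
  · -- handle of the closing piece
    simp only [oth, if_true, Q_hd' L x hp']
    refine ⟨0, 1, 4 * N + 1 / 2, ?_, ?_, ?_, ?_⟩
    · generalize xor (x p) b = σ
      cases σ <;> simp only [sR_true, sR_false] <;> linarith
    · cases k
      · simp only [Bool.false_eq_true, if_false, Q_jn L x hp]
        linarith
      · simp only [if_true, Q_hd L x hp]
        generalize xor (x p) b = σ
        cases σ <;> simp only [sR_true, sR_false] <;> linarith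
    · cases b' <;> simp only [bR_true, bR_false] <;> linarith
    · cases b' <;> simp only [bR_true, bR_false] <;> linarith

/-- closing piece, the same bundle -/
theorem sepc_bun {p : Fin (N + 1)} (hp : (p : ℕ) = N) (hN1 : 1 ≤ N) (b s : Bool) {j j' : Fin W}
    (hj : j ≠ j') :
    Sepr (Q L x (.md p b s j' : NV N W M)) (Q L x (.jn (J p s) : NV N W M))
      (Q L x (.md p b s j : NV N W M)) (Q L x (.hd p b : NV N W M)) := by
  have t0 := ht_pos j
  have t1 := ht_lt j
  have t0' := ht_pos j'
  have t1' := ht_lt j'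
  have hN : (1 : ℝ) ≤ N := by exact_mod_cast hN1
  rw [Q_md' L x hp, Q_md' L x hp, Q_hd' L x hp, Q_jn' L x hp]
  rcases ht_ne hj with h | h
  · refine ⟨sR s, N + 1 + 3 * bR b, (N + 1 + 3 * bR b) * (4 * N + 1 + 2 * bR b) -
      (N + 2 * bR b + (ht W j + ht W j') / 2), ?_, ?_, ?_, ?_⟩ <;>
    cases b <;> cases s <;> simp only [bR_true, bR_false, sR_true, sR_false] <;> nlinarith
  · refine ⟨-sR s, N + 1 + 3 * bR b, (N + 1 + 3 * bR b) * (4 * N + 1 + 2 * bR b) +
      (N + 2 * bR b + (ht W j + ht W j') / 2), ?_, ?_, ?_, ?_⟩ <;>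
    cases b <;> cases s <;> simp only [bR_true, bR_false, sR_true, sR_false] <;> nlinarith

/-- closing piece: the right side against the left side -/
theorem sepc_side {p : Fin (N + 1)} (hp : (p : ℕ) = N) (hN1 : 1 ≤ N) (b b' k : Bool)
    (j j' : Fin W) :
    Sepr (Q L x (.md p b true j : NV N W M)) (Q L x (.jn (J p true) : NV N W M))
      (Q L x (.md p b' false j' : NV N W M)) (Q L x (oth W M p b' false k)) := by
  have t0 := ht_pos j
  have t1 := ht_lt j
  have t0' := ht_pos j'
  have t1' := ht_lt j'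
  have hN : (1 : ℝ) ≤ N := by exact_mod_cast hN1
  rw [Q_md' L x hp, Q_md' L x hp, Q_jn' L x hp]
  refine ⟨1, 0, -(N : ℝ) / 2, ?_, ?_, ?_, ?_⟩
  · cases b <;> simp only [bR_true, bR_false, sR_true, sR_false] <;> linarith
  · simp only [sR_true]; linarith
  · cases b' <;> simp only [bR_true, bR_false, sR_true, sR_false] <;> linarith
  · cases k
    · simp only [oth, Bool.false_eq_true, if_false, Q_jn' L x hp, sR_false]; linarith
    · simp only [oth, if_true, Q_hd' L x hp]
      cases b' <;> simp only [bR_true, bR_false] <;> linarith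

/-- closing piece: the left side against the right side -/
theorem sepc_side' {p : Fin (N + 1)} (hp : (p : ℕ) = N) (hN1 : 1 ≤ N) (b b' k : Bool)
    (j j' : Fin W) :
    Sepr (Q L x (.md p b' true j' : NV N W M)) (Q L x (oth W M p b' true k))
      (Q L x (.md p b false j : NV N W M)) (Q L x (.jn (J p false) : NV N W M)) := by
  have t0 := ht_pos j
  have t1 := ht_lt j
  have t0' := ht_pos j'
  have t1' := ht_lt j'
  have hN : (1 : ℝ) ≤ N := by exact_mod_cast hN1
  rw [Q_md' L x hp, Q_md' L x hp, Q_jn' L x hp]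
  refine ⟨1, 0, (N : ℝ) / 2, ?_, ?_, ?_, ?_⟩
  · cases b' <;> simp only [bR_true, bR_false, sR_true, sR_false] <;> linarith
  · cases k
    · simp only [oth, Bool.false_eq_true, if_false, Q_jn' L x hp, sR_true]; linarith
    · simp only [oth, if_true, Q_hd' L x hp]
      cases b' <;> simp only [bR_true, bR_false] <;> linarith
  · cases b <;> simp only [bR_true, bR_false, sR_true, sR_false] <;> linarith
  · simp only [sR_false]; linarith

/-- closing piece: inner handle against outer handle, one of the outer ends is the handle -/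
theorem sepc_high {p : Fin (N + 1)} (hp : (p : ℕ) = N) (hN1 : 1 ≤ N) (s s' k : Bool)
    (j j' : Fin W) :
    Sepr (Q L x (.md p false s j : NV N W M)) (Q L x (oth W M p false s k))
      (Q L x (.md p true s' j' : NV N W M)) (Q L x (.hd p true : NV N W M)) := by
  have hN : (1 : ℝ) ≤ N := by exact_mod_cast hN1
  rw [Q_md' L x hp, Q_md' L x hp, Q_hd' L x hp]
  refine ⟨0, 1, 4 * N + 5 / 2, ?_, ?_, ?_, ?_⟩
  · simp only [bR_false]; linarith
  · cases k
    · simp only [oth, Bool.false_eq_true, if_false, Q_jn' L x hp]; linarith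
    · simp only [oth, if_true, Q_hd' L x hp, bR_false]; linarith
  · simp only [bR_true]; linarith
  · simp only [bR_true]; linarith

/-- closing piece: an inner edge at the handle against an outer edge at the junction, same side -/
theorem sepc_in {p : Fin (N + 1)} (hp : (p : ℕ) = N) (hN1 : 1 ≤ N) (s : Bool)
    (j j' : Fin W) :
    Sepr (Q L x (.md p false s j : NV N W M)) (Q L x (.hd p false : NV N W M))
      (Q L x (.md p true s j' : NV N W M)) (Q L x (.jn (J p s) : NV N W M)) := by
  have t0 := ht_pos j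
  have t1 := ht_lt j
  have t0' := ht_pos j'
  have t1' := ht_lt j'
  have hN : (1 : ℝ) ≤ N := by exact_mod_cast hN1
  rw [Q_md' L x hp, Q_md' L x hp, Q_hd' L x hp, Q_jn' L x hp]
  refine ⟨-sR s * (4 * N + 3), -2, (4 * N + 3) * N - 1, ?_, ?_, ?_, ?_⟩ <;>
    cases s <;> simp only [bR_true, bR_false, sR_true, sR_false] <;> nlinarith

/-- medium edges of the closing piece -/
theorem sep_closed {p : Fin (N + 1)} (hp : (p : ℕ) = N) (hN1 : 1 ≤ N)
    (b s k b' s' k' : Bool) (j j' : Fin W)
    (hm : (NV.md p b s j : NV N W M) ≠ .md p b' s' j')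
    (ho : oth W M p b s k ≠ oth W M p b' s' k') :
    Sepr (Q L x (.md p b s j : NV N W M)) (Q L x (oth W M p b s k))
      (Q L x (.md p b' s' j' : NV N W M)) (Q L x (oth W M p b' s' k')) := by
  cases k <;> cases k'
  · -- both at junctions
    cases s <;> cases s'
    · exact absurd rfl ho
    · exact (sepc_side L x hp hN1 b' b false j' j).symm
    · exact sepc_side L x hp hN1 b b' false j j'
    · exact absurd rfl ho
  · -- junction, handle
    by_cases hs : s = s'
    · subst hs
      cases b <;> cases b'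
      · have hj : j ≠ j' := by rintro rfl; exact hm rfl
        exact sepc_bun L x hp hN1 false s hj.symm
      · exact sepc_high L x hp hN1 s s false j j'
      · exact (sepc_in L x hp hN1 s j' j).symm
      · have hj : j ≠ j' := by rintro rfl; exact hm rfl
        exact sepc_bun L x hp hN1 true s hj.symm
    · cases s <;> cases s'
      · exact absurd rfl hs
      · exact (sepc_side' L x hp hN1 b b' true j j').symm
      · exact sepc_side L x hp hN1 b b' true j j'
      · exact absurd rfl hs
  · -- handle, junction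
    by_cases hs : s = s'
    · subst hs
      cases b <;> cases b'
      · have hj : j ≠ j' := by rintro rfl; exact hm rfl
        exact (sepc_bun L x hp hN1 false s hj).symm
      · exact sepc_in L x hp hN1 s j j'
      · exact (sepc_high L x hp hN1 s s false j' j).symm
      · have hj : j ≠ j' := by rintro rfl; exact hm rfl
        exact (sepc_bun L x hp hN1 true s hj).symm
    · cases s <;> cases s'
      · exact absurd rfl hs
      · exact (sepc_side L x hp hN1 b' b true j' j).symm
      · exact sepc_side' L x hp hN1 b' b true j' j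
      · exact absurd rfl hs
  · -- both at handles
    cases b <;> cases b'
    · exact absurd rfl ho
    · exact sepc_high L x hp hN1 s s' true j j'
    · exact (sepc_high L x hp hN1 s' s true j' j).symm
    · exact absurd rfl ho

/-- all pairs of medium edges -/
theorem sep_med (hN1 : 1 ≤ N) {p p' : Fin (N + 1)} (b s k b' s' k' : Bool) (j j' : Fin W)
    (hm : (NV.md p b s j : NV N W M) ≠ .md p' b' s' j')
    (ho : oth W M p b s k ≠ oth W M p' b' s' k') :
    Sepr (Q L x (.md p b s j : NV N W M)) (Q L x (oth W M p b s k))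
      (Q L x (.md p' b' s' j' : NV N W M)) (Q L x (oth W M p' b' s' k')) := by
  have h1 : (p : ℕ) < N ∨ (p : ℕ) = N := by have := p.2; omega
  have h2 : (p' : ℕ) < N ∨ (p' : ℕ) = N := by have := p'.2; omega
  rcases h1 with h1 | h1 <;> rcases h2 with h2 | h2
  · rcases lt_trichotomy p p' with h | h | h
    · exact sep_dif L x h2 h b s k b' s' k' j j' ho
    · subst h
      exact sep_same L x h1 b s k b' s' k' j j' hm ho
    · exact (sep_dif L x h1 h b' s' k' b s k j' j ho.symm).symm
  · exact sep_close L x h1 h2 b s k b' s' k' j j' ho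
  · exact (sep_close L x h2 h1 b' s' k' b s k j' j ho.symm).symm
  · have h3 : p = p' := Fin.ext (h1.trans h2.symm)
    subst h3
    exact sep_closed L x h1 hN1 b s k b' s' k' j j' hm ho

/-- the box of a real piece -/
theorem box {p : Fin (N + 1)} (hp : (p : ℕ) < N) (b s k : Bool) (j : Fin W) (v : NV N W M)
    (hv : v = .md p b s j ∨ v = oth W M p b s k) :
    2 * (p : ℝ) - N ≤ (Q L x v).re ∧ (Q L x v).re ≤ 2 * (p : ℝ) + 2 - N ∧
      -1 ≤ (Q L x v).im ∧ (Q L x v).im ≤ 1 := by
  have t0 := ht_pos j
  have t1 := ht_lt j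
  rcases hv with rfl | rfl
  · rw [Q_md L x hp]
    simp only
    generalize xor (x p) b = σ
    cases s <;> cases σ <;> simp only [bR_true, bR_false, sR_true, sR_false] <;>
      refine ⟨?_, ?_, ?_, ?_⟩ <;> linarith
  · cases k
    · simp only [oth, Bool.false_eq_true, if_false, Q_jn L x hp]
      cases s <;> simp only [bR_true, bR_false] <;> refine ⟨?_, ?_, ?_, ?_⟩ <;> linarith
    · simp only [oth, if_true, Q_hd L x hp]
      generalize xor (x p) b = σ
      cases σ <;> simp only [sR_true, sR_false] <;> refine ⟨?_, ?_, ?_, ?_⟩ <;> linarith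

/-- light edges and medium edges of other real pieces -/
theorem sep_lt_other {p q : Fin (N + 1)} (hp : (p : ℕ) < N) (hq : (q : ℕ) < N) (hpq : p ≠ q)
    (b s k : Bool) (j : Fin W) (c : Bool) (e : Fin M) :
    Sepr (Q L x (.md p b s j : NV N W M)) (Q L x (oth W M p b s k))
      (Q L x (.lt e : NV N W M)) (Q L x (.hd q c : NV N W M)) := by
  obtain ⟨a1, a2, a3, a4⟩ := box L x hp b s k j (.md p b s j : NV N W M) (Or.inl rfl)
  obtain ⟨b1, b2, b3, b4⟩ := box L x hp b s k j (oth W M p b s k) (Or.inr rfl)
  rw [Q_hd L x hq]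
  have e1 : Q L x (.lt e : NV N W M) =
    ⟨0, sR (xor (x (L e).1.1) (L e).1.2 || xor (x (L e).2.1) (L e).2.2) * (4 * N)⟩ := rfl
  rw [e1]
  have hqN : (q : ℝ) + 1 ≤ N := by exact_mod_cast hq
  have hq0 : (0 : ℝ) ≤ q := Nat.cast_nonneg _
  generalize Q L x (.md p b s j : NV N W M) = z1 at *
  generalize Q L x (oth W M p b s k) = z2 at *
  generalize (xor (x (L e).1.1) (L e).1.2 || xor (x (L e).2.1) (L e).2.2) = σ
  generalize xor (x q) c = σ'
  rcases lt_or_gt_of_ne hpq with h | h
  · have h1 : (p : ℝ) + 1 ≤ q := by exact_mod_cast h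
    refine ⟨1, sR σ / 4, 2 * q + 1 / 2 - N, ?_, ?_, ?_, ?_⟩ <;>
      cases σ <;> cases σ' <;> simp only [sR_true, sR_false] <;> linarith
  · have h1 : (q : ℝ) + 1 ≤ p := by exact_mod_cast h
    refine ⟨-1, sR σ / 4, -(2 * q + 3 / 2 - N), ?_, ?_, ?_, ?_⟩ <;>
      cases σ <;> cases σ' <;> simp only [sR_true, sR_false] <;> linarith

/-- light edges and medium edges of the closing piece -/
theorem sep_lt_close {p q : Fin (N + 1)} (hp : (p : ℕ) = N) (hq : (q : ℕ) < N)
    (b s k : Bool) (j : Fin W) (c : Bool) (e : Fin M) :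
    Sepr (Q L x (.lt e : NV N W M)) (Q L x (.hd q c : NV N W M))
      (Q L x (.md p b s j : NV N W M)) (Q L x (oth W M p b s k)) := by
  have t0 := ht_pos j
  have t1 := ht_lt j
  rw [Q_hd L x hq, Q_md' L x hp]
  have e1 : Q L x (.lt e : NV N W M) =
    ⟨0, sR (xor (x (L e).1.1) (L e).1.2 || xor (x (L e).2.1) (L e).2.2) * (4 * N)⟩ := rfl
  rw [e1]
  have hqN : (q : ℝ) + 1 ≤ N := by exact_mod_cast hq
  have hq0 : (0 : ℝ) ≤ q := Nat.cast_nonneg _
  generalize (xor (x (L e).1.1) (L e).1.2 || xor (x (L e).2.1) (L e).2.2) = σ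
  generalize xor (x q) c = σ'
  cases k
  · simp only [oth, Bool.false_eq_true, if_false, Q_jn' L x hp]
    refine ⟨-sR s, 0, N - 1 / 2, ?_, ?_, ?_, ?_⟩ <;>
      cases b <;> cases s <;> simp only [bR_true, bR_false, sR_true, sR_false] <;> linarith
  · simp only [oth, if_true, Q_hd' L x hp]
    refine ⟨0, 1, 4 * N + 1 / 2, ?_, ?_, ?_, ?_⟩ <;>
      cases σ <;> cases σ' <;> cases b <;> simp only [bR_true, bR_false, sR_true, sR_false] <;>
      linarith

/-- light edges and medium edges of the same piece -/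
theorem sep_lt_same {q : Fin (N + 1)} (hq : (q : ℕ) < N)
    (b s k : Bool) (j : Fin W) (c : Bool) (e : Fin M)
    (ho : oth W M q b s k ≠ .hd q c)
    (hS : b ≠ c → xor (x q) c =
      (xor (x (L e).1.1) (L e).1.2 || xor (x (L e).2.1) (L e).2.2)) :
    Sepr (Q L x (.md q b s j : NV N W M)) (Q L x (oth W M q b s k))
      (Q L x (.lt e : NV N W M)) (Q L x (.hd q c : NV N W M)) := by
  have t0 := ht_pos j
  have t1 := ht_lt j
  rw [Q_hd L x hq, Q_md L x hq]
  have e1 : Q L x (.lt e : NV N W M) =
    ⟨0, sR (xor (x (L e).1.1) (L e).1.2 || xor (x (L e).2.1) (L e).2.2) * (4 * N)⟩ := rfl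
  rw [e1]
  have hqN : (q : ℝ) + 1 ≤ N := by exact_mod_cast hq
  have hq0 : (0 : ℝ) ≤ q := Nat.cast_nonneg _
  generalize (xor (x (L e).1.1) (L e).1.2 || xor (x (L e).2.1) (L e).2.2) = σ at *
  by_cases hb : b = c
  · subst hb
    have hk : k = false := by
      cases k
      · rfl
      · exact absurd rfl ho
    subst hk
    simp only [oth, Bool.false_eq_true, if_false, Q_jn L x hq]
    generalize xor (x q) b = σ'
    by_cases h : σ = σ'
    · subst h
      refine ⟨0, sR σ, (1 + ht W j) / 2, ?_, ?_, ?_, ?_⟩ <;>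
        cases σ <;> simp only [sR_true, sR_false] <;> linarith
    · have h' : σ' = !σ := by cases σ <;> cases σ' <;> simp_all
      subst h'
      cases s
      · refine ⟨1, sR σ / 4, 2 * q + 5 / 8 - N, ?_, ?_, ?_, ?_⟩ <;>
          cases σ <;> simp only [Bool.not_true, Bool.not_false, bR_false, sR_true, sR_false] <;>
          linarith
      · refine ⟨-1, sR σ / 4, -(2 * q + 11 / 8 - N), ?_, ?_, ?_, ?_⟩ <;>
          cases σ <;> simp only [Bool.not_true, Bool.not_false, bR_true, sR_true, sR_false] <;>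
          linarith
  · have h1 := hS hb
    have hb' : b = !c := by cases b <;> cases c <;> simp_all
    subst hb'
    have h2 : xor (x q) (!c) = !σ := by rw [← h1]; cases (x q) <;> cases c <;> rfl
    rw [h1, h2]
    cases k
    · simp only [oth, Bool.false_eq_true, if_false, Q_jn L x hq]
      refine ⟨0, sR σ, 1 / 2, ?_, ?_, ?_, ?_⟩ <;>
        cases σ <;> simp only [Bool.not_true, Bool.not_false, sR_true, sR_false] <;> linarith
    · simp only [oth, if_true, Q_hd L x hq, h2]
      refine ⟨0, sR σ, 1 / 2, ?_, ?_, ?_, ?_⟩ <;>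
        cases σ <;> simp only [Bool.not_true, Bool.not_false, sR_true, sR_false] <;> linarith

end pos

end Pool.Agent.TH694.CR
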