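import Pool.Agent.TH694.CR.Gap
import Pool.Agent.H604R2.VDMain

/-!
# Hardness of approximation of the crossing number
-/

set_option autoImplicit false

namespace Pool.Agent.NPC.CR694

open Finset Pool.Agent.NPC Pool.Agent.NPC.H604 Pool.Agent.TH694.CR
open Pool.Agent.Helper770.Crossing

/-- The function `A` on bit strings approximates the crossing number within the factor `c`: on the
code of the adjacency matrix of a graph `G` it returns the code of a number `k` with
`cr G ≤ k ≤ c * cr G`. -/
def Approximates (c : ℝ) (A : List Bool → List Bool) : Prop :=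
  ∀ (n : ℕ) (G : SimpleGraph (Fin n)),
    ∃ k : ℕ, A (bits (adjMat G)) = bits k ∧ cr G ≤ k ∧ (k : ℝ) ≤ c * cr G

theorem inNP_univ : InNP Set.univ :=
  InP.inNP ⟨fun _ => [true], polyTime_of_poly (Poly.const true), fun x => by simp⟩

/-- The gap reduction. -/
theorem reduction (hUGC : UGC) (c : ℝ) (L : Set (List Bool)) (hL : InNP L) :
    ∃ (n t : List Bool → ℕ) (G : ∀ x, SimpleGraph (Fin (n x))),
      PolyTime (fun x => bits (adjMat (G x), t x)) ∧
      (∀ x ∈ L, cr (G x) ≤ t x) ∧ ∀ x ∉ L, c * t x < cr (G x) := by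
  obtain ⟨K0, hK0⟩ := exists_nat_gt (12 * c)
  obtain ⟨K, hKd⟩ : ∃ K : ℕ, K = K0 + 1 := ⟨_, rfl⟩
  have hK : 1 ≤ K := by omega
  have hKc : 12 * c < K := by
    rw [hKd]; push_cast; linarith
  obtain ⟨q, hq⟩ : ∃ q : ℕ, 10 ^ 7 * K ^ 2 ≤ q := ⟨_, le_rfl⟩
  have hq0 : 0 < q := by
    have : 1 ≤ K ^ 2 := Nat.one_le_pow _ _ (by omega)
    omega
  have hqR : (0 : ℝ) < q := by exact_mod_cast hq0
  obtain ⟨R, hR⟩ : ∃ R : ℕ, R = 2 * (q * thr q K) ^ 2 := ⟨_, rfl⟩
  obtain ⟨k, hk⟩ := hUGC (1 / q) (1 / (R + 1)) (by positivity) (by positivity)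
  have hk0 : k ≠ 0 := by
    rintro rfl
    obtain ⟨f, -, hyes, -⟩ := hk Set.univ inNP_univ
    obtain ⟨-, -, a, -, -⟩ := hyes [] (Set.mem_univ _)
    exact (a 0).elim0
  obtain ⟨k', rfl⟩ : ∃ k', k = k' + 1 := ⟨k - 1, by omega⟩
  obtain ⟨f, hf, hyes, hno⟩ := hk L hL
  have hbase : ∀ x, f x ≠ [] ∧ ∀ c ∈ f x, IsUnique (k' + 1) c := by
    intro x
    by_cases hx : x ∈ L
    · exact ⟨(hyes x hx).1, (hyes x hx).2.1⟩
    · exact ⟨(hno x hx).1, (hno x hx).2.1⟩
  have hgap := fun x => gap k' q K hK hq (f x) (hbase x).1 (hbase x).2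
  choose n G hG hpos hY hN using hgap
  refine ⟨n, fun x => 12 * ((eds k' q (f x)).length * (eds k' q (f x)).length), G, ?_, ?_, ?_⟩
  · have hmid : PolyTime (fun y : List Bool => bits (redC k' q ((unbits (List Con) y).getD []))) :=
      polyTime_bits ((poly_redC k' q).comp (Poly.optGetD poly_unbits (Poly.const [])))
    have h1 := H642R2.TMSim.polyTime_comp hmid hf
    have h2 : (fun x => bits (redC k' q ((unbits (List Con) (bits (f x))).getD []))) =
        fun x => bits (adjMat (G x),
          12 * ((eds k' q (f x)).length * (eds k' q (f x)).length)) := by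
      funext x
      rw [unbits_bits, Option.getD_some, hG]
    rw [← h2]
    exact h1
  · intro x hx
    obtain ⟨-, -, a, b, hab⟩ := hyes x hx
    refine hY x a b ?_
    have h2 : (q : ℝ) * ((1 - 1 / q) * ((f x).length : ℝ)) ≤ q * (numSat a b (f x) : ℝ) :=
      mul_le_mul_of_nonneg_left hab hqR.le
    have h3 : (q : ℝ) * ((1 - 1 / q) * ((f x).length : ℝ)) =
        q * (f x).length - (f x).length := by
      field_simp
    rw [h3] at h2
    have h4 : (q : ℝ) * (f x).length ≤ q * numSat a b (f x) + (f x).length := by linarith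
    exact_mod_cast h4
  · intro x hx
    obtain ⟨-, -, hall⟩ := hno x hx
    have h1 : K * ((eds k' q (f x)).length * (eds k' q (f x)).length) ≤ cr (G x) := by
      refine hN x fun a b => ?_
      have h2 := hall a b
      have h3 : (0 : ℝ) < (f x).length := by
        exact_mod_cast List.length_pos_iff.2 (hbase x).1
      have h4 : (R : ℝ) * numSat a b (f x) < (f x).length := by
        have h5 : (R : ℝ) * numSat a b (f x) ≤ R * (1 / (R + 1) * (f x).length) :=
          mul_le_mul_of_nonneg_left h2 (Nat.cast_nonneg _)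
        have h6 : (R : ℝ) * (1 / (R + 1) * (f x).length) < (f x).length := by
          have h7 : (0 : ℝ) < R + 1 := by positivity
          rw [← mul_assoc, mul_one_div]
          have h8 : (R : ℝ) / (R + 1) < 1 := by
            rw [div_lt_one h7]; linarith
          nlinarith
        linarith
      rw [← hR]
      exact_mod_cast h4
    have h2 : (K : ℝ) * (((eds k' q (f x)).length : ℝ) * (eds k' q (f x)).length) ≤ cr (G x) := by
      exact_mod_cast h1
    have h3 : (0 : ℝ) < (eds k' q (f x)).length := by exact_mod_cast hpos x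
    push_cast
    calc c * (12 * (((eds k' q (f x)).length : ℝ) * (eds k' q (f x)).length))
        = (12 * c) * (((eds k' q (f x)).length : ℝ) * (eds k' q (f x)).length) := by ring
      _ < K * (((eds k' q (f x)).length : ℝ) * (eds k' q (f x)).length) :=
          mul_lt_mul_of_pos_right hKc (by positivity)
      _ ≤ cr (G x) := h2

/-- No approximation algorithm. -/
theorem no_algorithm (hUGC : UGC) (c : ℝ) (hP : PNeNP) :
    ¬ ∃ A : List Bool → List Bool, PolyTime A ∧ Approximates c A := by
  rintro ⟨A, hA, happ⟩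
  obtain ⟨L, hL, hnL⟩ := hP
  apply hnL
  show InP L
  obtain ⟨g, hg⟩ := exists_nat_ge c
  obtain ⟨n, t, G, hF, hY, hN⟩ := reduction hUGC g L hL
  have hmid : PolyTime (fun y : List Bool =>
      bits (((unbits (List (List Bool) × ℕ) y).getD ([], 0)).1)) :=
    polyTime_bits (Poly.fst (Poly.optGetD poly_unbits (Poly.const ([], 0))))
  have hF2 : PolyTime (fun x => A (bits (adjMat (G x)))) := by
    have h1 := H642R2.TMSim.polyTime_comp hA (H642R2.TMSim.polyTime_comp hmid hF)
    have h2 : (fun x => A (bits (((unbits (List (List Bool) × ℕ)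
        (bits (adjMat (G x), t x))).getD ([], 0)).1))) = fun x => A (bits (adjMat (G x))) := by
      funext x
      rw [unbits_bits]
      rfl
    rw [← h2]
    exact h1
  have hpc1 : PC (fun x : List Bool => x) (bits : List Bool → List Bool)
      (fun x => bits (adjMat (G x), t x)) :=
    PC.comp (g := fun x => x) (f := fun x => bits (adjMat (G x), t x)) PC.rawIn
        (H642R2.TMSim.polyTime_toPC hF)
  have hpc2 : PC (fun x : List Bool => x) (bits : List Bool → List Bool)
      (fun x => A (bits (adjMat (G x)))) := PC.comp (g := fun x => x)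
        (f := fun x => A (bits (adjMat (G x)))) PC.rawIn (H642R2.TMSim.polyTime_toPC hF2)
  have hpc3 : PC (fun x : List Bool => x) (bits : List Bool × List Bool → List Bool)
      (fun x => (bits (adjMat (G x), t x), A (bits (adjMat (G x))))) := by
    obtain ⟨c, p, hcp⟩ := PC.node (ea := fun x : List Bool => x)
      (f := fun x => toT (bits (adjMat (G x), t x))) (g := fun x => toT (A (bits (adjMat (G x)))))
      hpc1 hpc2
    exact ⟨c, p, hcp⟩
  let D : List Bool × List Bool → Bool := fun p =>
    decide ((unbits ℕ p.2).getD 0 ≤ g * ((unbits (List (List Bool) × ℕ) p.1).getD ([], 0)).2)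
  have hD : Poly D := by
    refine Poly.decide_le (Poly.optGetD (poly_unbits.comp (Poly.snd Poly.id)) (Poly.const 0))
      (Poly.mul (Poly.const g) (Poly.snd
        (Poly.optGetD (poly_unbits.comp (Poly.fst Poly.id)) (Poly.const ([], 0)))))
  have hpc4 : PC (fun x : List Bool => x) (fun x : List Bool => x)
      (fun x => [D (bits (adjMat (G x), t x), A (bits (adjMat (G x))))]) :=
    PC.comp (g := fun b => [b]) (f := fun x => D (bits (adjMat (G x), t x),
      A (bits (adjMat (G x))))) PC.rawBool (PC.comp (g := D)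
      (f := fun x => (bits (adjMat (G x), t x), A (bits (adjMat (G x))))) hD hpc3)
  refine ⟨_, PC.toPolyTime hpc4, fun x => ?_⟩
  obtain ⟨k, hk, hk1, hk2⟩ := happ (n x) (G x)
  simp only [D, hk, unbits_bits, Option.getD_some, List.cons.injEq, and_true, decide_eq_true_eq]
  constructor
  · intro hx
    have h1 := hY x hx
    have h2 : (k : ℝ) ≤ ((g * t x : ℕ) : ℝ) := by
      calc (k : ℝ) ≤ c * cr (G x) := hk2
        _ ≤ g * cr (G x) := mul_le_mul_of_nonneg_right hg (Nat.cast_nonneg _)
        _ ≤ g * t x := mul_le_mul_of_nonneg_left (by exact_mod_cast h1) (Nat.cast_nonneg _)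
        _ = ((g * t x : ℕ) : ℝ) := by push_cast; ring
    exact_mod_cast h2
  · intro hle
    by_contra hx
    have h1 := hN x hx
    have h2 : ((k : ℕ) : ℝ) ≤ ((g * t x : ℕ) : ℝ) := by exact_mod_cast hle
    have h3 : (cr (G x) : ℝ) ≤ k := by exact_mod_cast hk1
    push_cast at h2
    linarith

end Pool.Agent.NPC.CR694
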