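import Pool.Agent.TH694.CR.UG
import Pool.Agent.TH694.CR.Defs

/-!
# The reduction as a polynomial-time function
-/

set_option autoImplicit false

namespace Pool.Agent.NPC.CR694

open Pool.Agent.NPC Pool.Agent.NPC.H604 Pool.Agent.TH694.CR

/-- descriptors of vertices: tag, piece or number, handle, side, number -/
abbrev Dsc : Type := ℕ × ℕ × Bool × Bool × ℕ

/-- the default light edge -/
def dle : HD × HD := ((0, false), (0, false))

/-- the oriented adjacency of descriptors -/
def relD (N : ℕ) (l : List (HD × HD)) (x y : Dsc) : Bool :=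
  decide (x.1 = 2 ∧ y.1 = 1 ∧ x.2.1 = y.2.1 ∧ x.2.2.1 = y.2.2.1) ||
  (decide (x.1 = 2 ∧ y.1 = 0 ∧
    y.2.1 = if x.2.2.2.1 = true then (if x.2.1 = N then 0 else x.2.1 + 1) else x.2.1) ||
  decide (x.1 = 3 ∧ y.1 = 1 ∧ ((l.getD x.2.1 dle).1 = (y.2.1, y.2.2.1) ∨
    (l.getD x.2.1 dle).2 = (y.2.1, y.2.2.1))))

/-- both bits -/
def bb : List Bool := [false, true]

/-- the list of all descriptors -/
def dscs (N W M : ℕ) : List Dsc :=
  ((List.range (N + 1)).map fun p => (0, p, false, false, 0)) ++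
  (((List.range (N + 1) ×ˢ bb).map fun x => (1, x.1, x.2, false, 0)) ++
  (((List.range (N + 1) ×ˢ (bb ×ˢ (bb ×ˢ List.range W))).map fun x =>
    (2, x.1, x.2.1, x.2.2.1, x.2.2.2)) ++
  ((List.range M).map fun e => (3, e, false, false, 0))))

/-- the number of the real pieces -/
def nN (k' : ℕ) (cs : List Con) : ℕ := cs.length * 2 ^ (k' + 1)

/-- the list of the descriptors of an instance -/
noncomputable def dl' (k' q : ℕ) (cs : List Con) : List Dsc :=
  dscs (nN k' cs) (q * (eds k' q cs).length) (eds k' q cs).length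

/-- the matrix of the reduction -/
noncomputable def matC (k' q : ℕ) (cs : List Con) : List (List Bool) :=
  (dl' k' q cs).map fun x => (dl' k' q cs).map fun y =>
    relD (nN k' cs) (eds k' q cs) x y || relD (nN k' cs) (eds k' q cs) y x

/-- the reduction -/
noncomputable def redC (k' q : ℕ) (cs : List Con) : List (List Bool) × ℕ :=
  (matC k' q cs, 12 * ((eds k' q cs).length * (eds k' q cs).length))

section poly

variable {α : Type} [TEnc α]

theorem poly_cc' {f : α → List Con} {i : α → ℕ} (hf : Poly f) (hi : Poly i) :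
    Poly (fun a => cc (f a) (i a)) :=
  Poly.getD hf hi (Poly.const ((0, 0), []))

theorem poly_fstI (g : Con → ℕ) (hg : Poly g) {f : α → List Con} {u : α → ℕ} (hf : Poly f)
    (hu : Poly u) : Poly (fun a => fstI g (f a) (u a)) := by
  unfold fstI
  simp only [List.headD_eq_head?_getD]
  refine Poly.head?_getD (Poly.filter (p := fun a i => decide (g (cc (f a) i) = u a))
    (UPoly.length hf).range ?_) 0
  exact Poly.decide_eq (hg.comp (poly_cc' (hf.comp (Poly.fst Poly.id)) (Poly.snd Poly.id)))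
    (hu.comp (Poly.fst Poly.id))

theorem poly_eds (k' q : ℕ) : Poly (eds k' q) := by
  have hL : Poly gL := by unfold gL; fun_prop
  have hR : Poly gR := by unfold gR; fun_prop
  change Poly (fun cs : List Con => cs.flatMap fun c => (tab k' q).flatMap fun t =>
    if t.1.all (fun r => decide (r ∈ c.2)) = true then
      t.2.map (fun h : HD × HD => (((fstI gL cs c.1.1 * 2 ^ k' + h.1.1, h.1.2),
        ((cs.length + fstI gR cs c.1.2) * 2 ^ k' + h.2.1, h.2.2)) : HD × HD)) else [])
  refine Poly.flatMap (F := fun cs (c : Con) => (tab k' q).flatMap fun t =>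
    if t.1.all (fun r => decide (r ∈ c.2)) = true then
      t.2.map (fun h => ((fstI gL cs c.1.1 * 2 ^ k' + h.1.1, h.1.2),
        ((cs.length + fstI gR cs c.1.2) * 2 ^ k' + h.2.1, h.2.2))) else []) Poly.id ?_
  refine Poly.flatMap (l := fun _ : List Con × Con => tab k' q)
    (F := fun (x : List Con × Con) t =>
    if t.1.all (fun r => decide (r ∈ x.2.2)) = true then
      t.2.map (fun h => ((fstI gL x.1 x.2.1.1 * 2 ^ k' + h.1.1, h.1.2),
        ((x.1.length + fstI gR x.1 x.2.1.2) * 2 ^ k' + h.2.1, h.2.2))) else []) (Poly.const _) ?_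
  refine Poly.ite (Poly.decide_bool (Poly.all
    (l := fun x : (List Con × Con) × (List (ℕ × ℕ) × List (HD × HD)) => x.2.1)
    (p := fun (x : (List Con × Con) × (List (ℕ × ℕ) × List (HD × HD))) (r : ℕ × ℕ) =>
      decide (r ∈ x.1.2.2)) (Poly.fst (Poly.snd Poly.id)) ?_)) (Poly.map
    (F := fun (y : (List Con × Con) × (List (ℕ × ℕ) × List (HD × HD))) (h : HD × HD) =>
      ((fstI gL y.1.1 y.1.2.1.1 * 2 ^ k' + h.1.1, h.1.2),
        ((y.1.1.length + fstI gR y.1.1 y.1.2.1.2) * 2 ^ k' + h.2.1, h.2.2)))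
    (Poly.snd (Poly.snd Poly.id)) ?_) (Poly.const _)
  · exact Poly.dec_mem (Poly.snd Poly.id) (Poly.snd (Poly.snd (Poly.fst (Poly.fst Poly.id))))
  · have h1 : Poly (fun p : ((List Con × Con) × (List (ℕ × ℕ) × List (HD × HD))) × (HD × HD) =>
        fstI gL p.1.1.1 p.1.1.2.1.1) := poly_fstI gL hL
          (Poly.fst (Poly.fst (Poly.fst Poly.id)))
          (Poly.fst (Poly.fst (Poly.snd (Poly.fst (Poly.fst Poly.id)))))
    have h2 : Poly (fun p : ((List Con × Con) × (List (ℕ × ℕ) × List (HD × HD))) × (HD × HD) =>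
        fstI gR p.1.1.1 p.1.1.2.1.2) := poly_fstI gR hR
          (Poly.fst (Poly.fst (Poly.fst Poly.id)))
          (Poly.snd (Poly.fst (Poly.snd (Poly.fst (Poly.fst Poly.id)))))
    have h3 : Poly (fun p : ((List Con × Con) × (List (ℕ × ℕ) × List (HD × HD))) × (HD × HD) =>
        p.1.1.1.length) := Poly.length (Poly.fst (Poly.fst (Poly.fst Poly.id)))
    have h4 : Poly (fun p : ((List Con × Con) × (List (ℕ × ℕ) × List (HD × HD))) × (HD × HD) =>
        p.2) := Poly.snd Poly.id
    exact Poly.pair (Poly.pair (Poly.add (Poly.mul h1 (Poly.const _)) (Poly.fst (Poly.fst h4)))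
      (Poly.snd (Poly.fst h4))) (Poly.pair (Poly.add (Poly.mul (Poly.add h3 h2) (Poly.const _))
        (Poly.fst (Poly.snd h4))) (Poly.snd (Poly.snd h4)))

theorem poly_relD {n : α → ℕ} {l : α → List (HD × HD)} {x y : α → Dsc} (hn : Poly n) (hl : Poly l)
    (hx : Poly x) (hy : Poly y) : Poly (fun a => relD (n a) (l a) (x a) (y a)) := by
  have x1 := Poly.fst hx
  have x2 := Poly.fst (Poly.snd hx)
  have x3 := Poly.fst (Poly.snd (Poly.snd hx))
  have x4 := Poly.fst (Poly.snd (Poly.snd (Poly.snd hx)))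
  have y1 := Poly.fst hy
  have y2 := Poly.fst (Poly.snd hy)
  have y3 := Poly.fst (Poly.snd (Poly.snd hy))
  have hg : Poly (fun a => (l a).getD (x a).2.1 dle) := Poly.getD hl x2 (Poly.const dle)
  unfold relD
  refine Poly.or (Poly.decide_and (Poly.decide_eq x1 (Poly.const 2)) (Poly.decide_and
    (Poly.decide_eq y1 (Poly.const 1)) (Poly.decide_and (Poly.decide_eq x2 y2)
      (Poly.decide_eq x3 y3)))) (Poly.or (Poly.decide_and (Poly.decide_eq x1 (Poly.const 2))
      (Poly.decide_and (Poly.decide_eq y1 (Poly.const 0)) (Poly.decide_eq y2 ?_)))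
      (Poly.decide_and (Poly.decide_eq x1 (Poly.const 3)) (Poly.decide_and
      (Poly.decide_eq y1 (Poly.const 1)) (Poly.decide_or (Poly.decide_eq (Poly.fst hg)
        (Poly.pair y2 y3)) (Poly.decide_eq (Poly.snd hg) (Poly.pair y2 y3))))))
  exact Poly.ite (Poly.decide_bool x4) (Poly.ite (Poly.decide_eq x2 hn) (Poly.const 0)
    (Poly.add x2 (Poly.const 1))) x2

theorem uPoly_nN (k' : ℕ) : UPoly (nN k') :=
  UPoly.mul (UPoly.length Poly.id) (UPoly.const _)

theorem uPoly_M (k' q : ℕ) : UPoly (fun cs => (eds k' q cs).length) :=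
  UPoly.length (poly_eds k' q)

theorem poly_dl' (k' q : ℕ) : Poly (dl' k' q) := by
  have hN : Poly (fun cs : List Con => List.range (nN k' cs + 1)) :=
    (UPoly.add (uPoly_nN k') (UPoly.const 1)).range
  have hb : Poly (fun _ : List Con => bb) := Poly.const _
  have hW : Poly (fun cs : List Con => List.range (q * (eds k' q cs).length)) :=
    (UPoly.mul (UPoly.const q) (uPoly_M k' q)).range
  have hM : Poly (fun cs : List Con => List.range (eds k' q cs).length) := (uPoly_M k' q).range
  unfold dl' dscs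
  refine Poly.append (Poly.map (F := fun _ (p : ℕ) => ((0, p, false, false, 0) : Dsc)) hN ?_)
    (Poly.append (Poly.map (F := fun _ (x : ℕ × Bool) => ((1, x.1, x.2, false, 0) : Dsc))
      (R671.poly_product hN hb) ?_)
    (Poly.append (Poly.map (F := fun _ (x : ℕ × Bool × Bool × ℕ) =>
      ((2, x.1, x.2.1, x.2.2.1, x.2.2.2) : Dsc))
      (R671.poly_product hN (R671.poly_product hb (R671.poly_product hb hW))) ?_)
    (Poly.map (F := fun _ (e : ℕ) => ((3, e, false, false, 0) : Dsc)) hM ?_)))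
  · exact Poly.pair (Poly.const _) (Poly.pair (Poly.snd Poly.id) (Poly.const _))
  · exact Poly.pair (Poly.const _) (Poly.pair (Poly.fst (Poly.snd Poly.id))
      (Poly.pair (Poly.snd (Poly.snd Poly.id)) (Poly.const _)))
  · exact Poly.pair (Poly.const _) (Poly.snd Poly.id)
  · exact Poly.pair (Poly.const _) (Poly.pair (Poly.snd Poly.id) (Poly.const _))

theorem poly_matC (k' q : ℕ) : Poly (matC k' q) := by
  unfold matC
  refine Poly.map (F := fun cs x => (dl' k' q cs).map fun y =>
    relD (nN k' cs) (eds k' q cs) x y || relD (nN k' cs) (eds k' q cs) y x) (poly_dl' k' q) ?_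
  refine Poly.map (l := fun x : List Con × Dsc => dl' k' q x.1)
    (F := fun (x : List Con × Dsc) y => relD (nN k' x.1) (eds k' q x.1) x.2 y ||
      relD (nN k' x.1) (eds k' q x.1) y x.2) ((poly_dl' k' q).comp (Poly.fst Poly.id)) ?_
  have h0 : Poly (fun p : (List Con × Dsc) × Dsc => p.1.1) := Poly.fst (Poly.fst Poly.id)
  have h1 : Poly (fun p : (List Con × Dsc) × Dsc => nN k' p.1.1) :=
    (uPoly_nN k').toPoly.comp h0
  have h2 : Poly (fun p : (List Con × Dsc) × Dsc => eds k' q p.1.1) := (poly_eds k' q).comp h0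
  have h3 : Poly (fun p : (List Con × Dsc) × Dsc => p.1.2) := Poly.snd (Poly.fst Poly.id)
  have h4 : Poly (fun p : (List Con × Dsc) × Dsc => p.2) := Poly.snd Poly.id
  exact Poly.or (poly_relD h1 h2 h3 h4) (poly_relD h1 h2 h4 h3)

theorem poly_redC (k' q : ℕ) : Poly (redC k' q) :=
  Poly.pair (poly_matC k' q) (Poly.mul (Poly.const 12)
    (Poly.mul (uPoly_M k' q).toPoly (uPoly_M k' q).toPoly))

end poly

end Pool.Agent.NPC.CR694
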