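import Pool.Agent.TH694.CR.Core

/-!
# The dictatorship test for two functions
-/

set_option autoImplicit false

namespace Pool.Agent.TH694.CR

open Finset Pool.Agent.H562R2

/-- low-degree part -/
noncomputable def tr {X : Type} (D : ℕ) (c : Finset X → ℝ) (S : Finset X) : ℝ :=
  if S.card ≤ D then c S else 0

theorem wf_fc {X : Type} [Fintype X] [DecidableEq X] (f : (X → Bool) → ℝ) (x : X → Bool) :
    wf (fc f) x = f x := (fc_inv f x).symm

theorem sum_fc_sq {X : Type} [Fintype X] [DecidableEq X] (f : (X → Bool) → ℝ)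
    (hf : ∀ x, f x ^ 2 = 1) : ∑ S, fc f S ^ 2 = 1 := by
  have h := parseval f f
  rw [← av_def] at h
  have e1 : (fun x => f x * f x) = fun _ => (1 : ℝ) := by
    funext x; rw [← sq, hf]
  rw [e1, av_const] at h
  rw [← h]
  exact sum_congr rfl fun S _ => sq _

theorem fc_empty {X : Type} [Fintype X] [DecidableEq X] (f : (X → Bool) → ℝ) :
    fc f ∅ = av f := by
  rw [fc, av_def]; simp

/-- upper bound for powers -/
theorem pow_le_inv (q s : ℕ) (hq : 2 ≤ q) :
    (1 - 2 / (q : ℝ)) ^ s * (1 + s * (2 / (q : ℝ))) ≤ 1 := by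
  have hq' : (2 : ℝ) ≤ q := by exact_mod_cast hq
  have hx0 : 0 ≤ 2 / (q : ℝ) := by positivity
  have hx1 : 2 / (q : ℝ) ≤ 1 := by rw [div_le_one (by linarith)]; exact hq'
  set x := 2 / (q : ℝ)
  have h1 : 1 + s * x ≤ (1 + x) ^ s := one_add_mul_le_pow (by linarith) s
  calc (1 - x) ^ s * (1 + s * x) ≤ (1 - x) ^ s * (1 + x) ^ s :=
        mul_le_mul_of_nonneg_left h1 (pow_nonneg (by linarith) _)
    _ = (1 - x ^ 2) ^ s := by rw [← mul_pow]; congr 1; ring
    _ ≤ 1 := pow_le_one₀ (by nlinarith) (by nlinarith)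

theorem one_sub_pow_low (q s : ℕ) (hq : 4 ≤ q) (hs : s ≤ q / 4) :
    (s : ℝ) / q ≤ 1 - (1 - 2 / (q : ℝ)) ^ s := by
  have hq0 : (0 : ℝ) < q := by exact_mod_cast (by omega : 0 < q)
  have h := pow_le_inv q s (by omega)
  have hs' : (4 : ℝ) * s ≤ q := by exact_mod_cast (by omega : 4 * s ≤ q)
  have e : (s : ℝ) * (2 / q) = 2 * (s / q) := by ring
  rw [e] at h
  have hy0 : 0 ≤ (s : ℝ) / q := by positivity
  have hy : (s : ℝ) / q ≤ 1 / 4 := by rw [div_le_div_iff₀ hq0 (by norm_num)]; linarith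
  set y := (s : ℝ) / q
  set z := (1 - 2 / (q : ℝ)) ^ s
  by_contra hc
  push Not at hc
  nlinarith

theorem one_sub_pow_high (q s : ℕ) (hq : 4 ≤ q) (hs : q / 4 < s) :
    1 / 3 ≤ 1 - (1 - 2 / (q : ℝ)) ^ s := by
  have hq0 : (0 : ℝ) < q := by exact_mod_cast (by omega : 0 < q)
  have h := pow_le_inv q s (by omega)
  have hs' : (q : ℝ) ≤ 4 * s := by exact_mod_cast (by omega : q ≤ 4 * s)
  have e : (s : ℝ) * (2 / q) = 2 * (s / q) := by ring
  rw [e] at h
  have hy : 1 / 4 ≤ (s : ℝ) / q := by rw [div_le_div_iff₀ (by norm_num) hq0]; linarith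
  set y := (s : ℝ) / q
  have hz0 : 0 ≤ (1 - 2 / (q : ℝ)) ^ s := by
    apply pow_nonneg
    have : 2 / (q : ℝ) ≤ 1 := by
      rw [div_le_one hq0]; exact_mod_cast (by omega : 2 ≤ q)
    linarith
  set z := (1 - 2 / (q : ℝ)) ^ s
  nlinarith

theorem pow_low (q s : ℕ) (hq : 4 ≤ q) (hs : s ≤ q / 4) :
    1 / 2 ≤ (1 - 2 / (q : ℝ)) ^ s := by
  have hq0 : (0 : ℝ) < q := by exact_mod_cast (by omega : 0 < q)
  have hs' : (4 : ℝ) * s ≤ q := by exact_mod_cast (by omega : 4 * s ≤ q)
  have hx1 : 2 / (q : ℝ) ≤ 1 := by rw [div_le_one hq0]; exact_mod_cast (by omega : 2 ≤ q)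
  have h1 := one_add_mul_le_pow (show (-2 : ℝ) ≤ -(2 / (q : ℝ)) by linarith) s
  have e : (1 : ℝ) + -(2 / (q : ℝ)) = 1 - 2 / q := by ring
  rw [e] at h1
  refine le_trans ?_ h1
  have : (s : ℝ) * (2 / q) ≤ 1 / 2 := by
    rw [mul_div_assoc', div_le_div_iff₀ hq0 (by norm_num)]; linarith
  linarith

/-- If two balanced `±1`-valued functions on the cube are strongly correlated under small noise, they
have a common influential coordinate. -/
theorem common {n : ℕ} (q : ℕ) (hq : 4 ≤ q) (η τ : ℝ) (hη : 0 < η) (hτ : 0 < τ)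
    (h1 : 15 * η ≤ 1 / 32) (h2 : 16 * (15 * η) * (2 * η * q) < 1 / 1024)
    (h3 : 64 * 9 ^ (q / 4) * (τ * (2 * η * q)) < 1 / 1024)
    (f g : (Fin n → Bool) → ℝ) (hf : ∀ x, f x ^ 2 = 1) (hg : ∀ x, g x ^ 2 = 1) (hf0 : av f = 0)
    (H : 1 - η ≤ ∑ S, (1 - 2 / (q : ℝ)) ^ S.card * (fc f S * fc g S)) :
    ∃ i, τ / (4 * q) ≤ inf i (tr (q / 4) (fc f)) ∧ τ / (4 * q) ≤ inf i (tr (q / 4) (fc g)) := by
  classical
  by_contra hcon
  push Not at hcon
  set a := fc f with ha
  set b := fc g with hb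
  set D := q / 4 with hD
  set ρ : ℝ := 1 - 2 / (q : ℝ) with hρ
  have hq0 : (0 : ℝ) < q := by exact_mod_cast (by omega : 0 < q)
  have hq4 : (4 : ℝ) ≤ q := by exact_mod_cast hq
  have ha1 : ∑ S, a S ^ 2 = 1 := sum_fc_sq f hf
  have hb1 : ∑ S, b S ^ 2 = 1 := sum_fc_sq g hg
  have hρ0 : 0 ≤ ρ := by
    have : 2 / (q : ℝ) ≤ 1 := by rw [div_le_one hq0]; linarith
    simp only [hρ]; linarith
  have hρ1 : ρ ≤ 1 := by
    have : 0 ≤ 2 / (q : ℝ) := by positivity
    simp only [hρ]; linarith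
  have hpow : ∀ s : ℕ, 0 ≤ 1 - ρ ^ s := fun s => by
    have := pow_le_one₀ (n := s) hρ0 hρ1; linarith
  -- the two basic consequences
  have key1 : ∑ S, (1 - ρ ^ S.card) * a S ^ 2 ≤ 2 * η := by
    have hbn : 0 ≤ ∑ S, (1 - ρ ^ S.card) * b S ^ 2 :=
      sum_nonneg fun S _ => mul_nonneg (hpow _) (sq_nonneg _)
    have e1 : ∑ S, ρ ^ S.card * (a S * b S) ≤
        ∑ S, (1 / 2 : ℝ) * (ρ ^ S.card * (a S ^ 2 + b S ^ 2)) := by
      refine sum_le_sum fun S _ => ?_
      have : 0 ≤ ρ ^ S.card * (a S - b S) ^ 2 := mul_nonneg (pow_nonneg hρ0 _) (sq_nonneg _)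
      nlinarith
    have e2 : ∑ S, (1 / 2 : ℝ) * (ρ ^ S.card * (a S ^ 2 + b S ^ 2)) =
        (1 / 2) * ((∑ S, a S ^ 2 - ∑ S, (1 - ρ ^ S.card) * a S ^ 2) +
          (∑ S, b S ^ 2 - ∑ S, (1 - ρ ^ S.card) * b S ^ 2)) := by
      rw [← sum_sub_distrib, ← sum_sub_distrib, ← sum_add_distrib, mul_sum]
      exact sum_congr rfl fun S _ => by ring
    rw [ha1, hb1] at e2
    linarith
  have key2 : ∑ S, ρ ^ S.card * (a S - b S) ^ 2 ≤ 2 * η := by
    have e1 : ∑ S, ρ ^ S.card * (a S - b S) ^ 2 =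
        ∑ S, ρ ^ S.card * a S ^ 2 + ∑ S, ρ ^ S.card * b S ^ 2 -
          2 * ∑ S, ρ ^ S.card * (a S * b S) := by
      rw [mul_sum, ← sum_add_distrib, ← sum_sub_distrib]
      exact sum_congr rfl fun S _ => by ring
    have e2 : ∀ c : Finset (Fin n) → ℝ, ∑ S, ρ ^ S.card * c S ^ 2 ≤ ∑ S, c S ^ 2 := fun c =>
      sum_le_sum fun S _ => by
        have := pow_le_one₀ (n := S.card) hρ0 hρ1
        nlinarith [sq_nonneg (c S)]
    have e3 := e2 a
    have e4 := e2 b
    rw [ha1] at e3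
    rw [hb1] at e4
    linarith
  have hIa : ∑ i, inf i (tr D a) ≤ 2 * η * q := by
    rw [sum_inf]
    have : ∑ S, (S.card : ℝ) * tr D a S ^ 2 ≤ ∑ S, q * ((1 - ρ ^ S.card) * a S ^ 2) := by
      refine sum_le_sum fun S _ => ?_
      unfold tr
      split_ifs with hS
      · have h := one_sub_pow_low q S.card hq hS
        rw [div_le_iff₀ hq0] at h
        have := mul_le_mul_of_nonneg_right h (sq_nonneg (a S))
        calc (S.card : ℝ) * a S ^ 2 ≤ (1 - ρ ^ S.card) * q * a S ^ 2 := this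
          _ = _ := by ring
      · have := mul_nonneg hq0.le (mul_nonneg (hpow S.card) (sq_nonneg (a S)))
        simpa using this
    refine this.trans ?_
    rw [← mul_sum]
    nlinarith
  have hhigh : ∑ S, (if S.card ≤ D then 0 else a S ^ 2) ≤ 6 * η := by
    have : ∑ S, (if S.card ≤ D then 0 else a S ^ 2) ≤ ∑ S, 3 * ((1 - ρ ^ S.card) * a S ^ 2) := by
      refine sum_le_sum fun S _ => ?_
      split_ifs with hS
      · exact mul_nonneg (by norm_num) (mul_nonneg (hpow S.card) (sq_nonneg (a S)))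
      · have h := one_sub_pow_high q S.card hq (by omega)
        nlinarith [sq_nonneg (a S)]
    refine this.trans ?_
    rw [← mul_sum]
    linarith
  have hdiff : ∑ S : Finset (Fin n), (if S.card ≤ D then (a S - b S) ^ 2 else 0) ≤ 4 * η := by
    have : ∑ S : Finset (Fin n), (if S.card ≤ D then (a S - b S) ^ 2 else 0) ≤
        ∑ S, 2 * (ρ ^ S.card * (a S - b S) ^ 2) := by
      refine sum_le_sum fun S _ => ?_
      split_ifs with hS
      · have h := pow_low q S.card hq hS
        nlinarith [sq_nonneg (a S - b S)]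
      · exact mul_nonneg (by norm_num) (mul_nonneg (pow_nonneg hρ0 _) (sq_nonneg _))
    refine this.trans ?_
    rw [← mul_sum]
    linarith
  -- the set of influential coordinates of `f`
  set A : Finset (Fin n) := univ.filter fun i => τ ≤ inf i (tr D a) with hA
  have hcard : A.card * τ ≤ 2 * η * q := by
    calc A.card * τ = ∑ i ∈ A, τ := by rw [sum_const, nsmul_eq_mul]
      _ ≤ ∑ i ∈ A, inf i (tr D a) := sum_le_sum fun i hi => (mem_filter.1 hi).2
      _ ≤ ∑ i, inf i (tr D a) := sum_le_sum_of_subset_of_nonneg (subset_univ _)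
          fun i _ _ => inf_nonneg _ _
      _ ≤ _ := hIa
  have hbA : ∑ i ∈ A, inf i (tr D b) ≤ η / 2 := by
    have h5 : ∀ i ∈ A, inf i (tr D b) ≤ τ / (4 * q) := by
      intro i hi
      refine (hcon i ?_).le
      refine le_trans ?_ (mem_filter.1 hi).2
      apply div_le_self hτ.le
      linarith
    calc ∑ i ∈ A, inf i (tr D b) ≤ ∑ i ∈ A, τ / (4 * q) := sum_le_sum h5
      _ = (A.card * τ) / (4 * q) := by rw [sum_const, nsmul_eq_mul]; ring
      _ ≤ (2 * η * q) / (4 * q) := div_le_div_of_nonneg_right hcard (by positivity)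
      _ = η / 2 := by field_simp; norm_num
  let c : Finset (Fin n) → ℝ := fun S => if Disjoint S A then tr D a S else 0
  have hcD : ∀ S, D < S.card → c S = 0 := by
    intro S hS
    simp only [c, tr]
    rw [if_neg (not_le.2 hS)]
    simp
  have hinf : ∀ i, inf i c ≤ inf i (tr D a) := by
    intro i
    unfold inf
    refine sum_le_sum fun S _ => ?_
    simp only [c]
    split_ifs
    · exact le_rfl
    · rw [zero_pow two_ne_zero]; exact sq_nonneg _
    · exact le_rfl
  have hinfτ : ∀ i, inf i c ≤ τ := by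
    intro i
    by_cases hi : i ∈ A
    · have : inf i c = 0 := by
        unfold inf
        refine sum_eq_zero fun S _ => ?_
        split_ifs with hS
        · simp only [c]
          rw [if_neg, zero_pow two_ne_zero]
          intro hd
          exact disjoint_left.1 hd hS hi
        · rfl
      rw [this]; exact hτ.le
    · have : ¬ τ ≤ inf i (tr D a) := fun h => hi (mem_filter.2 ⟨mem_univ _, h⟩)
      exact (hinf i).trans (not_le.1 this).le
  have hcI : ∑ i, inf i c ≤ 2 * η * q := (sum_le_sum fun i _ => hinf i).trans hIa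
  have hδ : av (fun x => (wf c x - f x) ^ 2) ≤ 15 * η := by
    have e1 : (fun x => (wf c x - f x) ^ 2) = fun x => wf (fun S => c S - a S) x ^ 2 := by
      funext x
      congr 1
      rw [← wf_fc f x]
      unfold wf
      rw [← sum_sub_distrib]
      exact sum_congr rfl fun S _ => by ring
    rw [e1, av_wf_sq]
    have e2 : ∀ S, (c S - a S) ^ 2 ≤ (if S.card ≤ D then 0 else a S ^ 2) +
        (2 * (if S.card ≤ D then (a S - b S) ^ 2 else 0) +
          2 * ∑ i ∈ A, if i ∈ S then tr D b S ^ 2 else 0) := by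
      intro S
      have hn : 0 ≤ ∑ i ∈ A, if i ∈ S then tr D b S ^ 2 else 0 :=
        sum_nonneg fun i _ => by split_ifs <;> positivity
      by_cases hS : S.card ≤ D
      · rw [if_pos hS, if_pos hS]
        by_cases hd : Disjoint S A
        · have : c S = a S := by simp only [c, tr]; rw [if_pos hd, if_pos hS]
          rw [this]
          nlinarith [sq_nonneg (a S - b S)]
        · have : c S = 0 := by simp only [c]; rw [if_neg hd]
          rw [this]
          rw [not_disjoint_iff] at hd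
          obtain ⟨i, hiS, hiA⟩ := hd
          have h6 : b S ^ 2 ≤ ∑ i ∈ A, if i ∈ S then tr D b S ^ 2 else 0 := by
            have h7 := single_le_sum (f := fun i => if i ∈ S then tr D b S ^ 2 else 0)
              (fun i _ => by split_ifs <;> positivity) hiA
            simp only [hiS, if_true] at h7
            have h8 : tr D b S = b S := by unfold tr; rw [if_pos hS]
            rw [h8] at h7
            simpa [h8] using h7
          nlinarith [sq_nonneg (a S - 2 * b S)]
      · rw [if_neg hS, if_neg hS]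
        have : c S = 0 := hcD S (not_le.1 hS)
        rw [this]
        nlinarith
    refine (sum_le_sum fun S _ => e2 S).trans ?_
    rw [sum_add_distrib, sum_add_distrib, ← mul_sum, ← mul_sum, sum_comm]
    have e3 : ∑ i ∈ A, ∑ S, (if i ∈ S then tr D b S ^ 2 else 0) = ∑ i ∈ A, inf i (tr D b) := rfl
    rw [e3]
    linarith
  exact core c f D τ (2 * η * q) (15 * η) hcD hinfτ hcI hf hf0 hδ h1 h2 h3

end Pool.Agent.TH694.CR
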