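import Pool.Agent.TH694.CR.Defs

/-!
# The parity argument on the thin necklace
-/

set_option autoImplicit false

namespace Pool.Agent.TH694.CR

open Finset

/-- the vertices of the thin necklace: junctions and handles -/
inductive TV (N : ℕ) : Type
  | jn (p : Fin (N + 1))
  | hd (u : Hd N)

/-- the junction on the side `s` of the piece `p` -/
def J {N : ℕ} (p : Fin (N + 1)) (s : Bool) : Fin (N + 1) := if s then p + 1 else p

section

variable {N : ℕ}

theorem z2_add_self (x : ZMod 2) : x + x = 0 := by
  have two : (2 : ZMod 2) = 0 := rfl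
  rw [← two_mul, two, zero_mul]

theorem sum_bool (f : Bool → ZMod 2) : ∑ s, f s = f true + f false := by
  rw [Fintype.sum_bool]

/-- the boundary of a closed curve around the necklace vanishes -/
theorem bd_closed (β : Fin (N + 1) → Bool) (g : TV N → ZMod 2) :
    ∑ p, ∑ s, (g (.hd (p, β p)) + g (.jn (J p s))) = 0 := by
  have h1 : ∀ p, ∑ s, (g (.hd (p, β p)) + g (.jn (J p s))) =
      g (.jn (p + 1)) + g (.jn p) := by
    intro p
    rw [sum_bool]
    simp only [J, if_true, Bool.false_eq_true, if_false]
    have := z2_add_self (g (.hd (p, β p)))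
    linear_combination this
  have h2 := Equiv.sum_comp (Equiv.addRight (1 : Fin (N + 1))) (fun p => g (.jn p))
  simp only [Equiv.coe_addRight] at h2
  rw [sum_congr rfl fun p _ => h1 p, sum_add_distrib, h2]
  exact z2_add_self _

/-- the boundary of the two sides of a piece vanishes -/
theorem bd_piece (j : Fin (N + 1)) (g : TV N → ZMod 2) :
    ∑ b, ∑ s, (g (.hd (j, b)) + g (.jn (J j s))) = 0 := by
  rw [sum_bool, sum_bool, sum_bool]
  have h1 := z2_add_self (g (.hd (j, true)))
  have h2 := z2_add_self (g (.hd (j, false)))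
  have h3 := z2_add_self (g (.jn (J j true)))
  have h4 := z2_add_self (g (.jn (J j false)))
  linear_combination h1 + h2 + h3 + h4

/-- the relation of two curves -/
def Rl {N : ℕ} (o : TV N → TV N → ZMod 2) (m m' : TV N → ZMod 2) (a b c d : TV N) : Prop :=
  m c + m d + m' a + m' b = o a c + o a d + o b c + o b d

variable (m : Fin (N + 1) → Bool → Bool → TV N → ZMod 2)

/-- winding number of the closed curve with choice `β` -/
def nb (β : Fin (N + 1) → Bool) (v : TV N) : ZMod 2 := ∑ p, ∑ s, m p (β p) s v

/-- winding number of the boundary of a piece -/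
def nC (j : Fin (N + 1)) (v : TV N) : ZMod 2 := ∑ b, ∑ s, m j b s v

variable {m} {o : TV N → TV N → ZMod 2}

/-- `T` is a sum of thin edges with boundary `x, y`; relation with a single curve -/
theorem sum_rel {ι : Type*} (T : Finset ι) (a b : ι → TV N) (mm : ι → TV N → ZMod 2)
    (c d : TV N) (m' : TV N → ZMod 2) (h : ∀ i ∈ T, Rl o (mm i) m' (a i) (b i) c d)
    (x y : TV N) (hb : ∀ g : TV N → ZMod 2, ∑ i ∈ T, (g (a i) + g (b i)) = g x + g y) :
    Rl o (fun v => ∑ i ∈ T, mm i v) m' x y c d := by
  unfold Rl at h ⊢
  have h1 := sum_congr (rfl : T = T) h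
  have e1 : ∑ i ∈ T, (mm i c + mm i d + m' (a i) + m' (b i)) =
      ∑ i ∈ T, mm i c + ∑ i ∈ T, mm i d + ∑ i ∈ T, (m' (a i) + m' (b i)) := by
    rw [← sum_add_distrib, ← sum_add_distrib]
    exact sum_congr rfl fun i _ => by ring
  have e2 : ∑ i ∈ T, (o (a i) c + o (a i) d + o (b i) c + o (b i) d) =
      ∑ i ∈ T, ((fun v => o v c) (a i) + (fun v => o v c) (b i)) +
      ∑ i ∈ T, ((fun v => o v d) (a i) + (fun v => o v d) (b i)) := by
    rw [← sum_add_distrib]
    exact sum_congr rfl fun i _ => by ring
  rw [e1, e2, hb, hb (fun v => o v c), hb (fun v => o v d)] at h1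
  linear_combination h1


theorem J_ne (hN : 2 ≤ N) {p : Fin (N + 1)} : p + 1 ≠ p ∧ p + 1 + 1 ≠ p := by
  have h1 : (1 : Fin (N + 1)) ≠ 0 := by
    intro h
    have := congrArg Fin.val h
    rw [Fin.val_one', Fin.val_zero, Nat.mod_eq_of_lt (by omega)] at this
    omega
  have h2 : (1 : Fin (N + 1)) + 1 ≠ 0 := by
    intro h
    have := congrArg Fin.val h
    rw [Fin.val_add, Fin.val_one', Fin.val_zero, Nat.mod_eq_of_lt (show 1 < N + 1 by omega),
      Nat.mod_eq_of_lt (by omega)] at this
    omega
  constructor
  · intro h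
    exact h1 (add_left_cancel (h.trans (add_zero p).symm))
  · intro h
    rw [add_assoc] at h
    exact h2 (add_left_cancel (h.trans (add_zero p).symm))

/-- all relations of vertex-disjoint thin edges -/
def Thin (o : TV N → TV N → ZMod 2) (m : Fin (N + 1) → Bool → Bool → TV N → ZMod 2) : Prop :=
  ∀ p b s p' b' s', (p, b) ≠ (p', b') → J p s ≠ J p' s' →
    Rl o (m p b s) (m p' b' s') (.hd (p, b)) (.jn (J p s)) (.hd (p', b')) (.jn (J p' s'))

theorem nC_edge (H : Thin o m) {j q : Fin (N + 1)} (b s : Bool) (hq : q ≠ j)
    (h1 : J q s ≠ j) (h2 : J q s ≠ j + 1) :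
    nC m j (.hd (q, b)) = nC m j (.jn (J q s)) := by
  have h := sum_rel (o := o) (univ : Finset (Bool × Bool)) (fun i => .hd (j, i.1))
    (fun i => .jn (J j i.2)) (fun i => m j i.1 i.2) (.hd (q, b)) (.jn (J q s)) (m q b s)
    (fun i _ => H j i.1 i.2 q b s (fun h => hq (congrArg Prod.fst h).symm) (by
      unfold J
      rcases i with ⟨b', s'⟩
      cases s'
      · simpa using fun h => h1 h.symm
      · simpa using fun h => h2 h.symm)) (.jn j) (.jn j) (fun g => by
        rw [z2_add_self, Fintype.sum_prod_type]
        exact bd_piece j g)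
  unfold Rl at h
  simp only [Fintype.sum_prod_type] at h
  have e1 := z2_add_self (m q b s (.jn j))
  have e2 := z2_add_self (o (.jn j) (.hd (q, b)))
  have e3 := z2_add_self (o (.jn j) (.jn (J q s)))
  have e4 := z2_add_self (nC m j (.jn (J q s)))
  unfold nC at e4 ⊢
  linear_combination h - e1 + e2 + e3 - e4

/-- the winding number of a piece is constant outside the piece -/
theorem nC_const (hN : 2 ≤ N) (H : Thin o m) (j q : Fin (N + 1)) (b : Bool) (hq : q ≠ j) :
    nC m j (.hd (q, b)) = nC m j (.jn (j + 1 + 1)) := by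
  have base : ∀ b, nC m j (.hd (j + 1, b)) = nC m j (.jn (j + 1 + 1)) := by
    intro b
    have h1 := nC_edge H (j := j) (q := j + 1) b true (J_ne hN).1
        (by simpa [J] using (J_ne hN (p := j)).2) (by simpa [J] using (J_ne hN (p := j + 1)).1)
    rw [h1]; simp [J]
  have key : ∀ k : Fin (N + 1), ∀ b, j + 1 + k ≠ j → nC m j (.hd (j + 1 + k, b)) =
      nC m j (.jn (j + 1 + 1)) := by
    intro k
    induction k using Fin.induction with
    | zero =>
      intro b _
      rw [add_zero]
      exact base b
    | succ i ih =>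
      intro b hne
      have e0 : j + 1 + i.succ = (j + 1 + i.castSucc) + 1 := by
        rw [← Fin.coeSucc_eq_succ, add_assoc, add_assoc, add_assoc]
      rw [e0] at hne ⊢
      by_cases a1 : j + 1 + i.castSucc = j
      · rw [a1]; exact base b
      · rw [← ih b a1]
        have a3 : j + 1 + i.castSucc + 1 ≠ j + 1 := fun h => a1 (add_right_cancel h)
        have h1 := nC_edge H (j := j) (q := j + 1 + i.castSucc) b true a1 (by simpa [J] using hne)
          (by simpa [J] using a3)
        have h2 := nC_edge H (j := j) (q := j + 1 + i.castSucc + 1) b false hne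
          (by simpa [J] using hne) (by simpa [J] using a3)
        simp only [J, if_true, Bool.false_eq_true, if_false] at h1 h2
        rw [h1, h2]
  have h := key (q - (j + 1)) b
  rw [add_sub_cancel] at h
  exact h hq

/-- a closed curve and a curve disjoint from it -/
theorem nb_edge (β : Fin (N + 1) → Bool) (x y : TV N) (m' : TV N → ZMod 2)
    (h : ∀ p s, Rl o (m p (β p) s) m' (.hd (p, β p)) (.jn (J p s)) x y) :
    nb m β x = nb m β y := by
  have h := sum_rel (o := o) (univ : Finset (Fin (N + 1) × Bool)) (fun i => .hd (i.1, β i.1))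
    (fun i => .jn (J i.1 i.2)) (fun i => m i.1 (β i.1) i.2) x y m'
    (fun i _ => h i.1 i.2) (.jn 0) (.jn 0) (fun g => by
        rw [z2_add_self, Fintype.sum_prod_type]
        exact bd_closed β g)
  unfold Rl at h
  simp only [Fintype.sum_prod_type] at h
  have e1 := z2_add_self (m' (.jn 0))
  have e2 := z2_add_self (o (.jn 0) x)
  have e3 := z2_add_self (o (.jn 0) y)
  have e4 := z2_add_self (nb m β y)
  unfold nb at e4 ⊢
  linear_combination h - e1 + e2 + e3 - e4

/-- sums over the pieces other than `j`, `j + 1` -/
theorem sum_rest {R : Type*} [AddCommGroup R] (hN : 2 ≤ N) (j : Fin (N + 1))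
    (g : Fin (N + 1) → R) :
    ∑ q ∈ univ.filter (fun q => q ≠ j ∧ q ≠ j + 1), g q = ∑ q, g q - g j - g (j + 1) := by
  have h1 : (univ.filter fun q => q ≠ j ∧ q ≠ j + 1) = (univ.erase j).erase (j + 1) := by
    ext q
    simp only [mem_filter, mem_univ, true_and, mem_erase, ne_eq, and_true]
    exact and_comm
  rw [h1, ← add_sum_erase univ g (mem_univ j),
    ← add_sum_erase (univ.erase j) g (mem_erase.2 ⟨(J_ne hN).1, mem_univ (j + 1)⟩)]
  abel

/-- **Theta lemma**: of the three paths between the ends of a piece exactly one, or all three, are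
in the middle. -/
theorem theta (hN : 2 ≤ N) (ho : ∀ x y, x ≠ y → o x y + o y x = 1) (H : Thin o m)
    (j : Fin (N + 1)) :
    nC m j (.jn (j + 1 + 1)) + nb m (fun _ => true) (.hd (j, false)) +
      (nb m (fun _ => true) (.hd (j, true)) + nC m j (.hd (j, true))) = 1 := by
  have n1 := (J_ne hN (p := j)).1
  have n2 := (J_ne hN (p := j)).2
  have n3 := (J_ne hN (p := j + 1)).1
  -- the relations
  have r1 : Rl o (m j false false) (m j true true) (.hd (j, false)) (.jn j)
      (.hd (j, true)) (.jn (j + 1)) := by
    simpa [J] using H j false false j true true (by simp) (by simpa [J] using n1.symm)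
  have r2 : Rl o (m j false true) (m j true false) (.hd (j, false)) (.jn (j + 1))
      (.hd (j, true)) (.jn j) := by
    simpa [J] using H j false true j true false (by simp) (by simpa [J] using n1)
  have R2 : ∀ b, Rl o (fun v => ∑ s, m (j + 1) true s v) (m j b false)
      (.jn (j + 1)) (.jn (j + 1 + 1)) (.hd (j, b)) (.jn j) := by
    intro b
    refine sum_rel (univ : Finset Bool) (fun _ => .hd (j + 1, true)) (fun s => .jn (J (j + 1) s))
      (fun s => m (j + 1) true s) _ _ _ (fun s _ => ?_) _ _ (fun g => ?_)
    · have := H (j + 1) true s j b false (fun h => n1 (congrArg Prod.fst h)) (by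
        cases s
        · simpa [J] using n1
        · simpa [J] using n2)
      simpa [J] using this
    · rw [sum_bool]
      simp only [J, if_true, Bool.false_eq_true, if_false]
      have := z2_add_self (g (.hd (j + 1, true)))
      linear_combination this
  have R1 : ∀ b, Rl o (fun v => ∑ q ∈ univ.filter (fun q => q ≠ j ∧ q ≠ j + 1),
      ∑ s, m q true s v) (m j b true)
      (.jn j) (.jn (j + 1 + 1)) (.hd (j, b)) (.jn (j + 1)) := by
    intro b
    have := sum_rel (o := o) ((univ.filter (fun q : Fin (N + 1) => q ≠ j ∧ q ≠ j + 1)) ×ˢ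
      (univ : Finset Bool)) (fun i => .hd (i.1, true)) (fun i => .jn (J i.1 i.2))
      (fun i => m i.1 true i.2) (.hd (j, b)) (.jn (j + 1)) (m j b true) (fun i hi => ?_)
      (.jn j) (.jn (j + 1 + 1)) (fun g => ?_)
    · simpa only [sum_product] using this
    · obtain ⟨q, s⟩ := i
      simp only [mem_product, mem_filter, mem_univ, true_and, and_true] at hi
      have := H q true s j b true (fun h => hi.1 (congrArg Prod.fst h)) (by
        cases s
        · simpa [J] using hi.2
        · simpa [J] using hi.1)
      simpa [J] using this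
    · rw [sum_product, sum_rest hN j (fun q => ∑ s, (g (.hd (q, true)) + g (.jn (J q s)))),
        bd_closed (fun _ => true) g, sum_bool, sum_bool]
      simp only [J, if_true, Bool.false_eq_true, if_false]
      have h1 := z2_add_self (g (.hd (j, true)))
      have h2 := z2_add_self (g (.hd (j + 1, true)))
      have h3 := z2_add_self (g (.jn (j + 1)))
      have h4 := z2_add_self (g (.jn j))
      have h5 := z2_add_self (g (.jn (j + 1 + 1)))
      linear_combination -h1 - h2 - h3 - h4 - h5
  have R1f := R1 false
  have R1t := R1 true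
  have R2f := R2 false
  have R2t := R2 true
  unfold Rl at r1 r2 R1f R1t R2f R2t
  simp only [sum_rest hN j, sum_bool] at R1f R1t R2f R2t
  have o1 := ho (.jn j) (.jn (j + 1)) (by simpa using n1.symm)
  have o2 := ho (.jn j) (.hd (j, false)) (by simp)
  have o3 := ho (.jn (j + 1)) (.hd (j, false)) (by simp)
  unfold nC nb
  simp only [sum_bool]
  generalize ∑ x, (m x true true (TV.hd (j, false)) + m x true false (TV.hd (j, false))) = s1 at *
  generalize ∑ x, (m x true true (TV.hd (j, true)) + m x true false (TV.hd (j, true))) = s2 at *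
  have e := congrArg₂ (· + ·) (congrArg₂ (· + ·) (congrArg₂ (· + ·) r1 r2)
    (congrArg₂ (· + ·) R1f R1t)) (congrArg₂ (· + ·) (congrArg₂ (· + ·) R2f R2t)
    (congrArg₂ (· + ·) (congrArg₂ (· + ·) o1 o2) o3))

  ring_nf at e ⊢
  reduce_mod_char at e ⊢
  linear_combination e

theorem nb_flip (β : Fin (N + 1) → Bool) (i j : Fin (N + 1)) (hij : i ≠ j) (b b' : Bool)
    (hβ : β = fun p => if p = i then !b else if p = j then !b' else true) (v : TV N) :
    nb m β v = nb m (fun _ => true) v + (if b then nC m i v else 0) +
      (if b' then nC m j v else 0) := by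
  have h1 : ∀ p, ∑ s, m p (β p) s v = ∑ s, m p true s v +
      ((if p = i then (if b then nC m i v else 0) else 0) +
      (if p = j then (if b' then nC m j v else 0) else 0)) := by
    intro p
    have key : ∀ q, ∑ s, m q false s v = ∑ s, m q true s v + nC m q v := by
      intro q
      unfold nC
      rw [sum_bool (fun b => ∑ s, m q b s v)]
      have := z2_add_self (∑ s, m q true s v)
      linear_combination -this
    rw [hβ]
    simp only
    by_cases h1 : p = i
    · subst h1
      cases b
      · simp [hij]
      · simpa [hij] using key p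
    · by_cases h2 : p = j
      · subst h2
        cases b'
        · simp [h1]
        · simpa [h1] using key p
      · simp [h1, h2]
  unfold nb
  rw [sum_congr rfl fun p _ => h1 p, sum_add_distrib, sum_add_distrib, sum_ite_eq', sum_ite_eq']
  simp only [mem_univ, if_true]
  ring

/-- **The parity argument**: there is an assignment which satisfies all light edges that are not
crossed by thin edges. -/
theorem thin {M : ℕ} (hN : 2 ≤ N) (L : Fin M → Hd N × Hd N) (hL : ∀ e, (L e).1.1 ≠ (L e).2.1)
    (ho : ∀ x y, x ≠ y → o x y + o y x = 1) (H : Thin o m) (ml : Fin M → TV N → ZMod 2)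
    (ok : Fin M → Prop) (H2 : ∀ e, ok e → ∀ p b s, (p, b) ≠ (L e).1 → (p, b) ≠ (L e).2 →
      Rl o (m p b s) (ml e) (.hd (p, b)) (.jn (J p s)) (.hd (L e).1) (.hd (L e).2)) :
    ∃ x : Fin (N + 1) → Bool, ∀ e, ok e →
      xor (x (L e).1.1) (L e).1.2 = xor (x (L e).2.1) (L e).2.2 := by
  classical
  refine ⟨fun p => decide (nb m (fun _ => true) (.hd (p, false)) = 1), fun e he => ?_⟩
  have hLe := hL e
  have H2e := H2 e he
  rcases hq : L e with ⟨⟨i, b⟩, ⟨j, b'⟩⟩
  rw [hq] at hLe H2e
  simp only at hLe H2e ⊢
  set β : Fin (N + 1) → Bool := fun p => if p = i then !b else if p = j then !b' else true with hβ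
  have h1 : nb m β (.hd (i, b)) = nb m β (.hd (j, b')) := by
    refine nb_edge (o := o) β _ _ (ml e) fun p s => H2e p (β p) s ?_ ?_
    · intro h
      have h1 := congrArg Prod.fst h
      have h2 := congrArg Prod.snd h
      simp only at h1 h2
      rw [hβ] at h2
      simp only [h1, if_true] at h2
      revert h2; cases b <;> simp
    · intro h
      have h1 := congrArg Prod.fst h
      have h2 := congrArg Prod.snd h
      simp only at h1 h2
      rw [hβ] at h2
      simp only [h1, hLe.symm, if_true, if_false] at h2
      revert h2; cases b' <;> simp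
  rw [nb_flip β i j hLe b b' hβ, nb_flip β i j hLe b b' hβ, nC_const hN H i j b' hLe.symm,
    nC_const hN H j i b hLe] at h1
  have t1 := theta hN ho H i
  have t2 := theta hN ho H j
  revert h1 t1 t2
  cases b <;> cases b' <;>
    simp only [if_true, if_false, Bool.false_eq_true, Bool.xor_false, Bool.xor_true, add_zero] <;>
    generalize nb m (fun _ => true) (.hd (i, false)) = x1 <;>
    generalize nb m (fun _ => true) (.hd (j, false)) = x2 <;>
    generalize nb m (fun _ => true) (.hd (i, true)) = x3 <;>
    generalize nb m (fun _ => true) (.hd (j, true)) = x4 <;>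
    generalize nC m i (.hd (i, true)) = x5 <;>
    generalize nC m j (.hd (j, true)) = x6 <;>
    generalize nC m i (.jn (i + 1 + 1)) = x7 <;>
    generalize nC m j (.jn (j + 1 + 1)) = x8 <;>
    revert x1 x2 x3 x4 x5 x6 x7 x8 <;> decide

end

end Pool.Agent.TH694.CR
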