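import Pool.Agent.TH694.CR.Cons1
import Pool.Agent.H604R2.VDRed

/-!
# From unique games to lists of light edges
-/

set_option autoImplicit false

namespace Pool.Agent.TH694.CR

open Finset Pool.Agent.NPC Pool.Agent.NPC.H604 Pool.Agent.H562R2

/-- a handle: the number of the piece and a bit -/
abbrev HD : Type := ℕ × Bool

/-- numbering of the bit vectors -/
noncomputable def en (k' : ℕ) : (Fin k' → Bool) ≃ Fin (2 ^ k') :=
  Fintype.equivFinOfCardEq (by simp)

/-- the code of a point of the cube: the number of its class modulo negation, and its first bit -/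
noncomputable def hcode {k' : ℕ} (x : Fin (k' + 1) → Bool) : HD :=
  ((en k' fun i => xor (x i.succ) (x 0) : Fin (2 ^ k')).val, x 0)

theorem hcode_lt {k' : ℕ} (x : Fin (k' + 1) → Bool) : (hcode x).1 < 2 ^ k' := (en k' _).2

theorem hcode_not {k' : ℕ} (x : Fin (k' + 1) → Bool) :
    hcode (fun i => !(x i)) = ((hcode x).1, !(x 0)) := by
  unfold hcode
  have : (fun i : Fin k' => xor (!(x i.succ)) (!(x 0))) = fun i => xor (x i.succ) (x 0) := by
    funext i
    cases x i.succ <;> cases x 0 <;> rfl
  simp only [this]

/-- the number of the first constraint with the name `u` -/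
def fstI (g : Con → ℕ) (cs : List Con) (u : ℕ) : ℕ :=
  ((List.range cs.length).filter fun i => decide (g (cc cs i) = u)).headD 0

theorem fstI_lt (g : Con → ℕ) {cs : List Con} (h : cs ≠ []) (u : ℕ) : fstI g cs u < cs.length := by
  unfold fstI
  rcases hl : (List.range cs.length).filter fun i => decide (g (cc cs i) = u) with _ | ⟨a, l⟩
  · simpa using List.length_pos_iff.2 h
  · have : a ∈ (List.range cs.length).filter fun i => decide (g (cc cs i) = u) := by
      rw [hl]; exact List.mem_cons_self
    rw [List.mem_filter, List.mem_range] at this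
    simpa using this.1

theorem g_fstI (g : Con → ℕ) {cs : List Con} {u : ℕ} {i : ℕ} (hi : i < cs.length)
    (h : g (cc cs i) = u) : g (cc cs (fstI g cs u)) = u := by
  unfold fstI
  rcases hl : (List.range cs.length).filter fun i => decide (g (cc cs i) = u) with _ | ⟨a, l⟩
  · have : i ∈ (List.range cs.length).filter fun i => decide (g (cc cs i) = u) := by
      rw [List.mem_filter, List.mem_range]
      exact ⟨hi, by simpa using h⟩
    rw [hl] at this
    simp at this
  · have : a ∈ (List.range cs.length).filter fun i => decide (g (cc cs i) = u) := by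
      rw [hl]; exact List.mem_cons_self
    rw [List.mem_filter] at this
    simpa using this.2

/-- left names -/
def gL (c : Con) : ℕ := c.1.1

/-- right names -/
def gR (c : Con) : ℕ := c.1.2

/-- the piece of a left variable and a class -/
def pcL (k' : ℕ) (cs : List Con) (u ξ : ℕ) : ℕ := fstI gL cs u * 2 ^ k' + ξ

/-- the piece of a right variable and a class -/
def pcR (k' : ℕ) (cs : List Con) (u ξ : ℕ) : ℕ := (cs.length + fstI gR cs u) * 2 ^ k' + ξ

/-- the graph of a permutation, as a list -/
noncomputable def gr {k : ℕ} (π : Equiv.Perm (Fin k)) : List (ℕ × ℕ) :=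
  (univ : Finset (Fin k)).toList.map fun i : Fin k => ((i : ℕ), (π i : ℕ))

/-- the tests of a permutation, as a list -/
noncomputable def ts {k' : ℕ} (q : ℕ) (π : Equiv.Perm (Fin (k' + 1))) : List (HD × HD) :=
  (univ : Finset ((Fin (k' + 1) → Bool) × (Fin (k' + 1) → Fin q))).toList.map fun p =>
    (hcode p.1, hcode (pm π (noisy p.1 p.2)))

/-- the table of all permutations -/
noncomputable def tab (k' q : ℕ) : List (List (ℕ × ℕ) × List (HD × HD)) :=
  (univ : Finset (Equiv.Perm (Fin (k' + 1)))).toList.map fun π => (gr π, ts q π)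

/-- moving a test to the pieces of a constraint -/
def mv (k' : ℕ) (cs : List Con) (c : Con) (h : HD × HD) : HD × HD :=
  ((pcL k' cs c.1.1 h.1.1, h.1.2), (pcR k' cs c.1.2 h.2.1, h.2.2))

/-- the list of the light edges -/
noncomputable def eds (k' q : ℕ) (cs : List Con) : List (HD × HD) :=
  cs.flatMap fun c => (tab k' q).flatMap fun t =>
    if t.1.all (fun r => decide (r ∈ c.2)) = true then t.2.map (mv k' cs c) else []

/-- the edge is violated -/
def vl (σ : ℕ → Bool) (h : HD × HD) : Bool := xor (xor (σ h.1.1) h.1.2) (xor (σ h.2.1) h.2.2)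

theorem flatMap_single {α β : Type*} [DecidableEq α] (X : List β) (a : α) :
    ∀ (l : List α), l.Nodup → a ∈ l → l.flatMap (fun b => if b = a then X else []) = X
  | [], _, h => by simp at h
  | b :: l, hn, h => by
    rw [List.nodup_cons] at hn
    rw [List.flatMap_cons]
    by_cases hb : b = a
    · subst hb
      rw [if_pos rfl]
      have : l.flatMap (fun b' => if b' = b then X else []) = [] := by
        rw [List.flatMap_eq_nil_iff]
        intro c hc
        rw [if_neg]
        rintro rfl
        exact hn.1 hc
      rw [this, List.append_nil]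
    · rw [if_neg hb, List.nil_append]
      refine flatMap_single X a l hn.2 ?_
      rcases List.mem_cons.1 h with h | h
      · exact absurd h.symm hb
      · exact h

theorem gr_all {k : ℕ} (π π' : Equiv.Perm (Fin k)) (R : List (ℕ × ℕ))
    (h : ∀ x y : Fin k, ((x : ℕ), (y : ℕ)) ∈ R ↔ π x = y) :
    (gr π').all (fun r => decide (r ∈ R)) = true ↔ π' = π := by
  unfold gr
  rw [List.all_map, List.all_eq_true]
  constructor
  · intro h1
    ext i
    have := h1 i (by simp)
    simp only [Function.comp_apply, decide_eq_true_eq] at this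
    rw [h] at this
    rw [this]
  · rintro rfl i _
    simp only [Function.comp_apply, decide_eq_true_eq]
    rw [h]

/-- the edges of a unique constraint -/
theorem eds_con {k' q : ℕ} (cs : List Con) (c : Con) (π : Equiv.Perm (Fin (k' + 1)))
    (h : ∀ x y : Fin (k' + 1), ((x : ℕ), (y : ℕ)) ∈ c.2 ↔ π x = y) :
    ((tab k' q).flatMap fun t =>
      if t.1.all (fun r => decide (r ∈ c.2)) = true then t.2.map (mv k' cs c) else []) =
      (ts q π).map (mv k' cs c) := by
  classical
  unfold tab
  rw [List.flatMap_map]
  have : (fun π' : Equiv.Perm (Fin (k' + 1)) =>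
      if (gr π').all (fun r => decide (r ∈ c.2)) = true then (ts q π').map (mv k' cs c) else []) =
      fun π' => if π' = π then (ts q π).map (mv k' cs c) else [] := by
    funext π'
    by_cases hπ : π' = π
    · rw [if_pos ((gr_all π π' c.2 h).2 hπ), if_pos hπ, hπ]
    · rw [if_neg (fun h' => hπ ((gr_all π π' c.2 h).1 h')), if_neg hπ]
  rw [this]
  exact flatMap_single _ _ _ (nodup_toList _) (by simp)

theorem sum_map_eq {α : Type*} (l : List α) (G : α → ℕ) :
    (l.map G).sum = ∑ i : Fin l.length, G l[i] := by
  rw [← List.sum_ofFn]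
  congr 1
  apply List.ext_getElem
  · simp
  · intro i h1 h2
    simp

theorem countP_toList {α : Type*} (s : Finset α) (p : α → Prop) [DecidablePred p] :
    s.toList.countP (fun a => decide (p a)) = (s.filter p).card := by
  rw [← Multiset.coe_countP, coe_toList, Multiset.countP_eq_card_filter]
  rfl

/-- the Boolean function of a left variable -/
noncomputable def Fl (k' : ℕ) (cs : List Con) (σ : ℕ → Bool) (u : ℕ) (x : Fin (k' + 1) → Bool) :
    Bool := xor (σ (pcL k' cs u (hcode x).1)) (hcode x).2

/-- the Boolean function of a right variable -/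
noncomputable def Fr (k' : ℕ) (cs : List Con) (σ : ℕ → Bool) (u : ℕ) (x : Fin (k' + 1) → Bool) :
    Bool := xor (σ (pcR k' cs u (hcode x).1)) (hcode x).2

theorem xor_dec (a b : Bool) (inst : Decidable (a ≠ b)) : xor a b = @decide (a ≠ b) inst := by
  cases a <;> cases b <;> simp

theorem count_con {k' q : ℕ} (cs : List Con) (c : Con) (π : Equiv.Perm (Fin (k' + 1)))
    (σ : ℕ → Bool) :
    ((ts q π).map (mv k' cs c)).countP (vl σ) = viol π q (Fl k' cs σ c.1.1) (Fr k' cs σ c.1.2) := by
  unfold ts viol
  rw [List.countP_map, List.countP_map, ← countP_toList]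
  congr 1
  funext p
  simp only [Function.comp_apply, vl, mv, Fl, Fr]
  exact xor_dec _ _ _

theorem length_con {k' q : ℕ} (cs : List Con) (c : Con) (π : Equiv.Perm (Fin (k' + 1))) :
    ((ts q π).map (mv k' cs c)).length = 2 ^ (k' + 1) * q ^ (k' + 1) := by
  unfold ts
  simp

section total

variable {k' q : ℕ} {cs : List Con} (hU : ∀ c ∈ cs, IsUnique (k' + 1) c)

/-- the permutation of a constraint -/
noncomputable def prm (i : Fin cs.length) : Equiv.Perm (Fin (k' + 1)) :=
  (hU cs[i] (List.getElem_mem i.2)).choose

theorem prm_spec (i : Fin cs.length) (x y : Fin (k' + 1)) :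
    ((x : ℕ), (y : ℕ)) ∈ cs[i].2 ↔ prm hU i x = y :=
  (hU cs[i] (List.getElem_mem i.2)).choose_spec x y

theorem flatMap_fin {α β : Type*} (l : List α) (f : α → List β) :
    l.flatMap f = (List.finRange l.length).flatMap fun i => f l[i] := by
  conv_lhs => rw [← List.map_getElem_finRange l]
  rw [List.flatMap_map]
  rfl

include hU in
theorem eds_eq : eds k' q cs = (List.finRange cs.length).flatMap fun i =>
    (ts q (prm hU i)).map (mv k' cs cs[i]) := by
  unfold eds
  rw [flatMap_fin]
  congr 1
  funext i
  exact eds_con cs cs[i] (prm hU i) (prm_spec hU i)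

include hU in
theorem length_eds : (eds k' q cs).length = cs.length * (2 ^ (k' + 1) * q ^ (k' + 1)) := by
  rw [eds_eq hU, List.length_flatMap]
  simp only [length_con]
  simp

theorem count_eds (σ : ℕ → Bool) : (eds k' q cs).countP (vl σ) =
    ∑ i : Fin cs.length, viol (prm hU i) q (Fl k' cs σ cs[i].1.1) (Fr k' cs σ cs[i].1.2) := by
  rw [eds_eq hU, List.countP_flatMap]
  simp only [Function.comp_def, count_con]
  rw [← List.sum_ofFn, List.ofFn_eq_map]

end total

end Pool.Agent.TH694.CR
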